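import Pool.Agent.N403.QL.BVH
import Pool.Agent.D0H48.Hl.Gauge

/-!
The moduli for which the primes are badly distributed in some residue class are rare (from the theorem of Bombieri and
Vinogradov).
-/

set_option autoImplicit false

open Filter Topology Finset
open scoped ENNReal

namespace Pool.Agent.D0H48.BM

/-- `ψ(x; q, b)` -/
noncomputable def psi (x : ℝ) (q b : ℕ) : ℝ :=
  ∑ n ∈ (Icc 1 ⌊x⌋₊).filter (fun n => n ≡ b [MOD q]), ArithmeticFunction.vonMangoldt n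

/-- the primes are well distributed in all residue classes modulo `q` -/
def Regular (A K q : ℕ) : Prop :=
  ∀ x : ℝ, (q : ℝ) ≤ x → (q : ℝ) ^ 2 * Real.log x ^ K ≤ x → ∀ y : ℝ, 0 ≤ y → y ≤ x → ∀ b : ℕ, b.Coprime q →
    |psi y q b - y / Nat.totient q| ≤ x / (q * Real.log x ^ A)

/-- `θ(h; q, b)` -/
noncomputable def th (h q b : ℕ) : ℝ := ∑ p ∈ (Icc 1 h).filter (fun p => p.Prime ∧ p ≡ b [MOD q]), Real.log p

/-- the logarithm of `2 ^ i` -/
noncomputable def L (i : ℕ) : ℝ := Real.log ((2 ^ i : ℕ) : ℝ)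

/-- `q` is bad at the scale `2 ^ i` -/
def BadAt (A i q : ℕ) : Prop :=
  ∃ b h : ℕ, b.Coprime q ∧ h ≤ 2 ^ i ∧ ((2 ^ i : ℕ) : ℝ) / (4 * q * L i ^ A) ≤ |th h q b - (h : ℝ) / Nat.totient q|

lemma L_eq (i : ℕ) : L i = i * Real.log 2 := by
  unfold L
  rw [Nat.cast_pow, Real.log_pow]
  norm_num

lemma log8 : 2 ≤ Real.log 8 := by
  have h1 : Real.log 8 = 3 * Real.log 2 := by
    rw [show (8:ℝ) = 2 ^ (3:ℕ) by norm_num, Real.log_pow]
    norm_num
  have h2 := Real.log_two_gt_d9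
  rw [h1]
  linarith

lemma scale (A K0 i0 q : ℕ) (hq8 : 8 ≤ q) (hqi : 2 ^ i0 ≤ q) (hbad : ¬ Regular A (2 * K0 + 4 * A + 12) q) :
    ∃ i, i0 ≤ i ∧ BadAt A i q ∧ (q : ℝ) ^ 2 * L i ^ K0 ≤ ((2 ^ i : ℕ) : ℝ) := by
  unfold Regular at hbad
  push Not at hbad
  obtain ⟨x, hqx, hx, y, hy0, hyx, b, hb, hdev⟩ := hbad
  have hq8r : (8:ℝ) ≤ q := by exact_mod_cast hq8
  have hx8 : 8 ≤ x := hq8r.trans hqx
  obtain ⟨n, hn1, hn2⟩ := exists_nat_pow_near (by linarith : (1:ℝ) ≤ x) (by norm_num : (1:ℝ) < 2)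
  obtain ⟨i, hi⟩ : ∃ i, i = n + 1 := ⟨_, rfl⟩
  obtain ⟨X, hX⟩ : ∃ X : ℝ, X = ((2 ^ i : ℕ) : ℝ) := ⟨_, rfl⟩
  have hXe : X = 2 ^ (n + 1) := by rw [hX, hi]; push_cast; rfl
  have hxX : x < X := by rw [hXe]; exact hn2
  have hX2x : X ≤ 2 * x := by rw [hXe, pow_succ]; linarith
  have hLe : L i = Real.log X := by rw [hX]; rfl
  have hlx2 : 2 ≤ Real.log x := log8.trans (Real.log_le_log (by norm_num) hx8)
  have hX0 : 0 < X := by linarith
  have hL1 : Real.log x ≤ L i := by rw [hLe]; exact Real.log_le_log (by linarith) hxX.le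
  have hL2 : L i ≤ 2 * Real.log x := by
    rw [hLe]
    have h1 : Real.log X ≤ Real.log (2 * x) := Real.log_le_log hX0 hX2x
    rw [Real.log_mul (by norm_num) (by linarith)] at h1
    have h2 := Real.log_two_lt_d9
    linarith
  obtain ⟨l, hl⟩ : ∃ l, l = Real.log x := ⟨_, rfl⟩
  obtain ⟨M, hM⟩ : ∃ M, M = L i := ⟨_, rfl⟩
  rw [← hl] at hx hdev hlx2 hL1 hL2
  have hl0 : 0 < l := by linarith
  rw [← hM] at hL1 hL2
  have hM0 : 0 < M := by linarith
  have hq0 : (0:ℝ) < q := by linarith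
  have hpl : (2:ℝ) ^ K0 ≤ l ^ K0 := pow_le_pow_left₀ (by norm_num) hlx2 _
  refine ⟨i, ?_, ?_, ?_⟩
  · have h1 : (2:ℝ) ^ i0 < 2 ^ i := by
      have h2 : ((2 ^ i0 : ℕ) : ℝ) ≤ q := by exact_mod_cast hqi
      push_cast at h2
      have h3 : X = 2 ^ i := by rw [hX]; push_cast; rfl
      rw [← h3]
      linarith
    exact ((pow_lt_pow_iff_right₀ (by norm_num : (1:ℝ) < 2)).mp h1).le
  · refine ⟨b, ⌊y⌋₊, hb, ?_, ?_⟩
    · have h1 : ((⌊y⌋₊ : ℕ) : ℝ) ≤ ((2 ^ i : ℕ) : ℝ) := by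
        rw [← hX]
        exact (Nat.floor_le hy0).trans (by linarith)
      exact_mod_cast h1
    · rw [← hX, ← hM]
      have hfl : ((⌊y⌋₊ : ℕ) : ℝ) ≤ y := Nat.floor_le hy0
      have hfl2 : y < ⌊y⌋₊ + 1 := Nat.lt_floor_add_one y
      have hXn : 1 ≤ 2 ^ i := Nat.one_le_two_pow
      have hhX : ⌊y⌋₊ ≤ 2 ^ i := by
        have h1 : ((⌊y⌋₊ : ℕ) : ℝ) ≤ ((2 ^ i : ℕ) : ℝ) := by
          rw [← hX]
          exact hfl.trans (by linarith)
        exact_mod_cast h1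
      have e1 := Pool.Agent.N403.QL.theta_psi (2 ^ i) ⌊y⌋₊ q b hXn hhX
      have e2 : H343E.psiAP (⌊y⌋₊ : ℝ) q b = psi y q b := by
        unfold H343E.psiAP psi
        rw [Nat.floor_natCast]
      rw [e2] at e1
      have e3 : (∑ p ∈ (Icc 1 ⌊y⌋₊).filter (fun p => p.Prime ∧ p ≡ b [MOD q]), Real.log p) = th ⌊y⌋₊ q b := rfl
      rw [e3] at e1
      have e4 : Real.log ((2 ^ i : ℕ) : ℝ) = M := by rw [hM]; rfl
      rw [e4, ← hX] at e1
      have hφ : (1:ℝ) ≤ Nat.totient q := by exact_mod_cast Nat.totient_pos.mpr (by omega)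
      have e5 : |y / (Nat.totient q : ℝ) - (⌊y⌋₊ : ℝ) / Nat.totient q| ≤ 1 := by
        rw [← sub_div, abs_div, abs_of_nonneg (by linarith : (0:ℝ) ≤ y - ⌊y⌋₊), abs_of_pos (by linarith : (0:ℝ) < Nat.totient q),
          div_le_one (by linarith)]
        linarith
      -- the main inequality
      have f1 : X / (2 * q * M ^ A) ≤ x / (q * l ^ A) := by
        rw [div_le_div_iff₀ (by positivity) (by positivity)]
        have g1 : l ^ A ≤ M ^ A := pow_le_pow_left₀ hl0.le hL1 _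
        calc X * (q * l ^ A) ≤ (2 * x) * (q * M ^ A) := by gcongr
          _ = x * (2 * q * M ^ A) := by ring
      have f2 : 2 * √X * M + 1 ≤ X / (4 * q * M ^ A) := by
        have hs0 : 0 < √X := Real.sqrt_pos.mpr hX0
        have hs1 : 1 ≤ √X := by rw [Real.one_le_sqrt]; linarith
        have hM1 : 1 ≤ M := by linarith
        rw [le_div_iff₀ (by positivity)]
        have g1 : 12 * q * M ^ (A + 1) ≤ √X := by
          apply Real.le_sqrt_of_sq_le
          have g2 : M ^ (A + 1) ≤ (2 * l) ^ (A + 1) := pow_le_pow_left₀ hM0.le hL2 _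
          have g3 : (M ^ (A + 1)) ^ 2 ≤ 2 ^ (2 * A + 2) * l ^ (2 * A + 2) := by
            calc (M ^ (A + 1)) ^ 2 ≤ ((2 * l) ^ (A + 1)) ^ 2 := pow_le_pow_left₀ (by positivity) g2 2
              _ = 2 ^ (2 * A + 2) * l ^ (2 * A + 2) := by
                rw [← pow_mul, mul_pow]
                congr 2 <;> ring
          have g4 : (144:ℝ) * 2 ^ (2 * A + 2) ≤ l ^ (2 * K0 + 2 * A + 10) := by
            calc (144:ℝ) * 2 ^ (2 * A + 2) ≤ 2 ^ 8 * 2 ^ (2 * A + 2) := by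
                  apply mul_le_mul_of_nonneg_right (by norm_num) (by positivity)
              _ = 2 ^ (2 * A + 10) := by rw [← pow_add]; congr 1; ring
              _ ≤ l ^ (2 * A + 10) := pow_le_pow_left₀ (by norm_num) hlx2 _
              _ ≤ l ^ (2 * K0 + 2 * A + 10) := pow_le_pow_right₀ (by linarith) (by omega)
          calc (12 * q * M ^ (A + 1)) ^ 2 = 144 * (q:ℝ) ^ 2 * (M ^ (A + 1)) ^ 2 := by ring
            _ ≤ 144 * (q:ℝ) ^ 2 * (2 ^ (2 * A + 2) * l ^ (2 * A + 2)) := mul_le_mul_of_nonneg_left g3 (by positivity)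
            _ = (q:ℝ) ^ 2 * ((144 * 2 ^ (2 * A + 2)) * l ^ (2 * A + 2)) := by ring
            _ ≤ (q:ℝ) ^ 2 * (l ^ (2 * K0 + 2 * A + 10) * l ^ (2 * A + 2)) := by
                apply mul_le_mul_of_nonneg_left _ (by positivity)
                exact mul_le_mul_of_nonneg_right g4 (by positivity)
            _ = (q:ℝ) ^ 2 * l ^ (2 * K0 + 4 * A + 12) := by rw [← pow_add]; congr 2; ring
            _ ≤ x := hx
            _ ≤ X := hxX.le
        calc (2 * √X * M + 1) * (4 * q * M ^ A) ≤ (3 * √X * M) * (4 * q * M ^ A) := by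
              apply mul_le_mul_of_nonneg_right _ (by positivity)
              nlinarith
          _ = √X * (12 * q * M ^ (A + 1)) := by rw [pow_succ]; ring
          _ ≤ √X * √X := mul_le_mul_of_nonneg_left g1 hs0.le
          _ = X := Real.mul_self_sqrt hX0.le
      have f3 : X / (2 * q * M ^ A) = 2 * (X / (4 * q * M ^ A)) := by
        have : (4 * (q:ℝ) * M ^ A) ≠ 0 := by positivity
        have : (2 * (q:ℝ) * M ^ A) ≠ 0 := by positivity
        field_simp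
        norm_num
      have f4 : |psi y q b - y / (Nat.totient q : ℝ)| ≤ |th ⌊y⌋₊ q b - psi y q b| +
          |th ⌊y⌋₊ q b - (⌊y⌋₊ : ℝ) / Nat.totient q| + |y / (Nat.totient q : ℝ) - (⌊y⌋₊ : ℝ) / Nat.totient q| := by
        have g1 : psi y q b - y / (Nat.totient q : ℝ) = -(th ⌊y⌋₊ q b - psi y q b) +
            (th ⌊y⌋₊ q b - (⌊y⌋₊ : ℝ) / Nat.totient q) + -(y / (Nat.totient q : ℝ) - (⌊y⌋₊ : ℝ) / Nat.totient q) := by ring
        rw [g1]
        refine (abs_add_three _ _ _).trans ?_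
        rw [abs_neg, abs_neg]
      linarith
  · rw [← hX, ← hM]
    calc (q:ℝ) ^ 2 * M ^ K0 ≤ (q:ℝ) ^ 2 * (2 * l) ^ K0 :=
          mul_le_mul_of_nonneg_left (pow_le_pow_left₀ hM0.le hL2 _) (by positivity)
      _ = (q:ℝ) ^ 2 * (2 ^ K0 * l ^ K0) := by rw [mul_pow]
      _ ≤ (q:ℝ) ^ 2 * (l ^ K0 * l ^ K0) := by
          apply mul_le_mul_of_nonneg_left _ (by positivity)
          exact mul_le_mul_of_nonneg_right hpl (by positivity)
      _ = (q:ℝ) ^ 2 * l ^ (2 * K0) := by rw [← pow_add]; congr 2; ring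
      _ ≤ (q:ℝ) ^ 2 * l ^ (2 * K0 + 4 * A + 12) := by
          apply mul_le_mul_of_nonneg_left _ (by positivity)
          exact pow_le_pow_right₀ (by linarith) (by omega)
      _ ≤ x := hx
      _ ≤ X := hxX.le

open Classical in
/-- the bad moduli at the scale `2 ^ i` -/
noncomputable def T (A K0 i : ℕ) : Finset ℕ :=
  (Icc 1 ⌊√(((2 ^ i : ℕ) : ℝ) / L i ^ K0)⌋₊).filter (BadAt A i)

lemma T_sum (A U : ℕ) : ∃ K0 i0 : ℕ, ∀ i : ℕ, i0 ≤ i → ∑ q ∈ T A K0 i, 1 / (q:ℝ) ≤ 4 * L i ^ A / L i ^ U := by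
  classical
  obtain ⟨K0, X0, hbv⟩ := Pool.Agent.N403.QL.t_BVH U
  refine ⟨K0, X0 + 2, fun i hi => ?_⟩
  have hX : X0 ≤ 2 ^ i := (by omega : X0 ≤ i).trans Nat.lt_two_pow_self.le
  have hL0 : 0 < L i := by
    rw [L_eq]
    have : (0:ℝ) < i := by exact_mod_cast (by omega : 0 < i)
    have := Real.log_pos (by norm_num : (1:ℝ) < 2)
    positivity
  obtain ⟨X, hXe⟩ : ∃ X : ℝ, X = ((2 ^ i : ℕ) : ℝ) := ⟨_, rfl⟩
  have hX0 : 0 < X := by rw [hXe]; positivity
  obtain ⟨D, hD⟩ : ∃ D, D = ⌊√(((2 ^ i : ℕ) : ℝ) / L i ^ K0)⌋₊ := ⟨_, rfl⟩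
  have hD2 : (D : ℝ) ^ 2 * Real.log ((2 ^ i : ℕ) : ℝ) ^ K0 ≤ ((2 ^ i : ℕ) : ℝ) := by
    have h1 : (D:ℝ) ≤ √(((2 ^ i : ℕ) : ℝ) / L i ^ K0) := by rw [hD]; exact Nat.floor_le (Real.sqrt_nonneg _)
    have h2 : (D:ℝ) ^ 2 ≤ ((2 ^ i : ℕ) : ℝ) / L i ^ K0 := by
      have h3 := pow_le_pow_left₀ (Nat.cast_nonneg D) h1 2
      rwa [Real.sq_sqrt (by positivity)] at h3
    rw [le_div_iff₀ (by positivity)] at h2
    exact h2
  obtain ⟨r, hr⟩ : ∃ r : ℕ → ℕ, r = fun q => if h : BadAt A i q then h.choose else 1 := ⟨_, rfl⟩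
  obtain ⟨hh, hhh⟩ : ∃ hh : ℕ → ℕ, hh = fun q => if h : BadAt A i q then h.choose_spec.choose else 0 := ⟨_, rfl⟩
  have hrc : ∀ m ∈ Icc 1 D, Nat.Coprime (r m) m := by
    intro m _
    rw [hr]
    by_cases h : BadAt A i m
    · simp only [h, dite_true]
      exact h.choose_spec.choose_spec.1
    · simp only [h, dite_false]
      exact Nat.coprime_one_left m
  have hhX : ∀ m, hh m ≤ 2 ^ i := by
    intro m
    rw [hhh]
    by_cases h : BadAt A i m
    · simp only [h, dite_true]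
      exact h.choose_spec.choose_spec.2.1
    · simp only [h, dite_false]
      exact Nat.zero_le _
  have hb := hbv (2 ^ i) hX D hD2 r hh hrc hhX
  have hbad : ∀ m ∈ T A K0 i, X / (4 * L i ^ A) * (1 / (m:ℝ)) ≤
      |∑ p ∈ (Icc 1 (hh m)).filter (fun p => p.Prime ∧ p ≡ r m [MOD m]), Real.log p - (hh m : ℝ) / Nat.totient m| := by
    intro m hm
    unfold T at hm
    rw [mem_filter, mem_Icc] at hm
    have h := hm.2
    have hm0 : (0:ℝ) < m := by exact_mod_cast (by omega : 0 < m)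
    have h1 := h.choose_spec.choose_spec.2.2
    have e1 : r m = h.choose := by rw [hr]; simp only [h, dite_true]
    have e2 : hh m = h.choose_spec.choose := by rw [hhh]; simp only [h, dite_true]
    rw [e1, e2]
    have e3 : X / (4 * L i ^ A) * (1 / (m:ℝ)) = ((2 ^ i : ℕ) : ℝ) / (4 * m * L i ^ A) := by
      rw [← hXe]
      field_simp
    rw [e3]
    exact h1
  have hsub : T A K0 i ⊆ Icc 1 D := by
    unfold T
    rw [← hD]
    exact filter_subset _ _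
  have hs : X / (4 * L i ^ A) * ∑ q ∈ T A K0 i, 1 / (q:ℝ) ≤ X / L i ^ U := by
    rw [mul_sum]
    refine (sum_le_sum hbad).trans ((sum_le_sum_of_subset_of_nonneg hsub fun _ _ _ => abs_nonneg _).trans ?_)
    rw [hXe]
    exact hb
  have h5 : X / L i ^ U = X / (4 * L i ^ A) * (4 * L i ^ A / L i ^ U) := by
    have : L i ^ A ≠ 0 := by positivity
    have : L i ^ U ≠ 0 := by positivity
    field_simp
  rw [h5] at hs
  exact le_of_mul_le_mul_left hs (by positivity)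

/-- **The moduli which are not regular are rare.** -/
theorem bad_sum (A M : ℕ) : ∃ K : ℕ, ∑' q : {q : ℕ | ¬ Regular A K q}, ENNReal.ofReal (Real.log (q : ℕ) ^ M / (q : ℕ)) ≠ ∞ := by
  classical
  obtain ⟨K0, i0, hT⟩ := T_sum A (A + M + 2)
  obtain ⟨f, hf⟩ : ∃ f : ℕ → ℝ, f = fun q : ℕ => Real.log (q : ℝ) ^ M / (q : ℝ) := ⟨_, rfl⟩
  have hf0 : ∀ q, 0 ≤ f q := fun q => by
    rw [hf]
    have := Real.log_natCast_nonneg q
    positivity
  refine ⟨2 * K0 + 4 * A + 12, ?_⟩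
  obtain ⟨q1, hq1⟩ : ∃ q1, q1 = 8 + 2 ^ (i0 + 2) := ⟨_, rfl⟩
  have hq18 : 8 ≤ q1 ∧ 2 ^ (i0 + 2) ≤ q1 := by
    rw [hq1]
    exact ⟨Nat.le_add_right _ _, Nat.le_add_left _ _⟩
  -- the cover
  have hcov : {q : ℕ | ¬ Regular A (2 * K0 + 4 * A + 12) q} ⊆ (range q1 : Set ℕ) ∪ ⋃ i : ℕ, (T A K0 (i + i0 + 2) : Set ℕ) := by
    intro q hq
    by_cases h : q < q1
    · left
      simpa using h
    · right
      have h1 : 2 ^ (i0 + 2) ≤ q := hq18.2.trans (not_lt.mp h)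
      have h8 : 8 ≤ q := hq18.1.trans (not_lt.mp h)
      obtain ⟨i, hi, hB, hr⟩ := scale A K0 (i0 + 2) q h8 h1 hq
      clear h h1 hq1 hq18
      rw [Set.mem_iUnion]
      refine ⟨i - (i0 + 2), ?_⟩
      have e1 : i - (i0 + 2) + i0 + 2 = i := by omega
      rw [e1, mem_coe]
      unfold T
      rw [mem_filter, mem_Icc]
      refine ⟨⟨by omega, ?_⟩, hB⟩
      have hL0 : 0 < L i := by
        rw [L_eq]
        have : (0:ℝ) < i := by exact_mod_cast (by omega : 0 < i)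
        have := Real.log_pos (by norm_num : (1:ℝ) < 2)
        positivity
      apply Nat.le_floor
      apply Real.le_sqrt_of_sq_le
      rw [le_div_iff₀ (by positivity)]
      exact hr
  -- the sums
  obtain ⟨g, hg⟩ : ∃ g : ℕ → ℝ, g = fun j => ∑ q ∈ T A K0 (j + i0 + 2), f q := ⟨_, rfl⟩
  have hg0 : ∀ j, 0 ≤ g j := fun j => by
    rw [hg]
    exact sum_nonneg fun x _ => hf0 x
  have hgb : ∀ j, g j ≤ 16 * (1 / ((j:ℝ) + 1) ^ 2) := by
    intro j
    rw [hg]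
    simp only
    obtain ⟨i, hi⟩ : ∃ i, i = j + i0 + 2 := ⟨_, rfl⟩
    rw [← hi]
    have hl2 := Real.log_two_gt_d9
    have hi1 : (j:ℝ) + 1 ≤ i := by rw [hi]; push_cast; linarith [(Nat.cast_nonneg i0 : (0:ℝ) ≤ i0)]
    have hj0 : (0:ℝ) ≤ j := Nat.cast_nonneg j
    have hLi : (i:ℝ) / 2 ≤ L i := by rw [L_eq]; nlinarith
    have hL0 : 0 < L i := lt_of_lt_of_le (by linarith) hLi
    have hL1 : 1 ≤ L i := by
      have : (2:ℝ) ≤ i := by rw [hi]; push_cast; linarith [(Nat.cast_nonneg i0 : (0:ℝ) ≤ i0)]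
      linarith
    have h1 : ∑ q ∈ T A K0 i, f q ≤ ∑ q ∈ T A K0 i, L i ^ M * (1 / (q:ℝ)) := by
      apply sum_le_sum
      intro q hq
      unfold T at hq
      rw [mem_filter, mem_Icc] at hq
      have hq0 : (0:ℝ) < q := by exact_mod_cast (by omega : 0 < q)
      have hqX : (q:ℝ) ≤ ((2 ^ i : ℕ) : ℝ) := by
        have g1 : (q:ℝ) ≤ √(((2 ^ i : ℕ) : ℝ) / L i ^ K0) := (Nat.le_floor_iff (Real.sqrt_nonneg _)).mp hq.1.2
        have g2 : (1:ℝ) ≤ ((2 ^ i : ℕ) : ℝ) := by exact_mod_cast Nat.one_le_two_pow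
        refine g1.trans ?_
        rw [Real.sqrt_le_left (by positivity)]
        calc ((2 ^ i : ℕ) : ℝ) / L i ^ K0 ≤ ((2 ^ i : ℕ) : ℝ) := div_le_self (by positivity) (one_le_pow₀ hL1)
          _ ≤ ((2 ^ i : ℕ) : ℝ) ^ 2 := by nlinarith
      rw [hf]
      show Real.log (q:ℝ) ^ M / (q:ℝ) ≤ L i ^ M * (1 / (q:ℝ))
      rw [div_eq_mul_one_div (Real.log (q:ℝ) ^ M)]
      apply mul_le_mul_of_nonneg_right _ (by positivity)
      apply pow_le_pow_left₀ (Real.log_natCast_nonneg q)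
      exact Real.log_le_log hq0 hqX
    refine h1.trans ?_
    rw [← mul_sum]
    have h2 := hT i (by omega)
    have e1 : 4 * L i ^ A / L i ^ (A + M + 2) = 4 / (L i ^ M * L i ^ 2) := by
      rw [pow_add, pow_add]
      have : L i ^ A ≠ 0 := by positivity
      have : L i ^ M ≠ 0 := by positivity
      field_simp
    rw [e1] at h2
    have h3 : (((j:ℝ) + 1) / 2) ^ 2 ≤ L i ^ 2 := pow_le_pow_left₀ (by linarith) (by linarith) 2
    calc L i ^ M * ∑ q ∈ T A K0 i, 1 / (q:ℝ) ≤ L i ^ M * (4 / (L i ^ M * L i ^ 2)) :=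
          mul_le_mul_of_nonneg_left h2 (by positivity)
      _ = 4 / L i ^ 2 := by
          have : L i ^ M ≠ 0 := by positivity
          field_simp
      _ ≤ 4 / ((((j:ℝ) + 1) / 2) ^ 2) := div_le_div_of_nonneg_left (by norm_num) (by positivity) h3
      _ = 16 * (1 / ((j:ℝ) + 1) ^ 2) := by
          field_simp
          norm_num
  have hgs : Summable g := by
    have h1 : Summable fun j : ℕ => 16 * (1 / ((j:ℝ) + 1) ^ 2) := by
      apply Summable.mul_left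
      have := (summable_nat_add_iff 1).mpr (Real.summable_one_div_nat_pow.mpr one_lt_two)
      refine this.congr fun j => ?_
      push_cast
      rfl
    exact Summable.of_nonneg_of_le hg0 hgb h1
  have h2 := ENNReal.tsum_iUnion_le_tsum (fun q : ℕ => ENNReal.ofReal (f q)) (fun j : ℕ => (T A K0 (j + i0 + 2) : Set ℕ))
  have h3 : ∀ j : ℕ, ∑' x : (T A K0 (j + i0 + 2) : Set ℕ), ENNReal.ofReal (f x) = ENNReal.ofReal (g j) := by
    intro j
    rw [Finset.tsum_subtype' (T A K0 (j + i0 + 2)) (fun q : ℕ => ENNReal.ofReal (f q)), hg,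
      ENNReal.ofReal_sum_of_nonneg fun x _ => hf0 x]
  have h4 : ∑' j : ℕ, ∑' x : (T A K0 (j + i0 + 2) : Set ℕ), ENNReal.ofReal (f x) ≠ ∞ := by
    simp only [h3]
    exact hgs.tsum_ofReal_ne_top
  have h5 := ne_top_of_le_ne_top h4 h2
  have h6 : ∑' x : (range q1 : Set ℕ), ENNReal.ofReal (f x) ≠ ∞ := by
    rw [Finset.tsum_subtype' (range q1) (fun q : ℕ => ENNReal.ofReal (f q))]
    exact ENNReal.sum_ne_top.mpr fun _ _ => ENNReal.ofReal_ne_top
  have h7 := ENNReal.tsum_union_le (fun q : ℕ => ENNReal.ofReal (f q)) (range q1 : Set ℕ) (⋃ j : ℕ, (T A K0 (j + i0 + 2) : Set ℕ))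
  have h8 := ne_top_of_le_ne_top (ENNReal.add_ne_top.mpr ⟨h6, h5⟩) h7
  have h9 := ENNReal.tsum_mono_subtype (fun q : ℕ => ENNReal.ofReal (f q)) hcov
  have h10 := ne_top_of_le_ne_top h8 h9
  rw [hf] at h10
  exact h10

end Pool.Agent.D0H48.BM
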