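import Pool.Agent.D0H48.BM.Pr

/-!
Elementary bounds for general moduli.
-/

set_option autoImplicit false

open Filter Topology Finset H336V H343 H343.KF
open scoped ENNReal

namespace Pool.Agent.D0H48.BM

/-- the number of the prime factors -/
lemma omega_le {q : ℕ} (hq : 1 ≤ q) : (q.primeFactors.card : ℝ) ≤ 2 * Real.log q := by
  have h1 : 2 ^ q.primeFactors.card ≤ q := by
    calc 2 ^ q.primeFactors.card = ∏ _p ∈ q.primeFactors, 2 := by rw [Finset.prod_const]
      _ ≤ ∏ p ∈ q.primeFactors, p := Finset.prod_le_prod' fun p hp => (Nat.prime_of_mem_primeFactors hp).two_le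
      _ ≤ q := Nat.le_of_dvd hq (Nat.prod_primeFactors_dvd q)
  have h2 : Real.log ((2 ^ q.primeFactors.card : ℕ) : ℝ) ≤ Real.log q :=
    Real.log_le_log (by positivity) (by exact_mod_cast h1)
  rw [Nat.cast_pow, Real.log_pow] at h2
  push_cast at h2
  have h3 := Real.log_two_gt_d9
  have h4 : (0:ℝ) ≤ q.primeFactors.card := Nat.cast_nonneg _
  nlinarith

lemma prod_lower (S : Finset ℕ) : (∀ x ∈ S, 2 ≤ x) → 1 / ((S.card : ℝ) + 1) ≤ ∏ x ∈ S, (1 - (x:ℝ)⁻¹) := by
  classical
  induction S using Finset.induction_on_max with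
  | empty => intro _; simp
  | insert a s has ih =>
    intro h
    have h1 : ∀ x ∈ s, 2 ≤ x := fun x hx => h x (mem_insert_of_mem hx)
    have h2 := ih h1
    have ha : a ∉ s := fun hm => lt_irrefl _ (has a hm)
    have hc : s.card + 2 ≤ a := by
      have h3 : s ⊆ Ico 2 a := fun x hx => mem_Ico.mpr ⟨h1 x hx, has x hx⟩
      have h4 := card_le_card h3
      rw [Nat.card_Ico] at h4
      have h5 := h a (mem_insert_self a s)
      omega
    rw [prod_insert ha, card_insert_of_notMem ha]
    have hcr : (s.card : ℝ) + 2 ≤ a := by exact_mod_cast hc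
    have hs0 : (0:ℝ) ≤ s.card := Nat.cast_nonneg _
    have h3 : ((s.card : ℝ) + 1) / (s.card + 2) ≤ 1 - (a:ℝ)⁻¹ := by
      have h4 : (a:ℝ)⁻¹ ≤ ((s.card : ℝ) + 2)⁻¹ := inv_anti₀ (by linarith) hcr
      have h5 : ((s.card : ℝ) + 1) / (s.card + 2) = 1 - ((s.card : ℝ) + 2)⁻¹ := by
        field_simp
        ring
      rw [h5]
      linarith
    push_cast
    calc 1 / ((s.card : ℝ) + 1 + 1) = ((s.card : ℝ) + 1) / (s.card + 2) * (1 / ((s.card : ℝ) + 1)) := by
          field_simp
          ring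
      _ ≤ (1 - (a:ℝ)⁻¹) * ∏ x ∈ s, (1 - (x:ℝ)⁻¹) := by
          apply mul_le_mul h3 h2 (by positivity)
          exact le_trans (by positivity) h3

lemma totient_low {q : ℕ} (hq : 3 ≤ q) : (q:ℝ) ≤ 3 * Real.log q * Nat.totient q := by
  have hq0 : (0:ℝ) < q := by exact_mod_cast (by omega : 0 < q)
  have h1 := prod_lower q.primeFactors (fun x hx => (Nat.prime_of_mem_primeFactors hx).two_le)
  have h2 : (Nat.totient q : ℝ) = q * ∏ p ∈ q.primeFactors, (1 - (p:ℝ)⁻¹) := by
    have h3 := Nat.totient_eq_mul_prod_factors q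
    have h4 : (((Nat.totient q : ℚ)) : ℝ) = (((q:ℚ) * ∏ p ∈ q.primeFactors, (1 - (p : ℚ)⁻¹) : ℚ) : ℝ) := by rw [h3]
    push_cast at h4
    exact h4
  have h3 := omega_le (show 1 ≤ q by omega)
  have hl : 1 ≤ Real.log q := by
    rw [Real.le_log_iff_exp_le hq0]
    have h5 : (3:ℝ) ≤ q := by exact_mod_cast hq
    have := Real.exp_one_lt_d9
    linarith
  have h4 : 1 / (3 * Real.log q) ≤ 1 / ((q.primeFactors.card : ℝ) + 1) :=
    one_div_le_one_div_of_le (by positivity) (by linarith)
  have h5 : (q:ℝ) * (1 / (3 * Real.log q)) ≤ Nat.totient q := by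
    rw [h2]
    exact mul_le_mul_of_nonneg_left (h4.trans h1) hq0.le
  rw [mul_one_div, div_le_iff₀ (by positivity)] at h5
  linarith

/-- `Λ` summed over the integers not coprime to `q` -/
noncomputable def Wn (h q : ℕ) : ℝ := ∑ n ∈ (Icc 1 h).filter (fun n => ¬ n.Coprime q), ArithmeticFunction.vonMangoldt n

lemma Wn_nonneg (h q : ℕ) : 0 ≤ Wn h q := sum_nonneg fun _ _ => ArithmeticFunction.vonMangoldt_nonneg

lemma Wn_le {q h : ℕ} (hq : 1 ≤ q) : Wn h q ≤ 2 * Real.log q * Real.log h := by
  classical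
  have hl := Real.log_natCast_nonneg h
  have e1 : ∀ n ∈ (Icc 1 h).filter (fun n => ¬ n.Coprime q), ArithmeticFunction.vonMangoldt n ≤
      ∑ p ∈ q.primeFactors, (if ¬ n.Coprime p then ArithmeticFunction.vonMangoldt n else 0) := by
    intro n hn
    rw [mem_filter] at hn
    obtain ⟨p, hp, hpn, hpq⟩ := Nat.Prime.not_coprime_iff_dvd.mp hn.2
    have hmem : p ∈ q.primeFactors := Nat.mem_primeFactors.mpr ⟨hp, hpq, by omega⟩
    have hnc : ¬ n.Coprime p := by
      rw [Nat.coprime_comm, hp.coprime_iff_not_dvd]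
      exact fun hc => hc hpn
    calc ArithmeticFunction.vonMangoldt n = (if ¬ n.Coprime p then ArithmeticFunction.vonMangoldt n else 0) := by rw [if_pos hnc]
      _ ≤ _ := single_le_sum (f := fun p => if ¬ n.Coprime p then ArithmeticFunction.vonMangoldt n else 0) (fun p _ => by
          split_ifs <;> first | exact le_rfl | exact ArithmeticFunction.vonMangoldt_nonneg) hmem
  unfold Wn
  calc ∑ n ∈ (Icc 1 h).filter (fun n => ¬ n.Coprime q), ArithmeticFunction.vonMangoldt n
      ≤ ∑ n ∈ (Icc 1 h).filter (fun n => ¬ n.Coprime q), ∑ p ∈ q.primeFactors, (if ¬ n.Coprime p then ArithmeticFunction.vonMangoldt n else 0) := sum_le_sum e1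
    _ ≤ ∑ n ∈ Icc 1 h, ∑ p ∈ q.primeFactors, (if ¬ n.Coprime p then ArithmeticFunction.vonMangoldt n else 0) :=
        sum_le_sum_of_subset_of_nonneg (filter_subset _ _) fun n _ _ => sum_nonneg fun p _ => by
          split_ifs <;> first | exact le_rfl | exact ArithmeticFunction.vonMangoldt_nonneg
    _ = ∑ p ∈ q.primeFactors, ∑ n ∈ (Icc 1 h).filter (fun n => ¬ n.Coprime p), ArithmeticFunction.vonMangoldt n := by
        rw [sum_comm]
        apply sum_congr rfl
        intro p _
        rw [sum_filter]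
    _ ≤ ∑ p ∈ q.primeFactors, Real.log h := by
        apply sum_le_sum
        intro p hp
        exact noncop (Nat.prime_of_mem_primeFactors hp)
    _ = q.primeFactors.card * Real.log h := by rw [sum_const, nsmul_eq_mul]
    _ ≤ 2 * Real.log q * Real.log h := mul_le_mul_of_nonneg_right (omega_le hq) hl

/-- the sum over the divisors -/
noncomputable def BSh (h q : ℕ) : ℝ := ∑ r ∈ q.divisors.filter (fun r => r ≠ 1), CS h r

/-- the sum over the nonprincipal characters modulo `q` and the primitive characters of the divisors -/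
lemma nonpr {h q : ℕ} (hq : 1 ≤ q) (S : Finset (DirichletCharacter ℂ q)) (hS : ∀ χ ∈ S, χ ≠ 1) :
    ∑ χ ∈ S, ‖psiCm h 1 χ‖ ≤ BSh h q + q * Wn h q := by
  classical
  unfold BSh
  have hsub : ∑ χ ∈ S, ‖psiCm h 1 χ‖ ≤ ∑ χ ∈ (univ : Finset (DirichletCharacter ℂ q)).filter (fun χ => χ ≠ 1), ‖psiCm h 1 χ‖ := by
    apply sum_le_sum_of_subset_of_nonneg
    · intro χ hχ
      rw [mem_filter]
      exact ⟨mem_univ _, hS χ hχ⟩
    · intro _ _ _
      exact norm_nonneg _
  refine hsub.trans ?_
  have hstep := H343.KeyAux.step2' q (by omega) (fun χ => ‖psiCm h 1 χ‖) (fun χ => norm_nonneg _)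
    (fun f ψ => ‖psiCm h 1 ψ‖ + Wn h q) (by
      intro f hf ψ hψ
      obtain ⟨g, rfl⟩ := hf
      have e0 : (Icc 1 h).filter (fun n => n.Coprime 1) = Icc 1 h :=
        filter_true_of_mem fun n _ => Nat.coprime_one_right n
      have e1 := H343.KeyAux.sum_changeLevel f g (Dvd.intro g rfl) ψ (Icc 1 h) (fun n => (ArithmeticFunction.vonMangoldt n : ℂ))
      have e2 : psiCm h 1 (DirichletCharacter.changeLevel (Dvd.intro g rfl) ψ) =
          ∑ n ∈ (Icc 1 h).filter (fun n => n.Coprime g), ψ (n : ZMod f) * (ArithmeticFunction.vonMangoldt n : ℂ) := by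
        rw [← e1]
        unfold psiCm
        rw [e0]
        apply sum_congr rfl
        intro n _
        ring
      have e3 : psiCm h 1 ψ = ∑ n ∈ (Icc 1 h).filter (fun n => n.Coprime g), ψ (n : ZMod f) * (ArithmeticFunction.vonMangoldt n : ℂ) +
          ∑ n ∈ (Icc 1 h).filter (fun n => ¬ n.Coprime g), ψ (n : ZMod f) * (ArithmeticFunction.vonMangoldt n : ℂ) := by
        rw [sum_filter_add_sum_filter_not]
        unfold psiCm
        rw [e0]
        apply sum_congr rfl
        intro n _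
        ring
      have e4 : ‖∑ n ∈ (Icc 1 h).filter (fun n => ¬ n.Coprime g), ψ (n : ZMod f) * (ArithmeticFunction.vonMangoldt n : ℂ)‖ ≤
          Wn h (f * g) := by
        refine (norm_sum_le _ _).trans ?_
        unfold Wn
        calc ∑ n ∈ (Icc 1 h).filter (fun n => ¬ n.Coprime g), ‖ψ (n : ZMod f) * (ArithmeticFunction.vonMangoldt n : ℂ)‖
            ≤ ∑ n ∈ (Icc 1 h).filter (fun n => ¬ n.Coprime g), ArithmeticFunction.vonMangoldt n := by
              apply sum_le_sum
              intro n _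
              rw [norm_mul, Complex.norm_real, Real.norm_eq_abs, abs_of_nonneg ArithmeticFunction.vonMangoldt_nonneg]
              exact mul_le_of_le_one_left ArithmeticFunction.vonMangoldt_nonneg (ψ.norm_le_one _)
          _ ≤ _ := by
              apply sum_le_sum_of_subset_of_nonneg
              · intro n hn
                rw [mem_filter] at hn ⊢
                exact ⟨hn.1, fun hc => hn.2 (Nat.Coprime.coprime_mul_left_right hc)⟩
              · intro _ _ _
                exact ArithmeticFunction.vonMangoldt_nonneg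
      rw [e2, eq_sub_of_add_eq e3.symm]
      exact (norm_sub_le _ _).trans (by linarith))
  refine hstep.trans ?_
  have h1 : ∀ r ∈ q.divisors.filter (fun r => r ≠ 1),
      ∑ ψ ∈ (univ : Finset (DirichletCharacter ℂ r)).filter (fun χ => χ.IsPrimitive), (‖psiCm h 1 ψ‖ + Wn h q) ≤
        CS h r + Nat.totient r * Wn h q := by
    intro r hr
    rw [mem_filter] at hr
    have hr0 : 0 < r := Nat.pos_of_mem_divisors hr.1
    have : NeZero r := ⟨hr0.ne'⟩
    rw [sum_add_distrib, sum_const, nsmul_eq_mul]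
    apply add_le_add
    · unfold CS
      exact le_rfl
    · apply mul_le_mul_of_nonneg_right _ (Wn_nonneg h q)
      have h2 : ((univ : Finset (DirichletCharacter ℂ r)).filter (fun χ => χ.IsPrimitive)).card ≤ Nat.totient r := by
        refine le_trans (card_le_univ _) ?_
        rw [← Nat.card_eq_fintype_card, DirichletCharacter.card_eq_totient_of_hasEnoughRootsOfUnity]
      exact_mod_cast h2
  refine (sum_le_sum h1).trans ?_
  rw [sum_add_distrib, ← sum_mul]
  apply add_le_add le_rfl
  apply mul_le_mul_of_nonneg_right _ (Wn_nonneg h q)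
  calc ∑ r ∈ q.divisors.filter (fun r => r ≠ 1), (Nat.totient r : ℝ) ≤ ∑ r ∈ q.divisors, (Nat.totient r : ℝ) :=
        sum_le_sum_of_subset_of_nonneg (filter_subset _ _) fun _ _ _ => Nat.cast_nonneg _
    _ = q := by exact_mod_cast congrArg (fun n : ℕ => (n:ℝ)) (Nat.sum_totient q)

lemma devG {q b h : ℕ} (hq : 1 ≤ q) (hb : b.Coprime q) :
    |∑ n ∈ (Icc 1 h).filter (fun n => n ≡ b [MOD q]), ArithmeticFunction.vonMangoldt n - psi0 h / Nat.totient q| ≤
      (BSh h q + (q + 1) * Wn h q) / Nat.totient q := by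
  classical
  have : NeZero q := ⟨by omega⟩
  have hφ : (0:ℝ) < Nat.totient q := by exact_mod_cast Nat.totient_pos.mpr hq
  obtain ⟨P, hP⟩ : ∃ P : ℝ, P = ∑ n ∈ (Icc 1 h).filter (fun n => n.Coprime q), ArithmeticFunction.vonMangoldt n := ⟨_, rfl⟩
  obtain ⟨S, hS⟩ : ∃ S : ℝ, S = ∑ n ∈ (Icc 1 h).filter (fun n => n ≡ b [MOD q]), ArithmeticFunction.vonMangoldt n := ⟨_, rfl⟩
  have e1 : ((S - P / Nat.totient q : ℝ) : ℂ) = (1 / (Nat.totient q : ℂ)) *
      ∑ χ ∈ (univ : Finset (DirichletCharacter ℂ q)).filter (fun χ => χ ≠ 1), χ ((b : ZMod q)⁻¹) * psiCm h 1 χ := by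
    have e2 : S - P / Nat.totient q = ∑ n ∈ Icc 1 h, ArithmeticFunction.vonMangoldt n *
        ((if n ≡ b [MOD q] then (1 : ℝ) else 0) - (if n.Coprime q then (1 : ℝ) / (Nat.totient q : ℝ) else 0)) := by
      rw [hP, hS, sum_filter, sum_filter, sum_div, ← sum_sub_distrib]
      apply sum_congr rfl
      intro n _
      split_ifs <;> ring
    have e3 : ∀ n ∈ Icc 1 h, ((ArithmeticFunction.vonMangoldt n *
        ((if n ≡ b [MOD q] then (1 : ℝ) else 0) - (if n.Coprime q then (1 : ℝ) / (Nat.totient q : ℝ) else 0)) : ℝ) : ℂ) =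
        (1 / (Nat.totient q : ℂ)) * ∑ χ ∈ (univ : Finset (DirichletCharacter ℂ q)).filter (fun χ => χ ≠ 1),
          χ ((b : ZMod q)⁻¹) * ((ArithmeticFunction.vonMangoldt n : ℂ) * χ (n : ZMod q)) := by
      intro n _
      rw [Complex.ofReal_mul, Pool.Agent.Helper112.BLB.bracket q b hb n, mul_left_comm]
      congr 1
      rw [mul_sum]
      apply sum_congr rfl
      intro χ _
      ring
    rw [e2, Complex.ofReal_sum, sum_congr rfl e3, ← mul_sum, sum_comm]
    congr 1
    apply sum_congr rfl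
    intro χ _
    rw [← mul_sum]
    congr 1
    unfold psiCm
    have : (Icc 1 h).filter (fun n => n.Coprime 1) = Icc 1 h := by
      apply filter_true_of_mem
      intro n _
      exact Nat.coprime_one_right n
    rw [this]
  have e4 : |S - P / Nat.totient q| ≤ (BSh h q + q * Wn h q) / Nat.totient q := by
    rw [← Real.norm_eq_abs, ← Complex.norm_real, e1, norm_mul, norm_div, norm_one, Complex.norm_natCast, div_mul_eq_mul_div, one_mul]
    apply div_le_div_of_nonneg_right _ hφ.le
    refine (norm_sum_le _ _).trans ?_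
    calc ∑ χ ∈ (univ : Finset (DirichletCharacter ℂ q)).filter (fun χ => χ ≠ 1), ‖χ ((b : ZMod q)⁻¹) * psiCm h 1 χ‖
        ≤ ∑ χ ∈ (univ : Finset (DirichletCharacter ℂ q)).filter (fun χ => χ ≠ 1), ‖psiCm h 1 χ‖ := by
          apply sum_le_sum
          intro χ _
          rw [norm_mul]
          exact mul_le_of_le_one_left (norm_nonneg _) (χ.norm_le_one _)
      _ ≤ _ := nonpr hq _ (fun χ hχ => by
          rw [mem_filter] at hχ
          exact hχ.2)
  have e5 : psi0 h = P + Wn h q := by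
    rw [hP]
    unfold psi0 Wn
    exact (sum_filter_add_sum_filter_not _ _ _).symm
  have e7 := Wn_nonneg h q
  rw [← hS]
  have e8 : S - psi0 h / Nat.totient q = (S - P / Nat.totient q) - Wn h q / Nat.totient q := by
    rw [e5, add_div]
    ring
  have e9 : (BSh h q + (q + 1) * Wn h q) / (Nat.totient q : ℝ) =
      (BSh h q + q * Wn h q) / Nat.totient q + Wn h q / Nat.totient q := by
    rw [← add_div]
    congr 1
    ring
  rw [e8, e9]
  refine (abs_sub _ _).trans (add_le_add e4 ?_)
  rw [abs_of_nonneg (div_nonneg e7 hφ.le)]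

end Pool.Agent.D0H48.BM
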