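import Pool.Agent.D0H48.BM.Pr

/-!
The prime moduli for which the bound of the quality of the generalized Riemann hypothesis fails are rare.
-/

set_option autoImplicit false

open Filter Topology Finset H336V H343 H343.KF
open scoped ENNReal

namespace Pool.Agent.D0H48.BM

open Classical in
/-- the bad primes in `(2 ^ j, 2 ^ (j + 1)]` at the scale `2 ^ i` -/
noncomputable def T2 (K i j : ℕ) : Finset ℕ := (Ioc (2 ^ j) (2 * 2 ^ j)).filter (BadP K i j)

lemma T2_sum (K i j : ℕ) (hi : 1 ≤ i) (hji : j ≤ i) :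
    ∑ q ∈ T2 K i j, 1 / (q:ℝ) ≤ 60000 * (1 + L i) ^ 5 / L i ^ K := by
  classical
  obtain ⟨hgt, hhgt⟩ : ∃ hgt : ℕ → ℕ, hgt = fun q => if h : BadP K i j q then h.2.choose else 0 := ⟨_, rfl⟩
  have h1 : ∀ q, hgt q ≤ 2 ^ i := by
    intro q
    rw [hhgt]
    by_cases h : BadP K i j q
    · simp only [h, dite_true]
      exact h.2.choose_spec.1
    · simp only [h, dite_false]
      exact Nat.zero_le _
  have h2 : ∀ q ∈ T2 K i j, ZZ i j * L i ^ K / 2 ^ j ≤ CS (hgt q) q := by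
    intro q hq
    unfold T2 at hq
    rw [mem_filter] at hq
    have h := hq.2
    have e : hgt q = h.2.choose := by rw [hhgt]; simp only [h, dite_true]
    rw [e]
    exact h.2.choose_spec.2
  obtain ⟨z, hz⟩ : ∃ z : ℝ, z = ((2 ^ i : ℕ) : ℝ) ^ (1 / 6 : ℝ) := ⟨_, rfl⟩
  have hX1 : (1:ℝ) ≤ ((2 ^ i : ℕ) : ℝ) := by exact_mod_cast Nat.one_le_two_pow
  have hX0 : (0:ℝ) ≤ ((2 ^ i : ℕ) : ℝ) := by linarith
  have hz1 : 1 ≤ z := by rw [hz]; exact Real.one_le_rpow hX1 (by norm_num)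
  have hpow : ∀ n : ℕ, z ^ n = ((2 ^ i : ℕ) : ℝ) ^ ((n:ℝ) / 6) := by
    intro n
    rw [hz, ← Real.rpow_natCast, ← Real.rpow_mul hX0]
    congr 1
    ring
  have hz6 : z ^ 6 = ((2 ^ i : ℕ) : ℝ) := by
    rw [hpow 6, show ((6:ℕ):ℝ) / 6 = 1 by norm_num, Real.rpow_one]
  have hm := mean (D := 2 ^ j) (Y := 2 ^ i) Nat.one_le_two_pow (Nat.pow_le_pow_right (by norm_num) hji) z hz1 hz6
    (fun p => hgt p.1) (fun p => h1 p.1)
  have hZ : z ^ 6 + ((2 ^ j : ℕ) : ℝ) * z ^ 5 + ((2 ^ j : ℕ) : ℝ) ^ 2 * z ^ 3 = ZZ i j := by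
    unfold ZZ
    rw [hpow 5, hpow 3, hz6, show ((5:ℕ):ℝ) / 6 = 5 / 6 by norm_num, show ((3:ℕ):ℝ) / 6 = 1 / 2 by norm_num,
      Nat.cast_pow 2 j, Nat.cast_ofNat]
  rw [hZ] at hm
  have hL : Real.log ((2 ^ i : ℕ) : ℝ) = L i := rfl
  rw [hL] at hm
  have e1 : ∑ p ∈ PC (2 ^ j), ‖psiCm (hgt p.1) 1 p.2‖ = ∑ q ∈ Ioc (2 ^ j) (2 * 2 ^ j), CS (hgt q) q := by
    unfold PC CS
    rw [sum_sigma]
  rw [e1] at hm
  have hL0 : 0 < L i := by
    rw [L_eq]
    have : (0:ℝ) < i := by exact_mod_cast hi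
    have := Real.log_pos (by norm_num : (1:ℝ) < 2)
    positivity
  have hZ0 : 0 < ZZ i j := by
    unfold ZZ
    have : (0:ℝ) < ((2 ^ i : ℕ) : ℝ) := by linarith
    positivity
  have hsub : T2 K i j ⊆ Ioc (2 ^ j) (2 * 2 ^ j) := filter_subset _ _
  have e2 : (T2 K i j).card * (ZZ i j * L i ^ K / 2 ^ j) ≤ 60000 * (1 + L i) ^ 5 * ZZ i j := by
    calc ((T2 K i j).card : ℝ) * (ZZ i j * L i ^ K / 2 ^ j) = ∑ q ∈ T2 K i j, ZZ i j * L i ^ K / 2 ^ j := by
          rw [sum_const, nsmul_eq_mul]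
      _ ≤ ∑ q ∈ T2 K i j, CS (hgt q) q := sum_le_sum h2
      _ ≤ ∑ q ∈ Ioc (2 ^ j) (2 * 2 ^ j), CS (hgt q) q :=
          sum_le_sum_of_subset_of_nonneg hsub fun _ _ _ => CS_nonneg _ _
      _ ≤ _ := hm
  have e3 : ∑ q ∈ T2 K i j, 1 / (q:ℝ) ≤ (T2 K i j).card * (1 / 2 ^ j) := by
    calc ∑ q ∈ T2 K i j, 1 / (q:ℝ) ≤ ∑ q ∈ T2 K i j, (1 / 2 ^ j : ℝ) := by
          apply sum_le_sum
          intro q hq
          have h3 := hsub hq
          rw [mem_Ioc] at h3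
          have h4 : (2:ℝ) ^ j ≤ q := by exact_mod_cast h3.1.le
          exact one_div_le_one_div_of_le (by positivity) h4
      _ = _ := by rw [sum_const, nsmul_eq_mul]
  refine e3.trans ?_
  rw [le_div_iff₀ (by positivity)]
  refine le_of_mul_le_mul_right ?_ hZ0
  calc ((T2 K i j).card : ℝ) * (1 / 2 ^ j) * L i ^ K * ZZ i j = (T2 K i j).card * (ZZ i j * L i ^ K / 2 ^ j) := by ring
    _ ≤ _ := e2

open Classical in
/-- the bad primes at the scale `2 ^ i` -/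
noncomputable def T3 (K i : ℕ) : Finset ℕ := (range (i + 1)).biUnion (T2 K i)

lemma T3_sum (K i : ℕ) (hi : 1 ≤ i) : ∑ q ∈ T3 K i, 1 / (q:ℝ) ≤ (i + 1) * (60000 * (1 + L i) ^ 5 / L i ^ K) := by
  classical
  unfold T3
  rw [sum_biUnion]
  · calc ∑ j ∈ range (i + 1), ∑ q ∈ T2 K i j, 1 / (q:ℝ) ≤ ∑ j ∈ range (i + 1), 60000 * (1 + L i) ^ 5 / L i ^ K := by
          apply sum_le_sum
          intro j hj
          rw [mem_range] at hj
          exact T2_sum K i j hi (by omega)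
      _ = _ := by
          rw [sum_const, card_range, nsmul_eq_mul]
          push_cast
          rfl
  · intro a _ b _ hab
    rw [Function.onFun, Finset.disjoint_left]
    intro q hqa hqb
    unfold T2 at hqa hqb
    rw [mem_filter, mem_Ioc] at hqa hqb
    rcases lt_or_gt_of_ne hab with h | h
    · have h3 : 2 ^ (a + 1) ≤ 2 ^ b := Nat.pow_le_pow_right (by norm_num) h
      rw [pow_succ] at h3
      omega
    · have h3 : 2 ^ (b + 1) ≤ 2 ^ a := Nat.pow_le_pow_right (by norm_num) h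
      rw [pow_succ] at h3
      omega

/-- **The primes which are not sharp are rare.** -/
theorem bad_sum2 (M : ℕ) : ∃ K : ℕ, ∑' q : {q : ℕ | ¬ (q.Prime → Sharp K q)},
    ENNReal.ofReal (Real.log (q : ℕ) ^ M / (q : ℕ)) ≠ ∞ := by
  classical
  obtain ⟨f, hf⟩ : ∃ f : ℕ → ℝ, f = fun q : ℕ => Real.log (q : ℝ) ^ M / (q : ℝ) := ⟨_, rfl⟩
  have hf0 : ∀ q, 0 ≤ f q := fun q => by
    rw [hf]
    have := Real.log_natCast_nonneg q
    positivity
  obtain ⟨K0, hK0⟩ : ∃ K0, K0 = M + 8 := ⟨_, rfl⟩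
  refine ⟨2 * K0 + 5, ?_⟩
  -- the cover
  have hcov : {q : ℕ | ¬ (q.Prime → Sharp (2 * K0 + 5) q)} ⊆ (range 8 : Set ℕ) ∪ ⋃ i : ℕ, (T3 K0 (i + 2) : Set ℕ) := by
    intro q hq
    by_cases h : q < 8
    · left
      simpa using h
    · right
      have hq' : ¬ (q.Prime → Sharp (2 * K0 + 5) q) := hq
      push Not at hq'
      obtain ⟨i, j, hi, hj, h1, h2, h3⟩ := scale2 K0 2 q hq'.1 (by omega) (by omega) hq'.2
      rw [Set.mem_iUnion]
      refine ⟨i - 2, ?_⟩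
      have e1 : i - 2 + 2 = i := by omega
      rw [e1, mem_coe]
      unfold T3
      rw [mem_biUnion]
      refine ⟨j, by rw [mem_range]; omega, ?_⟩
      unfold T2
      rw [mem_filter, mem_Ioc]
      exact ⟨⟨h1, h2⟩, h3⟩
  -- the sums
  obtain ⟨g, hg⟩ : ∃ g : ℕ → ℝ, g = fun j => ∑ q ∈ T3 K0 (j + 2), f q := ⟨_, rfl⟩
  have hg0 : ∀ j, 0 ≤ g j := fun j => by
    rw [hg]
    exact sum_nonneg fun x _ => hf0 x
  have hgb : ∀ j, g j ≤ (2 ^ M * 30720000) * (1 / ((j:ℝ) + 1) ^ 2) := by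
    intro j
    rw [hg]
    simp only
    obtain ⟨i, hi⟩ : ∃ i, i = j + 2 := ⟨_, rfl⟩
    rw [← hi]
    have hl2 := Real.log_two_gt_d9
    have hi1 : (i:ℝ) = j + 2 := by rw [hi]; push_cast; rfl
    have hj0 : (0:ℝ) ≤ j := Nat.cast_nonneg j
    have hLe := L_eq i
    have hLi : (i:ℝ) * 0.6931 ≤ L i := by rw [hLe]; apply mul_le_mul_of_nonneg_left (by linarith) (by linarith)
    have hL1 : 1 ≤ L i := by linarith
    have hL0 : 0 < L i := by linarith
    have h1 : ∑ q ∈ T3 K0 i, f q ≤ ∑ q ∈ T3 K0 i, (2 * L i) ^ M * (1 / (q:ℝ)) := by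
      apply sum_le_sum
      intro q hq
      unfold T3 at hq
      rw [mem_biUnion] at hq
      obtain ⟨j', hj', hq⟩ := hq
      rw [mem_range] at hj'
      unfold T2 at hq
      rw [mem_filter, mem_Ioc] at hq
      have hq0 : (0:ℝ) < q := by exact_mod_cast (by omega : 0 < q)
      have hqX : q ≤ 2 ^ (i + 1) := by
        calc q ≤ 2 * 2 ^ j' := hq.1.2
          _ ≤ 2 * 2 ^ i := Nat.mul_le_mul_left _ (Nat.pow_le_pow_right (by norm_num) (by omega))
          _ = 2 ^ (i + 1) := by rw [pow_succ, mul_comm]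
      have hlq : Real.log q ≤ 2 * L i := by
        have h2 : Real.log q ≤ Real.log ((2 ^ (i + 1) : ℕ) : ℝ) := Real.log_le_log hq0 (by exact_mod_cast hqX)
        rw [Nat.cast_pow, Real.log_pow] at h2
        push_cast at h2
        rw [hLe]
        nlinarith
      rw [hf]
      show Real.log (q:ℝ) ^ M / (q:ℝ) ≤ (2 * L i) ^ M * (1 / (q:ℝ))
      rw [div_eq_mul_one_div (Real.log (q:ℝ) ^ M)]
      apply mul_le_mul_of_nonneg_right _ (by positivity)
      exact pow_le_pow_left₀ (Real.log_natCast_nonneg q) hlq M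
    refine h1.trans ?_
    rw [← mul_sum]
    have h2 := T3_sum K0 i (by omega)
    have h3 : (((j:ℝ) + 1) / 2) ^ 2 ≤ L i ^ 2 := pow_le_pow_left₀ (by linarith) (by linarith) 2
    have h4 : ((i:ℝ) + 1) * (60000 * (1 + L i) ^ 5 / L i ^ K0) ≤ (4 * L i) * (60000 * (2 * L i) ^ 5 / L i ^ K0) := by
      gcongr
      · linarith
      · linarith
    calc (2 * L i) ^ M * ∑ q ∈ T3 K0 i, 1 / (q:ℝ) ≤ (2 * L i) ^ M * ((4 * L i) * (60000 * (2 * L i) ^ 5 / L i ^ K0)) :=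
          mul_le_mul_of_nonneg_left (h2.trans h4) (by positivity)
      _ = 2 ^ M * 7680000 * (1 / L i ^ 2) := by
          rw [hK0]
          have e2 : L i ^ (M + 8) = L i ^ M * L i ^ 6 * L i ^ 2 := by rw [← pow_add, ← pow_add]
          rw [e2, mul_pow]
          have : L i ^ M ≠ 0 := by positivity
          field_simp
          ring
      _ ≤ 2 ^ M * 7680000 * (1 / ((((j:ℝ) + 1) / 2) ^ 2)) := by
          apply mul_le_mul_of_nonneg_left _ (by positivity)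
          exact one_div_le_one_div_of_le (by positivity) h3
      _ = (2 ^ M * 30720000) * (1 / ((j:ℝ) + 1) ^ 2) := by
          field_simp
          ring
  have hgs : Summable g := by
    have h1 : Summable fun j : ℕ => (2 ^ M * 30720000 : ℝ) * (1 / ((j:ℝ) + 1) ^ 2) := by
      apply Summable.mul_left
      have := (summable_nat_add_iff 1).mpr (Real.summable_one_div_nat_pow.mpr one_lt_two)
      refine this.congr fun j => ?_
      push_cast
      rfl
    exact Summable.of_nonneg_of_le hg0 hgb h1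
  have h2 := ENNReal.tsum_iUnion_le_tsum (fun q : ℕ => ENNReal.ofReal (f q)) (fun j : ℕ => (T3 K0 (j + 2) : Set ℕ))
  have h3 : ∀ j : ℕ, ∑' x : (T3 K0 (j + 2) : Set ℕ), ENNReal.ofReal (f x) = ENNReal.ofReal (g j) := by
    intro j
    rw [Finset.tsum_subtype' (T3 K0 (j + 2)) (fun q : ℕ => ENNReal.ofReal (f q)), hg,
      ENNReal.ofReal_sum_of_nonneg fun x _ => hf0 x]
  have h4 : ∑' j : ℕ, ∑' x : (T3 K0 (j + 2) : Set ℕ), ENNReal.ofReal (f x) ≠ ∞ := by
    simp only [h3]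
    exact hgs.tsum_ofReal_ne_top
  have h5 := ne_top_of_le_ne_top h4 h2
  have h6 : ∑' x : (range 8 : Set ℕ), ENNReal.ofReal (f x) ≠ ∞ := by
    rw [Finset.tsum_subtype' (range 8) (fun q : ℕ => ENNReal.ofReal (f q))]
    exact ENNReal.sum_ne_top.mpr fun _ _ => ENNReal.ofReal_ne_top
  have h7 := ENNReal.tsum_union_le (fun q : ℕ => ENNReal.ofReal (f q)) (range 8 : Set ℕ) (⋃ j : ℕ, (T3 K0 (j + 2) : Set ℕ))
  have h8 := ne_top_of_le_ne_top (ENNReal.add_ne_top.mpr ⟨h6, h5⟩) h7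
  have h9 := ENNReal.tsum_mono_subtype (fun q : ℕ => ENNReal.ofReal (f q)) hcov
  have h10 := ne_top_of_le_ne_top h8 h9
  rw [hf] at h10
  exact h10

end Pool.Agent.D0H48.BM
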