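import Pool.Agent.D0H48.BM.Elem
import Pool.Agent.D0H48.BM.Ps

/-!
General moduli: the bad moduli are rare.
-/

set_option autoImplicit false

open Filter Topology Finset H336V H343 H343.KF
open scoped ENNReal

namespace Pool.Agent.D0H48.BM

lemma exists_hm (Y : ℕ) : ∃ hm : (Σ q : ℕ, DirichletCharacter ℂ q) → ℕ, ∀ p, hm p ≤ Y ∧
    ∀ h, h ≤ Y → ‖psiCm h 1 p.2‖ ≤ ‖psiCm (hm p) 1 p.2‖ := by
  have key : ∀ p : (Σ q : ℕ, DirichletCharacter ℂ q), ∃ h0, h0 ≤ Y ∧ ∀ h, h ≤ Y → ‖psiCm h 1 p.2‖ ≤ ‖psiCm h0 1 p.2‖ := by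
    intro p
    obtain ⟨h0, hm, hmax⟩ := exists_max_image (range (Y + 1)) (fun h => ‖psiCm h 1 p.2‖) ⟨0, by simp⟩
    refine ⟨h0, by rw [mem_range] at hm; omega, fun h hh => hmax h (by rw [mem_range]; omega)⟩
  choose hm h1 using key
  exact ⟨hm, h1⟩

/-- the height of the maximum -/
noncomputable def hmx (Y : ℕ) : (Σ q : ℕ, DirichletCharacter ℂ q) → ℕ := (exists_hm Y).choose

lemma hmx_spec (Y : ℕ) (p : Σ q : ℕ, DirichletCharacter ℂ q) : hmx Y p ≤ Y ∧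
    ∀ h, h ≤ Y → ‖psiCm h 1 p.2‖ ≤ ‖psiCm (hmx Y p) 1 p.2‖ := (exists_hm Y).choose_spec p

open Classical in
/-- the sum of the maxima of `|ψ(h, χ)|`, `h ≤ Y`, over the primitive characters modulo `r` -/
noncomputable def CM (Y r : ℕ) : ℝ :=
  ∑ χ ∈ (univ : Finset (DirichletCharacter ℂ r)).filter (fun χ => χ.IsPrimitive), ‖psiCm (hmx Y ⟨r, χ⟩) 1 χ‖

lemma CM_nonneg (Y r : ℕ) : 0 ≤ CM Y r := by
  classical
  unfold CM
  exact sum_nonneg fun _ _ => norm_nonneg _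

lemma CS_le_CM {h Y : ℕ} (hh : h ≤ Y) (r : ℕ) : CS h r ≤ CM Y r := by
  classical
  unfold CS CM
  exact sum_le_sum fun χ _ => (hmx_spec Y ⟨r, χ⟩).2 h hh

lemma CM_mean {D Y : ℕ} (hD : 1 ≤ D) (hDY : D ≤ Y) (z : ℝ) (hz : 1 ≤ z) (hzY : z ^ 6 = Y) :
    ∑ r ∈ Ioc D (2 * D), CM Y r ≤ 60000 * (1 + Real.log Y) ^ 5 * (z ^ 6 + D * z ^ 5 + (D:ℝ) ^ 2 * z ^ 3) := by
  classical
  have h1 := mean hD hDY z hz hzY (hmx Y) (fun p => (hmx_spec Y p).1)
  unfold PC at h1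
  rw [sum_sigma] at h1
  exact h1

/-- the sum over the divisors -/
noncomputable def BS (Y q : ℕ) : ℝ := ∑ r ∈ q.divisors.filter (fun r => r ≠ 1), CM Y r

lemma dyadic_Ioc (f : ℕ → ℝ) (a b : ℕ) (hab : a ≤ b) :
    ∑ r ∈ Ioc (2 ^ a) (2 ^ b), f r = ∑ m ∈ Ico a b, ∑ r ∈ Ioc (2 ^ m) (2 * 2 ^ m), f r := by
  induction b, hab using Nat.le_induction with
  | base => simp
  | succ b hb ih =>
    rw [Finset.sum_Ico_succ_top hb, ← ih, ← Finset.sum_Ioc_consecutive f (Nat.pow_le_pow_right (by norm_num) hb)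
      (Nat.pow_le_pow_right (by norm_num) (Nat.le_succ b)), pow_succ, mul_comm (2 ^ b) 2]

/-- the number of the multiples -/
lemma count_mult (N r a : ℕ) : (((Ioc a N).filter (fun q => r ∣ q)).card : ℝ) ≤ N / r := by
  have h1 : ((Ioc a N).filter (fun q => r ∣ q)).card ≤ ((Ioc 0 N).filter (fun q => r ∣ q)).card := by
    apply card_le_card
    intro q hq
    rw [mem_filter, mem_Ioc] at hq ⊢
    exact ⟨⟨by omega, hq.1.2⟩, hq.2⟩
  rw [Nat.Ioc_filter_dvd_card_eq_div] at h1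
  calc (((Ioc a N).filter (fun q => r ∣ q)).card : ℝ) ≤ ((N / r : ℕ) : ℝ) := by exact_mod_cast h1
    _ ≤ N / r := Nat.cast_div_le

lemma BS_sum (i j k : ℕ) (hk : 1 ≤ k) (hkj : k ≤ j + 1) :
    ∑ q ∈ (Ioc (2 ^ j) (2 * 2 ^ j)).filter (fun q => 2 ^ k ≤ q.minFac), BS (2 ^ i) q ≤
      2 * 2 ^ j * ∑ m ∈ Ico (k - 1) (j + 1), (1 / 2 ^ m : ℝ) * ∑ r ∈ Ioc (2 ^ m) (2 * 2 ^ m), CM (2 ^ i) r := by
  classical
  obtain ⟨Q, hQ⟩ : ∃ Q, Q = Ioc (2 ^ j) (2 * 2 ^ j) := ⟨_, rfl⟩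
  obtain ⟨R, hR⟩ : ∃ R, R = Ioc (2 ^ (k - 1)) (2 ^ (j + 1)) := ⟨_, rfl⟩
  have e1 : ∀ q ∈ Q.filter (fun q => 2 ^ k ≤ q.minFac), BS (2 ^ i) q ≤ ∑ r ∈ R, (if r ∣ q then CM (2 ^ i) r else 0) := by
    intro q hq
    rw [mem_filter, hQ, mem_Ioc] at hq
    unfold BS
    rw [← sum_filter]
    apply sum_le_sum_of_subset_of_nonneg
    · intro r hr
      rw [mem_filter, Nat.mem_divisors] at hr
      rw [mem_filter, hR, mem_Ioc]
      refine ⟨⟨?_, ?_⟩, hr.1.1⟩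
      · have h1 : 2 ≤ r := by
          rcases Nat.eq_zero_or_pos r with h | h
          · subst h
            exact absurd (zero_dvd_iff.mp hr.1.1) hr.1.2
          · have := hr.2
            omega
        have h2 := Nat.minFac_le_of_dvd h1 hr.1.1
        have h3 : 2 ^ (k - 1) < 2 ^ k := Nat.pow_lt_pow_right (by norm_num) (by omega)
        omega
      · have h2 := Nat.le_of_dvd (by omega) hr.1.1
        rw [pow_succ]
        omega
    · intro _ _ _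
      exact CM_nonneg _ _
  rw [← hQ]
  have hpw : ((2 * 2 ^ j : ℕ) : ℝ) = 2 * 2 ^ j := by push_cast; rfl
  calc ∑ q ∈ Q.filter (fun q => 2 ^ k ≤ q.minFac), BS (2 ^ i) q
      ≤ ∑ q ∈ Q.filter (fun q => 2 ^ k ≤ q.minFac), ∑ r ∈ R, (if r ∣ q then CM (2 ^ i) r else 0) := sum_le_sum e1
    _ ≤ ∑ q ∈ Q, ∑ r ∈ R, (if r ∣ q then CM (2 ^ i) r else 0) :=
        sum_le_sum_of_subset_of_nonneg (filter_subset _ _) fun q _ _ => sum_nonneg fun r _ => by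
          split_ifs
          · exact CM_nonneg _ _
          · exact le_rfl
    _ = ∑ r ∈ R, ((Q.filter (fun q => r ∣ q)).card : ℝ) * CM (2 ^ i) r := by
        rw [sum_comm]
        apply sum_congr rfl
        intro r _
        rw [← sum_filter, sum_const, nsmul_eq_mul]
    _ ≤ ∑ r ∈ R, (2 * 2 ^ j) * (CM (2 ^ i) r / r) := by
        apply sum_le_sum
        intro r hr
        rw [hR, mem_Ioc] at hr
        have h1 := count_mult (2 * 2 ^ j) r (2 ^ j)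
        rw [← hQ, hpw] at h1
        calc ((Q.filter (fun q => r ∣ q)).card : ℝ) * CM (2 ^ i) r ≤ (2 * 2 ^ j / r) * CM (2 ^ i) r :=
              mul_le_mul_of_nonneg_right h1 (CM_nonneg _ _)
          _ = _ := by ring
    _ = 2 * 2 ^ j * ∑ m ∈ Ico (k - 1) (j + 1), ∑ r ∈ Ioc (2 ^ m) (2 * 2 ^ m), CM (2 ^ i) r / r := by
        rw [← mul_sum, hR, dyadic_Ioc _ (k - 1) (j + 1) (by omega)]
    _ ≤ _ := by
        apply mul_le_mul_of_nonneg_left _ (by positivity)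
        apply sum_le_sum
        intro m _
        rw [mul_sum]
        apply sum_le_sum
        intro r hr
        rw [mem_Ioc] at hr
        have h1 : (2:ℝ) ^ m ≤ r := by exact_mod_cast hr.1.le
        rw [div_eq_mul_one_div, mul_comm]
        apply mul_le_mul_of_nonneg_right _ (CM_nonneg _ _)
        exact one_div_le_one_div_of_le (by positivity) h1

/-- `X / 2 ^ k + X ^ (5 / 6) + 2 ^ j X ^ (1 / 2)`, `X = 2 ^ i` -/
noncomputable def WW (i j k : ℕ) : ℝ :=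
  ((2 ^ i : ℕ) : ℝ) / 2 ^ k + ((2 ^ i : ℕ) : ℝ) ^ (5 / 6 : ℝ) + 2 ^ j * ((2 ^ i : ℕ) : ℝ) ^ (1 / 2 : ℝ)

lemma WW_pos (i j k : ℕ) : 0 < WW i j k := by
  unfold WW
  have : (0:ℝ) < ((2 ^ i : ℕ) : ℝ) := by positivity
  positivity

lemma BS_bound (i j k : ℕ) (hji : j ≤ i) (hk : 1 ≤ k) (hkj : k ≤ j + 1) :
    ∑ q ∈ (Ioc (2 ^ j) (2 * 2 ^ j)).filter (fun q => 2 ^ k ≤ q.minFac), BS (2 ^ i) q ≤
      240000 * ((i : ℝ) + 1) * (1 + L i) ^ 5 * 2 ^ j * WW i j k := by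
  obtain ⟨z, hz⟩ : ∃ z : ℝ, z = ((2 ^ i : ℕ) : ℝ) ^ (1 / 6 : ℝ) := ⟨_, rfl⟩
  have hX1 : (1:ℝ) ≤ ((2 ^ i : ℕ) : ℝ) := by exact_mod_cast Nat.one_le_two_pow
  have hX0 : (0:ℝ) ≤ ((2 ^ i : ℕ) : ℝ) := by linarith
  have hz1 : 1 ≤ z := by rw [hz]; exact Real.one_le_rpow hX1 (by norm_num)
  have hz0 : 0 < z := by linarith
  have hpow : ∀ n : ℕ, z ^ n = ((2 ^ i : ℕ) : ℝ) ^ ((n:ℝ) / 6) := by
    intro n
    rw [hz, ← Real.rpow_natCast, ← Real.rpow_mul hX0]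
    congr 1
    ring
  have hz6 : z ^ 6 = ((2 ^ i : ℕ) : ℝ) := by
    rw [hpow 6, show ((6:ℕ):ℝ) / 6 = 1 by norm_num, Real.rpow_one]
  have hW : WW i j k = z ^ 6 / 2 ^ k + z ^ 5 + 2 ^ j * z ^ 3 := by
    unfold WW
    rw [hpow 5, hpow 3, hz6, show ((5:ℕ):ℝ) / 6 = 5 / 6 by norm_num, show ((3:ℕ):ℝ) / 6 = 1 / 2 by norm_num]
  have hL0 : 0 ≤ L i := Real.log_natCast_nonneg _
  refine (BS_sum i j k hk hkj).trans ?_
  have e1 : ∀ m ∈ Ico (k - 1) (j + 1), (1 / 2 ^ m : ℝ) * ∑ r ∈ Ioc (2 ^ m) (2 * 2 ^ m), CM (2 ^ i) r ≤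
      120000 * (1 + L i) ^ 5 * WW i j k := by
    intro m hm
    rw [mem_Ico] at hm
    have h1 := CM_mean (D := 2 ^ m) (Y := 2 ^ i) Nat.one_le_two_pow (Nat.pow_le_pow_right (by norm_num) (by omega)) z hz1 hz6
    have hL : Real.log ((2 ^ i : ℕ) : ℝ) = L i := rfl
    rw [hL] at h1
    have hp : ((2 ^ m : ℕ) : ℝ) = 2 ^ m := by push_cast; rfl
    rw [hp] at h1
    have h2 : (2:ℝ) ^ m ≤ 2 ^ j := pow_le_pow_right₀ (by norm_num) (by omega)
    have h3 : (2:ℝ) ^ k ≤ 2 * 2 ^ m := by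
      rw [← pow_succ']
      exact pow_le_pow_right₀ (by norm_num) (by omega)
    have h4 : z ^ 6 / 2 ^ m ≤ 2 * (z ^ 6 / 2 ^ k) := by
      rw [← mul_div_assoc, div_le_div_iff₀ (by positivity) (by positivity)]
      calc z ^ 6 * 2 ^ k ≤ z ^ 6 * (2 * 2 ^ m) := mul_le_mul_of_nonneg_left h3 (by positivity)
        _ = _ := by ring
    have h5 : 0 ≤ z ^ 6 / 2 ^ k := by positivity
    have h6 : (2:ℝ) ^ m * z ^ 3 ≤ 2 ^ j * z ^ 3 := mul_le_mul_of_nonneg_right h2 (by positivity)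
    have h7 : 0 ≤ z ^ 5 := by positivity
    have h8 : 0 ≤ 2 ^ j * z ^ 3 := by positivity
    calc (1 / 2 ^ m : ℝ) * ∑ r ∈ Ioc (2 ^ m) (2 * 2 ^ m), CM (2 ^ i) r
        ≤ (1 / 2 ^ m : ℝ) * (60000 * (1 + L i) ^ 5 * (z ^ 6 + 2 ^ m * z ^ 5 + (2 ^ m) ^ 2 * z ^ 3)) :=
          mul_le_mul_of_nonneg_left h1 (by positivity)
      _ = 60000 * (1 + L i) ^ 5 * (z ^ 6 / 2 ^ m + z ^ 5 + 2 ^ m * z ^ 3) := by field_simp
      _ ≤ 60000 * (1 + L i) ^ 5 * (2 * WW i j k) := by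
          apply mul_le_mul_of_nonneg_left _ (by positivity)
          rw [hW]
          linarith
      _ = _ := by ring
  have e2 : ∑ m ∈ Ico (k - 1) (j + 1), (1 / 2 ^ m : ℝ) * ∑ r ∈ Ioc (2 ^ m) (2 * 2 ^ m), CM (2 ^ i) r ≤
      ((i : ℝ) + 1) * (120000 * (1 + L i) ^ 5 * WW i j k) := by
    refine (sum_le_sum e1).trans ?_
    rw [sum_const, nsmul_eq_mul, Nat.card_Ico]
    apply mul_le_mul_of_nonneg_right
    · have : j + 1 - (k - 1) ≤ i + 1 := by omega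
      exact_mod_cast this
    · have := WW_pos i j k
      positivity
  calc 2 * 2 ^ j * ∑ m ∈ Ico (k - 1) (j + 1), (1 / 2 ^ m : ℝ) * ∑ r ∈ Ioc (2 ^ m) (2 * 2 ^ m), CM (2 ^ i) r
      ≤ 2 * 2 ^ j * (((i : ℝ) + 1) * (120000 * (1 + L i) ^ 5 * WW i j k)) := mul_le_mul_of_nonneg_left e2 (by positivity)
    _ = _ := by ring

/-- the bad moduli -/
def BadG (K i j k q : ℕ) : Prop := 2 ^ k ≤ q.minFac ∧ WW i j k * L i ^ K ≤ BS (2 ^ i) q

open Classical in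
/-- the bad moduli in `(2 ^ j, 2 ^ (j + 1)]` at the scale `2 ^ i` -/
noncomputable def T5 (K i j k : ℕ) : Finset ℕ := (Ioc (2 ^ j) (2 * 2 ^ j)).filter (BadG K i j k)

lemma BS_nonneg (Y q : ℕ) : 0 ≤ BS Y q := sum_nonneg fun _ _ => CM_nonneg _ _

lemma T5_sum (K i j k : ℕ) (hi : 1 ≤ i) (hji : j ≤ i) (hk : 1 ≤ k) (hkj : k ≤ j + 1) :
    ∑ q ∈ T5 K i j k, 1 / (q:ℝ) ≤ 240000 * ((i : ℝ) + 1) * (1 + L i) ^ 5 / L i ^ K := by
  classical
  have hL0 : 0 < L i := by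
    rw [L_eq]
    have : (0:ℝ) < i := by exact_mod_cast hi
    have := Real.log_pos (by norm_num : (1:ℝ) < 2)
    positivity
  have hW0 := WW_pos i j k
  have hsub : T5 K i j k ⊆ Ioc (2 ^ j) (2 * 2 ^ j) := filter_subset _ _
  have hsub2 : T5 K i j k ⊆ (Ioc (2 ^ j) (2 * 2 ^ j)).filter (fun q => 2 ^ k ≤ q.minFac) := by
    intro q hq
    unfold T5 at hq
    rw [mem_filter] at hq ⊢
    have h : 2 ^ k ≤ q.minFac ∧ WW i j k * L i ^ K ≤ BS (2 ^ i) q := hq.2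
    exact ⟨hq.1, h.1⟩
  have e2 : (T5 K i j k).card * (WW i j k * L i ^ K) ≤ 240000 * ((i : ℝ) + 1) * (1 + L i) ^ 5 * 2 ^ j * WW i j k := by
    calc ((T5 K i j k).card : ℝ) * (WW i j k * L i ^ K) = ∑ q ∈ T5 K i j k, WW i j k * L i ^ K := by
          rw [sum_const, nsmul_eq_mul]
      _ ≤ ∑ q ∈ T5 K i j k, BS (2 ^ i) q := by
          apply sum_le_sum
          intro q hq
          unfold T5 at hq
          rw [mem_filter] at hq
          have h : 2 ^ k ≤ q.minFac ∧ WW i j k * L i ^ K ≤ BS (2 ^ i) q := hq.2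
          exact h.2
      _ ≤ ∑ q ∈ (Ioc (2 ^ j) (2 * 2 ^ j)).filter (fun q => 2 ^ k ≤ q.minFac), BS (2 ^ i) q :=
          sum_le_sum_of_subset_of_nonneg hsub2 fun _ _ _ => BS_nonneg _ _
      _ ≤ _ := BS_bound i j k hji hk hkj
  have e3 : ∑ q ∈ T5 K i j k, 1 / (q:ℝ) ≤ (T5 K i j k).card * (1 / 2 ^ j) := by
    calc ∑ q ∈ T5 K i j k, 1 / (q:ℝ) ≤ ∑ q ∈ T5 K i j k, (1 / 2 ^ j : ℝ) := by
          apply sum_le_sum
          intro q hq
          have h3 := hsub hq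
          rw [mem_Ioc] at h3
          have h4 : (2:ℝ) ^ j ≤ q := by exact_mod_cast h3.1.le
          exact one_div_le_one_div_of_le (by positivity) h4
      _ = _ := by rw [sum_const, nsmul_eq_mul]
  refine e3.trans ?_
  rw [le_div_iff₀ (by positivity)]
  have h2j : (0:ℝ) < 2 ^ j := by positivity
  refine le_of_mul_le_mul_right ?_ (mul_pos hW0 h2j)
  calc ((T5 K i j k).card : ℝ) * (1 / 2 ^ j) * L i ^ K * (WW i j k * 2 ^ j) = (T5 K i j k).card * (WW i j k * L i ^ K) := by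
        field_simp
    _ ≤ _ := e2
    _ = _ := by ring

/-- sums over unions -/
lemma sum_biUnion_le' {ι : Type*} [DecidableEq ι] (s : Finset ι) (t : ι → Finset ℕ) (f : ℕ → ℝ) (hf : ∀ x, 0 ≤ f x) :
    ∑ x ∈ s.biUnion t, f x ≤ ∑ i ∈ s, ∑ x ∈ t i, f x := by
  classical
  induction s using Finset.induction_on with
  | empty => simp
  | insert a s ha ih =>
    rw [biUnion_insert, sum_insert ha]
    have h1 : ∑ x ∈ t a ∪ s.biUnion t, f x ≤ ∑ x ∈ t a, f x + ∑ x ∈ s.biUnion t, f x := by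
      rw [← sum_union_inter]
      exact le_add_of_nonneg_right (sum_nonneg fun x _ => hf x)
    linarith

open Classical in
/-- the bad moduli at the scale `2 ^ i` -/
noncomputable def T6 (K i : ℕ) : Finset ℕ :=
  (range (i + 1)).biUnion fun j => (Icc 1 (j + 1)).biUnion fun k => T5 K i j k

lemma T6_sum (K i : ℕ) (hi : 1 ≤ i) : ∑ q ∈ T6 K i, 1 / (q:ℝ) ≤
    ((i : ℝ) + 1) * (((i : ℝ) + 1) * (240000 * ((i : ℝ) + 1) * (1 + L i) ^ 5 / L i ^ K)) := by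
  classical
  have hL0 : 0 < L i := by
    rw [L_eq]
    have : (0:ℝ) < i := by exact_mod_cast hi
    have := Real.log_pos (by norm_num : (1:ℝ) < 2)
    positivity
  unfold T6
  refine (sum_biUnion_le' _ _ _ fun x => by positivity).trans ?_
  calc ∑ j ∈ range (i + 1), ∑ q ∈ (Icc 1 (j + 1)).biUnion (fun k => T5 K i j k), 1 / (q:ℝ)
      ≤ ∑ j ∈ range (i + 1), ((i : ℝ) + 1) * (240000 * ((i : ℝ) + 1) * (1 + L i) ^ 5 / L i ^ K) := by
        apply sum_le_sum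
        intro j hj
        rw [mem_range] at hj
        refine (sum_biUnion_le' _ _ _ fun x => by positivity).trans ?_
        calc ∑ k ∈ Icc 1 (j + 1), ∑ q ∈ T5 K i j k, 1 / (q:ℝ)
            ≤ ∑ k ∈ Icc 1 (j + 1), 240000 * ((i : ℝ) + 1) * (1 + L i) ^ 5 / L i ^ K := by
              apply sum_le_sum
              intro k hk
              rw [mem_Icc] at hk
              exact T5_sum K i j k hi (by omega) hk.1 hk.2
          _ = ((j:ℝ) + 1) * (240000 * ((i : ℝ) + 1) * (1 + L i) ^ 5 / L i ^ K) := by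
              rw [sum_const, nsmul_eq_mul, Nat.card_Icc]
              push_cast
              congr 1
          _ ≤ _ := by
              apply mul_le_mul_of_nonneg_right _ (by positivity)
              have : (j:ℝ) ≤ i := by exact_mod_cast (by omega : j ≤ i)
              linarith
    _ = _ := by
        rw [sum_const, card_range, nsmul_eq_mul]
        push_cast
        rfl

end Pool.Agent.D0H48.BM
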