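import Pool.Agent.D0H48.BM.Ge

/-!
General moduli: the moduli for which the strong bound fails are rare.
-/

set_option autoImplicit false

open Filter Topology Finset H336V H343 H343.KF
open scoped ENNReal

namespace Pool.Agent.D0H48.BM

/-- the strong bound, with the least prime factor of the modulus -/
def SharpG (K q : ℕ) : Prop :=
  ∀ x : ℝ, (q : ℝ) ≤ x → ∀ y : ℝ, 0 ≤ y → y ≤ x → ∀ b : ℕ, b.Coprime q →
    |psi y q b - psi0 ⌊y⌋₊ / Nat.totient q| ≤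
      (x ^ (1 / 2 : ℝ) + x ^ (5 / 6 : ℝ) / q + x / (q * q.minFac)) * Real.log x ^ K

lemma scale3 (K i0 q : ℕ) (hq8 : 8 ≤ q) (hqi : 2 ^ i0 ≤ q) (hbad : ¬ SharpG (2 * K + 10) q) :
    ∃ i j k, i0 ≤ i ∧ j ≤ i ∧ 1 ≤ k ∧ k ≤ j + 1 ∧ 2 ^ j < q ∧ q ≤ 2 * 2 ^ j ∧ BadG K i j k q := by
  unfold SharpG at hbad
  push Not at hbad
  obtain ⟨x, hqx, y, hy0, hyx, b, hb, hdev⟩ := hbad
  have hq8r : (8:ℝ) ≤ q := by exact_mod_cast hq8
  have hx8 : 8 ≤ x := hq8r.trans hqx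
  obtain ⟨n, hn1, hn2⟩ := exists_nat_pow_near (by linarith : (1:ℝ) ≤ x) (by norm_num : (1:ℝ) < 2)
  obtain ⟨i, hi⟩ : ∃ i, i = n + 1 := ⟨_, rfl⟩
  obtain ⟨X, hX⟩ : ∃ X : ℝ, X = ((2 ^ i : ℕ) : ℝ) := ⟨_, rfl⟩
  have hXe : X = 2 ^ (n + 1) := by rw [hX, hi]; push_cast; rfl
  have hXe2 : X = 2 ^ i := by rw [hX]; push_cast; rfl
  have hxX : x < X := by rw [hXe]; exact hn2
  have hX2x : X ≤ 2 * x := by rw [hXe, pow_succ]; linarith
  have hLe : L i = Real.log X := by rw [hX]; rfl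
  have hlx2 : 2 ≤ Real.log x := log8.trans (Real.log_le_log (by norm_num) hx8)
  have hX0 : 0 < X := by linarith
  have hL1 : Real.log x ≤ L i := by rw [hLe]; exact Real.log_le_log (by linarith) hxX.le
  have hL2 : L i ≤ 2 * Real.log x := by
    rw [hLe]
    have h1 : Real.log X ≤ Real.log (2 * x) := Real.log_le_log hX0 hX2x
    rw [Real.log_mul (by norm_num) (by linarith)] at h1
    have h2 := Real.log_two_lt_d9
    linarith
  obtain ⟨j, hj⟩ : ∃ j, j = Nat.log 2 (q - 1) := ⟨_, rfl⟩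
  have hj1 : 2 ^ j < q := by
    have := Nat.pow_log_le_self 2 (show q - 1 ≠ 0 by omega)
    rw [← hj] at this
    omega
  have hj2 : q ≤ 2 * 2 ^ j := by
    have := Nat.lt_pow_succ_log_self (by norm_num : 1 < 2) (q - 1)
    rw [← hj, pow_succ] at this
    omega
  have hP2 : 2 ≤ q.minFac := (Nat.minFac_prime (by omega)).two_le
  have hPq : q.minFac ≤ q := Nat.minFac_le (by omega)
  obtain ⟨P, hP⟩ : ∃ P, P = q.minFac := ⟨_, rfl⟩
  obtain ⟨k, hk⟩ : ∃ k, k = Nat.log 2 q.minFac := ⟨_, rfl⟩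
  have hk1 : 2 ^ k ≤ q.minFac := by rw [hk]; exact Nat.pow_log_le_self 2 (by omega)
  have hk2 : q.minFac < 2 ^ (k + 1) := by rw [hk]; exact Nat.lt_pow_succ_log_self (by norm_num) _
  have hk0 : 1 ≤ k := by
    rcases Nat.eq_zero_or_pos k with h | h
    · rw [h] at hk2
      omega
    · exact h
  have hkj : k ≤ j + 1 := by
    have h1 : 2 ^ k ≤ 2 ^ (j + 1) := by
      rw [pow_succ]
      omega
    exact (Nat.pow_le_pow_iff_right (by norm_num)).mp h1
  obtain ⟨D, hD⟩ : ∃ D : ℝ, D = 2 ^ j := ⟨_, rfl⟩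
  have hD1 : 1 ≤ D := by rw [hD]; exact one_le_pow₀ (by norm_num)
  have hDq : D < q := by rw [hD]; exact_mod_cast hj1
  have hqD : (q:ℝ) ≤ 2 * D := by rw [hD]; exact_mod_cast hj2
  have hh2 : ⌊y⌋₊ ≤ 2 ^ i := by
    have h1 : ((⌊y⌋₊ : ℕ) : ℝ) ≤ ((2 ^ i : ℕ) : ℝ) := by
      rw [← hX]
      exact (Nat.floor_le hy0).trans (by linarith)
    exact_mod_cast h1
  refine ⟨i, j, k, ?_, ?_, hk0, hkj, hj1, hj2, hk1, ?_⟩
  · have h2 : ((2 ^ i0 : ℕ) : ℝ) ≤ q := by exact_mod_cast hqi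
    push_cast at h2
    have h1 : (2:ℝ) ^ i0 < 2 ^ i := by
      rw [← hXe2]
      linarith
    exact ((pow_lt_pow_iff_right₀ (by norm_num : (1:ℝ) < 2)).mp h1).le
  · have h1 : (2:ℝ) ^ j < 2 ^ i := by
      rw [← hXe2, ← hD]
      linarith
    exact ((pow_lt_pow_iff_right₀ (by norm_num : (1:ℝ) < 2)).mp h1).le
  · have e1 := devG (h := ⌊y⌋₊) (show 1 ≤ q by omega) hb
    have e2 : ∑ n ∈ (Icc 1 ⌊y⌋₊).filter (fun n => n ≡ b [MOD q]), ArithmeticFunction.vonMangoldt n = psi y q b := rfl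
    rw [e2] at e1
    have hφ0 : (0:ℝ) < Nat.totient q := by exact_mod_cast Nat.totient_pos.mpr (by omega : 0 < q)
    have e3 := lt_of_lt_of_le hdev e1
    rw [lt_div_iff₀ hφ0] at e3
    have hBS : BSh ⌊y⌋₊ q ≤ BS (2 ^ i) q := by
      unfold BSh BS
      exact sum_le_sum fun r _ => CS_le_CM hh2 r
    have hWn := Wn_le (h := ⌊y⌋₊) (show 1 ≤ q by omega)
    have hlow := totient_low (show 3 ≤ q by omega)
    have e4 : Real.log ((⌊y⌋₊ : ℕ) : ℝ) ≤ Real.log x := by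
      rcases Nat.eq_zero_or_pos ⌊y⌋₊ with h0 | h0
      · rw [h0]; simp; linarith
      · exact Real.log_le_log (by exact_mod_cast h0) ((Nat.floor_le hy0).trans hyx)
    have e4' : 0 ≤ Real.log ((⌊y⌋₊ : ℕ) : ℝ) := Real.log_natCast_nonneg _
    have e5 : Real.log (q:ℝ) ≤ Real.log x := Real.log_le_log (by linarith) hqx
    have e5' : 0 ≤ Real.log (q:ℝ) := Real.log_natCast_nonneg _
    have g1 : X ^ (1 / 2 : ℝ) ≤ 2 * x ^ (1 / 2 : ℝ) := two_rpow (by linarith) hX0.le hX2x (by norm_num) (by norm_num)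
    have g2 : X ^ (5 / 6 : ℝ) ≤ 2 * x ^ (5 / 6 : ℝ) := two_rpow (by linarith) hX0.le hX2x (by norm_num) (by norm_num)
    have hZ : WW i j k = X / 2 ^ k + X ^ (5 / 6 : ℝ) + D * X ^ (1 / 2 : ℝ) := by
      unfold WW
      rw [← hX, ← hD]
    rw [hZ]
    have hPr : (P:ℝ) ≤ 2 * 2 ^ k := by
      have h1 : P ≤ 2 * 2 ^ k := by
        rw [hP]
        rw [pow_succ] at hk2
        omega
      exact_mod_cast h1
    have hP0 : (0:ℝ) < P := by exact_mod_cast (by omega : 0 < P)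
    rw [← hP] at e3
    obtain ⟨l, hl⟩ : ∃ l, l = Real.log x := ⟨_, rfl⟩
    rw [← hl] at e3 e4 e5 hL1 hL2 hlx2
    obtain ⟨M, hM⟩ : ∃ M, M = L i := ⟨_, rfl⟩
    rw [← hM] at hL1 hL2 ⊢
    obtain ⟨s, hs⟩ : ∃ s, s = x ^ (1 / 2 : ℝ) := ⟨_, rfl⟩
    obtain ⟨t, ht⟩ : ∃ t, t = x ^ (5 / 6 : ℝ) := ⟨_, rfl⟩
    obtain ⟨S, hS⟩ : ∃ S, S = X ^ (1 / 2 : ℝ) := ⟨_, rfl⟩
    obtain ⟨T, hT⟩ : ∃ T, T = X ^ (5 / 6 : ℝ) := ⟨_, rfl⟩
    rw [← hs, ← hS] at g1
    rw [← ht, ← hT] at g2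
    rw [← hs, ← ht] at e3
    rw [← hS, ← hT]
    have hS1 : 1 ≤ S := by rw [hS]; exact Real.one_le_rpow (by linarith) (by norm_num)
    have hT0 : 0 ≤ T := by rw [hT]; positivity
    have hs0 : 0 ≤ s := by rw [hs]; exact Real.rpow_nonneg (by linarith) _
    have ht0 : 0 ≤ t := by rw [ht]; exact Real.rpow_nonneg (by linarith) _
    have hD0 : 0 < D := by linarith
    have hq0 : (0:ℝ) < q := by linarith
    obtain ⟨W, hW⟩ : ∃ W, W = X / 2 ^ k + T + D * S := ⟨_, rfl⟩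
    rw [← hW]
    have hXk : 0 ≤ X / 2 ^ k := by positivity
    have hDS : D ≤ D * S := by nlinarith
    have hDW : D ≤ W := by
      rw [hW]
      linarith
    have hW0 : 0 < W := by linarith
    obtain ⟨E, hE⟩ : ∃ E, E = s + t / q + x / (q * P) := ⟨_, rfl⟩
    rw [← hE] at e3
    have hE0 : 0 ≤ E := by rw [hE]; positivity
    have f1 : W ≤ 4 * (q * E) := by
      have k4 : (q:ℝ) * E = q * s + t + x / P := by
        rw [hE]
        field_simp
      have k5 : X / 2 ^ k ≤ 4 * (x / P) := by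
        rw [← mul_div_assoc, div_le_div_iff₀ (by positivity) hP0]
        calc X * (P:ℝ) ≤ (2 * x) * (2 * 2 ^ k) := by gcongr
          _ = 4 * x * 2 ^ k := by ring
      have k6 : D * S ≤ 2 * (q * s) := by
        calc D * S ≤ q * (2 * s) := by gcongr
          _ = _ := by ring
      have k7 : 0 ≤ (q:ℝ) * s := by positivity
      rw [hW, k4]
      linarith
    have hl0 : 0 < l := by linarith
    obtain ⟨B, hB⟩ : ∃ B, B = BS (2 ^ i) q := ⟨_, rfl⟩
    rw [← hB] at hBS ⊢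
    obtain ⟨F, hF⟩ : ∃ F : ℝ, F = Nat.totient q := ⟨_, rfl⟩
    rw [← hF] at e3 hlow hφ0
    have f2 : Wn ⌊y⌋₊ q ≤ 2 * l * l := by
      refine hWn.trans ?_
      (gcongr)
    have f3 : ((q:ℝ) + 1) * Wn ⌊y⌋₊ q ≤ 8 * W * l ^ 2 := by
      have k1 : (q:ℝ) + 1 ≤ 4 * W := by linarith
      calc ((q:ℝ) + 1) * Wn ⌊y⌋₊ q ≤ (4 * W) * (2 * l * l) := by
            apply mul_le_mul k1 f2 (Wn_nonneg _ _) (by positivity)
        _ = _ := by ring
    have f4 : E * l ^ (2 * K + 10) * F < B + 8 * W * l ^ 2 := by linarith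
    have f5 : (q:ℝ) ≤ 3 * l * F := by
      refine hlow.trans ?_
      (gcongr)
    have f6 : W * l ^ (2 * K + 10) ≤ 12 * l * (E * l ^ (2 * K + 10) * F) := by
      calc W * l ^ (2 * K + 10) ≤ (4 * (q * E)) * l ^ (2 * K + 10) := mul_le_mul_of_nonneg_right f1 (by positivity)
        _ ≤ (4 * ((3 * l * F) * E)) * l ^ (2 * K + 10) := by gcongr
        _ = _ := by ring
    have f7 : W * l ^ (2 * K + 10) < 12 * l * (B + 8 * W * l ^ 2) :=
      lt_of_le_of_lt f6 (mul_lt_mul_of_pos_left f4 (by positivity))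
    have f8 : M ^ K ≤ l ^ (2 * K) := by
      calc M ^ K ≤ (2 * l) ^ K := pow_le_pow_left₀ (by linarith) hL2 _
        _ = 2 ^ K * l ^ K := mul_pow _ _ _
        _ ≤ l ^ K * l ^ K := by
          apply mul_le_mul_of_nonneg_right _ (by positivity)
          exact pow_le_pow_left₀ (by norm_num) hlx2 _
        _ = l ^ (2 * K) := by rw [← pow_add]; congr 1; ring
    have f9 : W * M ^ K ≤ W * l ^ (2 * K) := mul_le_mul_of_nonneg_left f8 hW0.le
    refine f9.trans ?_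
    by_contra hcon
    push Not at hcon
    have f10 : 12 * l * (B + 8 * W * l ^ 2) ≤ 12 * l * (W * l ^ (2 * K) + 8 * W * l ^ 2) := by
      apply mul_le_mul_of_nonneg_left _ (by positivity)
      linarith
    have f11 : 12 * l * (W * l ^ (2 * K) + 8 * W * l ^ 2) ≤ 108 * (W * l ^ (2 * K + 3)) := by
      have k1 : l ^ (2 * K + 1) ≤ l ^ (2 * K + 3) := pow_le_pow_right₀ (by linarith) (by omega)
      have k2 : l ^ 3 ≤ l ^ (2 * K + 3) := pow_le_pow_right₀ (by linarith) (by omega)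
      calc 12 * l * (W * l ^ (2 * K) + 8 * W * l ^ 2) = 12 * (W * l ^ (2 * K + 1)) + 96 * (W * l ^ 3) := by ring
        _ ≤ 12 * (W * l ^ (2 * K + 3)) + 96 * (W * l ^ (2 * K + 3)) := by gcongr
        _ = _ := by ring
    have f12 : 108 * (W * l ^ (2 * K + 3)) ≤ W * l ^ (2 * K + 10) := by
      have k1 : (128:ℝ) ≤ l ^ 7 := by
        calc (128:ℝ) = 2 ^ 7 := by norm_num
          _ ≤ l ^ 7 := pow_le_pow_left₀ (by norm_num) hlx2 7
      calc 108 * (W * l ^ (2 * K + 3)) ≤ l ^ 7 * (W * l ^ (2 * K + 3)) :=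
            mul_le_mul_of_nonneg_right (by linarith) (by positivity)
        _ = _ := by ring
    linarith

/-- **The moduli which are not sharp are rare.** -/
theorem bad_sum3 (M : ℕ) : ∃ K : ℕ, ∑' q : {q : ℕ | ¬ SharpG K q},
    ENNReal.ofReal (Real.log (q : ℕ) ^ M / (q : ℕ)) ≠ ∞ := by
  classical
  obtain ⟨f, hf⟩ : ∃ f : ℕ → ℝ, f = fun q : ℕ => Real.log (q : ℝ) ^ M / (q : ℝ) := ⟨_, rfl⟩
  have hf0 : ∀ q, 0 ≤ f q := fun q => by
    rw [hf]
    have := Real.log_natCast_nonneg q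
    positivity
  obtain ⟨K0, hK0⟩ : ∃ K0, K0 = M + 10 := ⟨_, rfl⟩
  refine ⟨2 * K0 + 10, ?_⟩
  -- the cover
  have hcov : {q : ℕ | ¬ SharpG (2 * K0 + 10) q} ⊆ (range 8 : Set ℕ) ∪ ⋃ i : ℕ, (T6 K0 (i + 2) : Set ℕ) := by
    intro q hq
    by_cases h : q < 8
    · left
      simpa using h
    · right
      obtain ⟨i, j, k, hi, hj, hk1, hk2, h1, h2, h3⟩ := scale3 K0 2 q (by omega) (by omega) hq
      rw [Set.mem_iUnion]
      refine ⟨i - 2, ?_⟩
      have e1 : i - 2 + 2 = i := by omega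
      rw [e1, mem_coe]
      unfold T6
      rw [mem_biUnion]
      refine ⟨j, by rw [mem_range]; omega, ?_⟩
      rw [mem_biUnion]
      refine ⟨k, by rw [mem_Icc]; omega, ?_⟩
      unfold T5
      rw [mem_filter, mem_Ioc]
      exact ⟨⟨h1, h2⟩, h3⟩
  -- the sums
  obtain ⟨g, hg⟩ : ∃ g : ℕ → ℝ, g = fun j => ∑ q ∈ T6 K0 (j + 2), f q := ⟨_, rfl⟩
  have hg0 : ∀ j, 0 ≤ g j := fun j => by
    rw [hg]
    exact sum_nonneg fun x _ => hf0 x
  have hgb : ∀ j, g j ≤ (2 ^ M * 1966080000) * (1 / ((j:ℝ) + 1) ^ 2) := by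
    intro j
    rw [hg]
    simp only
    obtain ⟨i, hi⟩ : ∃ i, i = j + 2 := ⟨_, rfl⟩
    rw [← hi]
    have hl2 := Real.log_two_gt_d9
    have hi1 : (i:ℝ) = j + 2 := by rw [hi]; push_cast; rfl
    have hj0 : (0:ℝ) ≤ j := Nat.cast_nonneg j
    have hLe := L_eq i
    have hLi : (i:ℝ) * 0.6931 ≤ L i := by rw [hLe]; apply mul_le_mul_of_nonneg_left (by linarith) (by linarith)
    have hL1 : 1 ≤ L i := by linarith
    have hL0 : 0 < L i := by linarith
    have h1 : ∑ q ∈ T6 K0 i, f q ≤ ∑ q ∈ T6 K0 i, (2 * L i) ^ M * (1 / (q:ℝ)) := by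
      apply sum_le_sum
      intro q hq
      unfold T6 at hq
      rw [mem_biUnion] at hq
      obtain ⟨j', hj', hq⟩ := hq
      rw [mem_biUnion] at hq
      obtain ⟨k', hk', hq⟩ := hq
      rw [mem_range] at hj'
      unfold T5 at hq
      rw [mem_filter, mem_Ioc] at hq
      have hq0 : (0:ℝ) < q := by exact_mod_cast (by omega : 0 < q)
      have hqX : q ≤ 2 ^ (i + 1) := by
        calc q ≤ 2 * 2 ^ j' := hq.1.2
          _ ≤ 2 * 2 ^ i := Nat.mul_le_mul_left _ (Nat.pow_le_pow_right (by norm_num) (by omega))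
          _ = 2 ^ (i + 1) := by rw [pow_succ, mul_comm]
      have hlq : Real.log q ≤ 2 * L i := by
        have h2 : Real.log q ≤ Real.log ((2 ^ (i + 1) : ℕ) : ℝ) := Real.log_le_log hq0 (by exact_mod_cast hqX)
        rw [Nat.cast_pow, Real.log_pow] at h2
        push_cast at h2
        rw [hLe]
        nlinarith
      rw [hf]
      show Real.log (q:ℝ) ^ M / (q:ℝ) ≤ (2 * L i) ^ M * (1 / (q:ℝ))
      rw [div_eq_mul_one_div (Real.log (q:ℝ) ^ M)]
      apply mul_le_mul_of_nonneg_right _ (by positivity)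
      exact pow_le_pow_left₀ (Real.log_natCast_nonneg q) hlq M
    refine h1.trans ?_
    rw [← mul_sum]
    have h2 := T6_sum K0 i (by omega)
    have h3 : (((j:ℝ) + 1) / 2) ^ 2 ≤ L i ^ 2 := pow_le_pow_left₀ (by linarith) (by linarith) 2
    have h4 : ((i:ℝ) + 1) * (((i:ℝ) + 1) * (240000 * ((i:ℝ) + 1) * (1 + L i) ^ 5 / L i ^ K0)) ≤
        (4 * L i) * ((4 * L i) * (240000 * (4 * L i) * (2 * L i) ^ 5 / L i ^ K0)) := by
      have k1 : (i:ℝ) + 1 ≤ 4 * L i := by linarith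
      have k2 : 1 + L i ≤ 2 * L i := by linarith
      (gcongr)
    calc (2 * L i) ^ M * ∑ q ∈ T6 K0 i, 1 / (q:ℝ) ≤ (2 * L i) ^ M * ((4 * L i) * ((4 * L i) * (240000 * (4 * L i) * (2 * L i) ^ 5 / L i ^ K0))) :=
          mul_le_mul_of_nonneg_left (h2.trans h4) (by positivity)
      _ = 2 ^ M * 491520000 * (1 / L i ^ 2) := by
          rw [hK0]
          have e2 : L i ^ (M + 10) = L i ^ M * L i ^ 8 * L i ^ 2 := by rw [← pow_add, ← pow_add]
          rw [e2, mul_pow]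
          have : L i ^ M ≠ 0 := by positivity
          field_simp
          ring
      _ ≤ 2 ^ M * 491520000 * (1 / ((((j:ℝ) + 1) / 2) ^ 2)) := by
          apply mul_le_mul_of_nonneg_left _ (by positivity)
          exact one_div_le_one_div_of_le (by positivity) h3
      _ = (2 ^ M * 1966080000) * (1 / ((j:ℝ) + 1) ^ 2) := by
          field_simp
          ring
  have hgs : Summable g := by
    have h1 : Summable fun j : ℕ => (2 ^ M * 1966080000 : ℝ) * (1 / ((j:ℝ) + 1) ^ 2) := by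
      apply Summable.mul_left
      have := (summable_nat_add_iff 1).mpr (Real.summable_one_div_nat_pow.mpr one_lt_two)
      refine this.congr fun j => ?_
      push_cast
      rfl
    exact Summable.of_nonneg_of_le hg0 hgb h1
  have h2 := ENNReal.tsum_iUnion_le_tsum (fun q : ℕ => ENNReal.ofReal (f q)) (fun j : ℕ => (T6 K0 (j + 2) : Set ℕ))
  have h3 : ∀ j : ℕ, ∑' x : (T6 K0 (j + 2) : Set ℕ), ENNReal.ofReal (f x) = ENNReal.ofReal (g j) := by
    intro j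
    rw [Finset.tsum_subtype' (T6 K0 (j + 2)) (fun q : ℕ => ENNReal.ofReal (f q)), hg,
      ENNReal.ofReal_sum_of_nonneg fun x _ => hf0 x]
  have h4 : ∑' j : ℕ, ∑' x : (T6 K0 (j + 2) : Set ℕ), ENNReal.ofReal (f x) ≠ ∞ := by
    simp only [h3]
    exact hgs.tsum_ofReal_ne_top
  have h5 := ne_top_of_le_ne_top h4 h2
  have h6 : ∑' x : (range 8 : Set ℕ), ENNReal.ofReal (f x) ≠ ∞ := by
    rw [Finset.tsum_subtype' (range 8) (fun q : ℕ => ENNReal.ofReal (f q))]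
    exact ENNReal.sum_ne_top.mpr fun _ _ => ENNReal.ofReal_ne_top
  have h7 := ENNReal.tsum_union_le (fun q : ℕ => ENNReal.ofReal (f q)) (range 8 : Set ℕ) (⋃ j : ℕ, (T6 K0 (j + 2) : Set ℕ))
  have h8 := ne_top_of_le_ne_top (ENNReal.add_ne_top.mpr ⟨h6, h5⟩) h7
  have h9 := ENNReal.tsum_mono_subtype (fun q : ℕ => ENNReal.ofReal (f q)) hcov
  have h10 := ne_top_of_le_ne_top h8 h9
  rw [hf] at h10
  exact h10

end Pool.Agent.D0H48.BM
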