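import Pool.Agent.D0H48.BM.Bad

/-!
The denominators of all the good rational approximations of almost every point are regular moduli.
-/

set_option autoImplicit false

open Filter Topology Finset MeasureTheory
open scoped ENNReal

namespace Pool.Agent.D0H48.BM

open Pool.Agent.D0H48.Hl

/-- the denominators of the good approximations of `α` are regular -/
def Fine {d : ℕ} (A B K : ℕ) (α : Fin d → ℝ) : Prop :=
  ∃ Q : ℕ, ∀ (q : ℕ) (a : Fin d → ℕ), Q ≤ q → (∀ i, (q : ℝ) * |q * α i - a i| ^ d ≤ Real.log q ^ B) → Regular A K q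

/-- the set of the pairs of a bad denominator and a vector of numerators -/
def S (d A K R : ℕ) : Set (ℕ × (Fin d → ℕ)) := {x | ¬ Regular A K x.1 ∧ ∀ i, x.2 i ≤ R * x.1}

lemma S_sum (d A K R M : ℕ) (h : ∑' q : {q : ℕ | ¬ Regular A K q}, ENNReal.ofReal (Real.log (q : ℕ) ^ M / (q : ℕ)) ≠ ∞) :
    ∑' x : S d A K R, ENNReal.ofReal (Real.log x.1.1 ^ M / (x.1.1 : ℝ) ^ (d + 1)) ≠ ∞ := by
  classical
  obtain ⟨F, hF⟩ : ∃ F : ℕ → ℝ≥0∞, F = fun q : ℕ => ENNReal.ofReal (Real.log (q:ℝ) ^ M / (q:ℝ)) := ⟨_, rfl⟩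
  obtain ⟨G, hG⟩ : ∃ G : ℕ × (Fin d → ℕ) → ℝ≥0∞, G = fun x => ENNReal.ofReal (Real.log x.1 ^ M / (x.1 : ℝ) ^ (d + 1)) := ⟨_, rfl⟩
  obtain ⟨P, hP⟩ : ∃ P : ℕ → Finset (ℕ × (Fin d → ℕ)), P = fun q =>
      ({q} : Finset ℕ) ×ˢ Fintype.piFinset (fun _ : Fin d => range (R * q + 1)) := ⟨_, rfl⟩
  have hsub : S d A K R ⊆ ⋃ q : {q : ℕ | ¬ Regular A K q}, (P q : Set (ℕ × (Fin d → ℕ))) := by
    intro x hx
    rw [Set.mem_iUnion]
    refine ⟨⟨x.1, hx.1⟩, ?_⟩
    rw [hP]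
    simp only [coe_product, coe_singleton, Set.mem_prod, Set.mem_singleton_iff, mem_coe, Fintype.mem_piFinset, mem_range, true_and]
    intro i
    have := hx.2 i
    omega
  have hq : ∀ q : {q : ℕ | ¬ Regular A K q}, ∑' x : (P q : Set (ℕ × (Fin d → ℕ))), G x ≤
      ENNReal.ofReal ((R + 1) ^ d) * F q := by
    rintro ⟨q, hq⟩
    rw [Finset.tsum_subtype' (P q) G, hG, ← ENNReal.ofReal_sum_of_nonneg (fun x _ => by
      have := Real.log_natCast_nonneg x.1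
      positivity), hF]
    simp only
    rw [← ENNReal.ofReal_mul (by positivity)]
    apply ENNReal.ofReal_le_ofReal
    rcases Nat.eq_zero_or_pos q with h0 | h0
    · have e : ∀ x ∈ P q, Real.log (x.1:ℝ) ^ M / (x.1 : ℝ) ^ (d + 1) = 0 := by
        intro x hx
        rw [hP] at hx
        simp only [mem_product, mem_singleton] at hx
        rw [hx.1, h0]
        simp
      rw [sum_eq_zero e, h0]
      simp
    · have hq0 : (0:ℝ) < q := by exact_mod_cast h0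
      have hl := Real.log_natCast_nonneg q
      have e : ∑ x ∈ P q, Real.log (x.1:ℝ) ^ M / (x.1 : ℝ) ^ (d + 1) = ((R * q + 1 : ℕ) : ℝ) ^ d * (Real.log (q:ℝ) ^ M / (q:ℝ) ^ (d + 1)) := by
        have e1 : ∀ x ∈ P q, Real.log (x.1:ℝ) ^ M / (x.1 : ℝ) ^ (d + 1) = Real.log (q:ℝ) ^ M / (q:ℝ) ^ (d + 1) := by
          intro x hx
          rw [hP] at hx
          simp only [mem_product, mem_singleton] at hx
          rw [hx.1]
        rw [sum_congr rfl e1, sum_const, nsmul_eq_mul]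
        congr 1
        rw [hP]
        simp only [card_product, card_singleton, one_mul, Fintype.card_piFinset, card_range, prod_const, card_univ, Fintype.card_fin]
        push_cast
        ring
      rw [e]
      have h1 : ((R * q + 1 : ℕ) : ℝ) ≤ (R + 1) * q := by
        push_cast
        have : (1:ℝ) ≤ q := by exact_mod_cast h0
        nlinarith
      calc ((R * q + 1 : ℕ) : ℝ) ^ d * (Real.log (q:ℝ) ^ M / (q:ℝ) ^ (d + 1))
          ≤ ((R + 1) * q) ^ d * (Real.log (q:ℝ) ^ M / (q:ℝ) ^ (d + 1)) := by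
            apply mul_le_mul_of_nonneg_right _ (by positivity)
            exact pow_le_pow_left₀ (by positivity) h1 d
        _ = (R + 1) ^ d * (Real.log (q:ℝ) ^ M / (q:ℝ)) := by
            rw [mul_pow, pow_succ]
            field_simp
  have h1 : ∑' q : {q : ℕ | ¬ Regular A K q}, ∑' x : (P q : Set (ℕ × (Fin d → ℕ))), G x ≠ ∞ := by
    refine ne_top_of_le_ne_top ?_ (ENNReal.tsum_le_tsum hq)
    rw [ENNReal.tsum_mul_left]
    refine ENNReal.mul_ne_top ENNReal.ofReal_ne_top ?_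
    rw [hF]
    exact h
  have h2 := ENNReal.tsum_iUnion_le_tsum G (fun q : {q : ℕ | ¬ Regular A K q} => (P q : Set (ℕ × (Fin d → ℕ))))
  have h3 := ENNReal.tsum_mono_subtype G hsub
  have h4 := ne_top_of_le_ne_top (ne_top_of_le_ne_top h1 h2) h3
  rw [hG] at h4
  exact h4

/-- the numerators of the approximations of bounded points are bounded -/
lemma part_null {d : ℕ} (hd : 1 ≤ d) (A B M K R : ℕ)
    (h : ∑' q : {q : ℕ | ¬ Regular A K q}, ENNReal.ofReal (Real.log (q : ℕ) ^ (B + M) / (q : ℕ)) ≠ ∞)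
    (m : ℝ≥0∞ → ℝ≥0∞) (hm : Monotone m) (C : ℝ) (hC : 0 ≤ C)
    (hmC : ∀ r : ℝ, 0 < r → r ≤ 1 / 2 → m (ENNReal.ofReal r) ≤ ENNReal.ofReal (C * (r ^ d * (Real.log (1 / r)) ^ M))) :
    Measure.mkMetric m {α : Fin d → ℝ | (∀ i, α i ≤ R) ∧ ¬ Fine A B K α} = 0 := by
  obtain ⟨q0, hq3, hq0⟩ := ev_log B
  have hnull := limsup_null hd (R + 1) B M (S d A K (R + 1)) (fun x hx i => hx.2 i) (S_sum d A K (R + 1) (B + M) h) m hm C hC hmC
  refine measure_mono_null ?_ hnull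
  rintro α ⟨hα, hbad⟩ J
  unfold Fine at hbad
  push Not at hbad
  obtain ⟨q, a, hq, hap, hreg⟩ := hbad (J + q0)
  have hq1 : 1 ≤ q := by omega
  have hqr : (0:ℝ) < q := by exact_mod_cast hq1
  obtain ⟨k1, k2⟩ := hq0 q (by omega)
  refine ⟨⟨(q, a), hreg, fun i => ?_⟩, ?_, hap⟩
  · have h2 : |q * α i - a i| ^ d ≤ 1 := by
      have h4 : (q:ℝ) * |q * α i - a i| ^ d ≤ q * 1 := by rw [mul_one]; exact (hap i).trans k1
      exact le_of_mul_le_mul_left h4 hqr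
    have h3 : |q * α i - a i| ≤ 1 := by
      by_contra hcon
      push Not at hcon
      have := one_lt_pow₀ hcon (by omega : d ≠ 0)
      linarith
    have h5 := (abs_le.mp h3).1
    have h6 : (q:ℝ) * α i ≤ q * R := mul_le_mul_of_nonneg_left (hα i) hqr.le
    have h7 : (1:ℝ) ≤ q := by exact_mod_cast hq1
    have h8 : (a i : ℝ) ≤ ((R + 1 : ℕ) * q : ℝ) := by
      push_cast
      linarith
    exact_mod_cast h8
  · show J ≤ q
    omega

/-- the exponents -/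
theorem exponents (M : ℕ) : ∃ K : ℕ → ℕ → ℕ, ∀ A B : ℕ,
    ∑' q : {q : ℕ | ¬ Regular A (K A B) q}, ENNReal.ofReal (Real.log (q : ℕ) ^ (B + M) / (q : ℕ)) ≠ ∞ := by
  choose K hK using fun A B => bad_sum A (B + M)
  exact ⟨K, hK⟩

theorem null {d : ℕ} (hd : 1 ≤ d) (M : ℕ) (K : ℕ → ℕ → ℕ) (hK : ∀ A B : ℕ,
    ∑' q : {q : ℕ | ¬ Regular A (K A B) q}, ENNReal.ofReal (Real.log (q : ℕ) ^ (B + M) / (q : ℕ)) ≠ ∞)
    (m : ℝ≥0∞ → ℝ≥0∞) (hm : Monotone m) (C : ℝ)
    (hmC : ∀ r : ℝ, 0 < r → r ≤ 1 / 2 → m (ENNReal.ofReal r) ≤ ENNReal.ofReal (C * (r ^ d * (Real.log (1 / r)) ^ M))) :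
    Measure.mkMetric m {α : Fin d → ℝ | ¬ ∀ A B : ℕ, Fine A B (K A B) α} = 0 := by
  have hmC' : ∀ r : ℝ, 0 < r → r ≤ 1 / 2 → m (ENNReal.ofReal r) ≤ ENNReal.ofReal (max C 0 * (r ^ d * (Real.log (1 / r)) ^ M)) := by
    intro r hr hr2
    refine (hmC r hr hr2).trans (ENNReal.ofReal_le_ofReal ?_)
    apply mul_le_mul_of_nonneg_right (le_max_left _ _)
    have : 0 ≤ Real.log (1 / r) := Real.log_nonneg (by
      rw [le_div_iff₀ hr]; linarith)
    positivity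
  have hsub : {α : Fin d → ℝ | ¬ ∀ A B : ℕ, Fine A B (K A B) α} ⊆
      ⋃ (A : ℕ) (B : ℕ) (R : ℕ), {α : Fin d → ℝ | (∀ i, α i ≤ R) ∧ ¬ Fine A B (K A B) α} := by
    intro α hα
    have hα' : ¬ ∀ A B : ℕ, Fine A B (K A B) α := hα
    push Not at hα'
    obtain ⟨A, B, hAB⟩ := hα'
    obtain ⟨R, hR⟩ := exists_nat_ge (∑ i, |α i|)
    simp only [Set.mem_iUnion]
    refine ⟨A, B, R, fun i => ?_, hAB⟩
    have h1 : |α i| ≤ ∑ i, |α i| := Finset.single_le_sum (f := fun i => |α i|) (fun i _ => abs_nonneg _) (mem_univ i)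
    exact (le_abs_self _).trans (h1.trans hR)
  refine measure_mono_null hsub ?_
  refine measure_iUnion_null fun A => measure_iUnion_null fun B => measure_iUnion_null fun R => ?_
  exact part_null hd A B M (K A B) R (hK A B) m hm (max C 0) (le_max_right _ _) hmC'

theorem null_vol {d : ℕ} (hd : 1 ≤ d) (M : ℕ) (K : ℕ → ℕ → ℕ) (hK : ∀ A B : ℕ,
    ∑' q : {q : ℕ | ¬ Regular A (K A B) q}, ENNReal.ofReal (Real.log (q : ℕ) ^ (B + M) / (q : ℕ)) ≠ ∞) :
    volume {α : Fin d → ℝ | ¬ ∀ A B : ℕ, Fine A B (K A B) α} = 0 := by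
  have hK0 : ∀ A B : ℕ,
      ∑' q : {q : ℕ | ¬ Regular A (K A B) q}, ENNReal.ofReal (Real.log (q : ℕ) ^ (B + 0) / (q : ℕ)) ≠ ∞ := by
    intro A B
    have h1 := hK A B
    -- compare with the larger weights
    have h2 : ∀ q : {q : ℕ | ¬ Regular A (K A B) q}, ENNReal.ofReal (Real.log (q : ℕ) ^ (B + 0) / (q : ℕ)) ≤
        ENNReal.ofReal (Real.log (q : ℕ) ^ (B + M) / (q : ℕ)) + (if (q : ℕ) < 3 then ENNReal.ofReal (Real.log (q : ℕ) ^ (B + 0) / (q : ℕ)) else 0) := by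
      rintro ⟨q, hq⟩
      simp only
      by_cases h3 : q < 3
      · rw [if_pos h3]
        exact le_add_left (le_refl _)
      · rw [if_neg h3]
        refine le_add_right (ENNReal.ofReal_le_ofReal ?_)
        apply div_le_div_of_nonneg_right _ (Nat.cast_nonneg _)
        have h4 : 1 ≤ Real.log (q:ℝ) := by
          rw [Real.le_log_iff_exp_le (by exact_mod_cast (by omega : 0 < q))]
          have h5 : (3:ℝ) ≤ q := by exact_mod_cast (by omega : 3 ≤ q)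
          have := Real.exp_one_lt_d9
          linarith
        exact pow_le_pow_right₀ h4 (by omega)
    refine ne_top_of_le_ne_top ?_ (ENNReal.tsum_le_tsum h2)
    rw [ENNReal.tsum_add]
    refine ENNReal.add_ne_top.mpr ⟨h1, ?_⟩
    have h3 := ENNReal.tsum_comp_le_tsum_of_injective (f := fun q : {q : ℕ | ¬ Regular A (K A B) q} => (q : ℕ)) Subtype.val_injective
      (fun q : ℕ => if q < 3 then ENNReal.ofReal (Real.log (q : ℝ) ^ (B + 0) / (q : ℝ)) else 0)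
    refine ne_top_of_le_ne_top ?_ h3
    rw [tsum_eq_sum (s := range 3) (fun q hq => by
      rw [mem_range] at hq
      rw [if_neg hq])]
    refine ENNReal.sum_ne_top.mpr fun q _ => ?_
    split_ifs
    · exact ENNReal.ofReal_ne_top
    · exact ENNReal.zero_ne_top
  have h1 := null hd 0 K hK0 (fun r => r ^ (d:ℝ)) (fun x y hxy => ENNReal.rpow_le_rpow hxy (Nat.cast_nonneg _)) 1 (by
    intro r hr _
    rw [one_mul, pow_zero, mul_one, ENNReal.rpow_natCast, ← ENNReal.ofReal_pow hr.le])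
  have h2 : (Measure.hausdorffMeasure (d:ℝ) : Measure (Fin d → ℝ)) = volume := by
    have := hausdorffMeasure_pi_real (ι := Fin d)
    rwa [Fintype.card_fin] at this
  rw [← h2]
  exact h1

/-! ### integer numerators -/

/-- the denominators of the good approximations of `α`, with arbitrary integer numerators, are regular -/
def FineZ {d : ℕ} (A B K : ℕ) (α : Fin d → ℝ) : Prop :=
  ∃ Q : ℕ, ∀ (q : ℕ) (a : Fin d → ℤ), Q ≤ q → (∀ i, (q : ℝ) * |q * α i - a i| ^ d ≤ Real.log q ^ B) → Regular A K q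

lemma fineZ_of {d : ℕ} (hd : 1 ≤ d) (A B K R : ℕ) (α : Fin d → ℝ) (hα : ∀ i, |α i| ≤ R)
    (h : Fine A B K (α + fun _ => (R : ℝ) + 1)) : FineZ A B K α := by
  obtain ⟨q0, hq3, hq0⟩ := ev_log B
  obtain ⟨Q, hQ⟩ := h
  refine ⟨Q + q0, fun q a hq hap => ?_⟩
  have hq1 : 1 ≤ q := by omega
  have hqr : (0:ℝ) < q := by exact_mod_cast hq1
  obtain ⟨k1, k2⟩ := hq0 q (by omega)
  have hpos : ∀ i, 0 ≤ a i + q * (R + 1) := by
    intro i
    have h2 : |q * α i - a i| ^ d ≤ 1 := by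
      have h4 : (q:ℝ) * |q * α i - a i| ^ d ≤ q * 1 := by rw [mul_one]; exact (hap i).trans k1
      exact le_of_mul_le_mul_left h4 hqr
    have h3 : |q * α i - a i| ≤ 1 := by
      by_contra hcon
      push Not at hcon
      have := one_lt_pow₀ hcon (by omega : d ≠ 0)
      linarith
    have h5 := (abs_le.mp h3).2
    have h6 : (q:ℝ) * (-R) ≤ q * α i := mul_le_mul_of_nonneg_left (abs_le.mp (hα i)).1 hqr.le
    have h7 : (1:ℝ) ≤ q := by exact_mod_cast hq1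
    have h8 : (0:ℝ) ≤ (a i : ℝ) + q * (R + 1) := by nlinarith
    exact_mod_cast h8
  refine hQ q (fun i => (a i + q * (R + 1)).toNat) (by omega) fun i => ?_
  have h1 : (((a i + q * (R + 1)).toNat : ℕ) : ℝ) = a i + q * (R + 1) := by
    have h2 : (((a i + q * (R + 1)).toNat : ℕ) : ℤ) = a i + q * (R + 1) := Int.toNat_of_nonneg (hpos i)
    have h3 : ((((a i + q * (R + 1)).toNat : ℕ) : ℤ) : ℝ) = ((a i + q * (R + 1) : ℤ) : ℝ) := by rw [h2]
    rw [Int.cast_natCast] at h3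
    rw [h3]
    push_cast
    ring
  have h2 : (q:ℝ) * (α + fun _ : Fin d => (R : ℝ) + 1 : Fin d → ℝ) i - (((a i + q * (R + 1)).toNat : ℕ) : ℝ) = q * α i - a i := by
    rw [h1, Pi.add_apply]
    ring
  rw [h2]
  exact hap i

lemma shift_null {d : ℕ} (m : ℝ≥0∞ → ℝ≥0∞) (E : Set (Fin d → ℝ)) (c : Fin d → ℝ) (h : Measure.mkMetric m E = 0) :
    Measure.mkMetric m ((fun α : Fin d → ℝ => α + c) ⁻¹' E) = 0 := by
  have h1 := OuterMeasure.isometryEquiv_map_mkMetric m (IsometryEquiv.addRight c)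
  have h2 : OuterMeasure.map (IsometryEquiv.addRight c) (OuterMeasure.mkMetric m) E = OuterMeasure.mkMetric m E := by
    rw [h1]
  rw [OuterMeasure.map_apply] at h2
  rw [OuterMeasure.coe_mkMetric] at h2
  rw [h] at h2
  exact h2

lemma sub_shift {d : ℕ} (hd : 1 ≤ d) (K : ℕ → ℕ → ℕ) :
    {α : Fin d → ℝ | ¬ ∀ A B : ℕ, FineZ A B (K A B) α} ⊆
      ⋃ R : ℕ, (fun α : Fin d → ℝ => α + fun _ => (R : ℝ) + 1) ⁻¹' {α : Fin d → ℝ | ¬ ∀ A B : ℕ, Fine A B (K A B) α} := by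
  intro α hα
  obtain ⟨R, hR⟩ := exists_nat_ge (∑ i, |α i|)
  rw [Set.mem_iUnion]
  refine ⟨R, fun hfine => hα fun A B => ?_⟩
  refine fineZ_of hd A B (K A B) R α (fun i => ?_) (hfine A B)
  have h1 : |α i| ≤ ∑ i, |α i| := Finset.single_le_sum (f := fun i => |α i|) (fun i _ => abs_nonneg _) (mem_univ i)
  exact h1.trans hR

theorem nullZ {d : ℕ} (hd : 1 ≤ d) (M : ℕ) (K : ℕ → ℕ → ℕ) (hK : ∀ A B : ℕ,
    ∑' q : {q : ℕ | ¬ Regular A (K A B) q}, ENNReal.ofReal (Real.log (q : ℕ) ^ (B + M) / (q : ℕ)) ≠ ∞)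
    (m : ℝ≥0∞ → ℝ≥0∞) (hm : Monotone m) (C : ℝ)
    (hmC : ∀ r : ℝ, 0 < r → r ≤ 1 / 2 → m (ENNReal.ofReal r) ≤ ENNReal.ofReal (C * (r ^ d * (Real.log (1 / r)) ^ M))) :
    Measure.mkMetric m {α : Fin d → ℝ | ¬ ∀ A B : ℕ, FineZ A B (K A B) α} = 0 := by
  refine measure_mono_null (sub_shift hd K) (measure_iUnion_null fun R => ?_)
  exact shift_null m _ _ (null hd M K hK m hm C hmC)

theorem nullZ_vol {d : ℕ} (hd : 1 ≤ d) (M : ℕ) (K : ℕ → ℕ → ℕ) (hK : ∀ A B : ℕ,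
    ∑' q : {q : ℕ | ¬ Regular A (K A B) q}, ENNReal.ofReal (Real.log (q : ℕ) ^ (B + M) / (q : ℕ)) ≠ ∞) :
    volume {α : Fin d → ℝ | ¬ ∀ A B : ℕ, FineZ A B (K A B) α} = 0 := by
  refine measure_mono_null (sub_shift hd K) (measure_iUnion_null fun R => ?_)
  rw [measure_preimage_add_right]
  exact null_vol hd M K hK

end Pool.Agent.D0H48.BM
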