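import Pool.Agent.H336R2.V.TTs

/-!
Sums over primitive characters of the maxima of sharp bilinear sums.
-/

set_option autoImplicit false

open Finset MeasureTheory H336V H343 H343.KF H336V.SepSharp

namespace Pool.Agent.D0H48.BM

/-- the majorant of the kernels, for positive arguments -/
noncomputable def hh (L ξ : ℝ) : ℝ := if ξ ≤ 1 then 2 * L + 1 else 3 * ξ ^ (-1 - 1 / L)

/-- the majorant of the kernels -/
noncomputable def MM (L ξ : ℝ) : ℝ := hh L |ξ|

lemma hh_nonneg {L ξ : ℝ} (hL : 1 ≤ L) (hξ : 0 ≤ ξ) : 0 ≤ hh L ξ := by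
  unfold hh
  split_ifs
  · linarith
  · positivity

lemma MM_nonneg {L : ℝ} (hL : 1 ≤ L) (ξ : ℝ) : 0 ≤ MM L ξ := hh_nonneg hL (abs_nonneg ξ)

lemma hh_int {L : ℝ} (hL : 1 ≤ L) : IntegrableOn (hh L) (Set.Ioi 0) ∧ ∫ ξ in Set.Ioi 0, hh L ξ ≤ 6 * L := by
  have hL0 : 0 < L := by linarith
  have ha : -1 - 1 / L < -1 := by
    have : 0 < 1 / L := by positivity
    linarith
  have h1 : Set.EqOn (hh L) (fun _ => 2 * L + 1) (Set.Ioc 0 1) := by
    intro ξ hξ
    unfold hh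
    rw [if_pos hξ.2]
  have h2 : Set.EqOn (hh L) (fun ξ => 3 * ξ ^ (-1 - 1 / L)) (Set.Ioi 1) := by
    intro ξ hξ
    unfold hh
    rw [if_neg (not_le.mpr hξ)]
  have i1 : IntegrableOn (hh L) (Set.Ioc 0 1) := by
    refine IntegrableOn.congr_fun ?_ h1.symm measurableSet_Ioc
    exact integrableOn_const (by simp)
  have i2 : IntegrableOn (hh L) (Set.Ioi 1) := by
    refine IntegrableOn.congr_fun ?_ h2.symm measurableSet_Ioi
    exact (integrableOn_Ioi_rpow_of_lt ha one_pos).const_mul 3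
  have hU : Set.Ioc (0:ℝ) 1 ∪ Set.Ioi 1 = Set.Ioi 0 := Set.Ioc_union_Ioi_eq_Ioi zero_le_one
  refine ⟨by rw [← hU]; exact i1.union i2, ?_⟩
  rw [← hU, setIntegral_union (by
    rw [Set.disjoint_left]
    intro x hx hx'
    exact absurd hx.2 (not_le.mpr hx')) measurableSet_Ioi i1 i2,
    setIntegral_congr_fun measurableSet_Ioc h1, setIntegral_congr_fun measurableSet_Ioi h2,
    integral_const_mul, integral_Ioi_rpow_of_lt ha one_pos]
  have e1 : -(1:ℝ) ^ (-1 - 1 / L + 1) / (-1 - 1 / L + 1) = L := by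
    rw [Real.one_rpow]
    have : -1 - 1 / L + 1 = -(1 / L) := by ring
    rw [this]
    field_simp
  rw [e1]
  simp only [setIntegral_const, smul_eq_mul, Measure.real, Real.volume_Ioc]
  norm_num
  linarith

lemma MM_int {L : ℝ} (hL : 1 ≤ L) : Integrable (MM L) ∧ ∫ ξ, MM L ξ ≤ 12 * L := by
  obtain ⟨h1, h2⟩ := hh_int hL
  have he : ∀ x, MM L |x| = MM L x := fun x => by unfold MM; rw [abs_abs]
  refine ⟨integrable_of_even he ?_, ?_⟩
  · refine h1.congr_fun ?_ measurableSet_Ioi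
    intro ξ hξ
    unfold MM
    rw [abs_of_pos hξ]
  · have h4 := integral_comp_abs (f := hh L)
    have h5 : ∫ ξ, MM L ξ = ∫ ξ, hh L |ξ| := rfl
    rw [h5, h4]
    linarith

lemma gg_maj {y Y : ℕ} (hy : 1 ≤ y) (hyY : y ≤ Y) {ξ : ℝ} (hξ : ξ ≠ 0) :
    |gg (Real.log y) (Real.log ((y + 1 : ℕ) : ℝ)) ξ| ≤ MM (1 + Real.log Y) ξ := by
  have hy0 : (0:ℝ) < y := by exact_mod_cast hy
  have hy1 : (1:ℝ) ≤ y := by exact_mod_cast hy
  have hYy : (y:ℝ) ≤ Y := by exact_mod_cast hyY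
  obtain ⟨a, ha⟩ : ∃ a, a = Real.log y := ⟨_, rfl⟩
  obtain ⟨b, hb⟩ : ∃ b, b = Real.log ((y + 1 : ℕ) : ℝ) := ⟨_, rfl⟩
  obtain ⟨l, hl⟩ : ∃ l, l = Real.log Y := ⟨_, rfl⟩
  rw [← ha, ← hb, ← hl]
  have ha0 : 0 ≤ a := by rw [ha]; exact Real.log_nonneg hy1
  have hal : a ≤ l := by rw [ha, hl]; exact Real.log_le_log hy0 hYy
  have hab : a < b := by
    rw [ha, hb]
    apply Real.log_lt_log hy0
    push_cast; linarith
  have hba : b - a = Real.log (1 + 1 / y) := by
    rw [ha, hb, ← Real.log_div (by positivity) (by positivity)]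
    congr 1; push_cast; field_simp
  have hd1 : b - a ≤ 1 := by
    rw [hba]
    have h1 := Real.log_le_sub_one_of_pos (show (0:ℝ) < 1 + 1 / y by positivity)
    have h2 : 1 / (y:ℝ) ≤ 1 := by rw [div_le_one hy0]; exact hy1
    linarith
  have hd2 : 1 / ((y:ℝ) + 1) ≤ b - a := by
    rw [hba]
    have h1 := Real.one_sub_inv_le_log_of_pos (show (0:ℝ) < 1 + 1 / y by positivity)
    refine le_trans (le_of_eq ?_) h1
    field_simp
    ring
  have hd0 : 0 < b - a := by linarith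
  have hinv : (b - a)⁻¹ ≤ 2 * Y := by
    rw [inv_le_comm₀ hd0 (by linarith)]
    refine le_trans ?_ hd2
    rw [← one_div]
    apply one_div_le_one_div_of_le (by positivity)
    linarith
  have hg : |gg a b ξ| = abs (gg a b (abs ξ)) := by rw [gg_abs_arg]
  rw [hg]
  unfold MM
  obtain ⟨t, ht⟩ : ∃ t, t = |ξ| := ⟨_, rfl⟩
  have ht0 : 0 < t := by rw [ht]; exact abs_pos.mpr hξ
  rw [← ht]
  obtain ⟨L, hL⟩ : ∃ L, L = 1 + l := ⟨_, rfl⟩
  rw [← hL]
  have hL1 : 1 ≤ L := by rw [hL]; linarith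
  unfold hh
  split_ifs with h1
  · refine (gg_bound1 ha0 hab ht0).trans ?_
    linarith
  · rw [not_le] at h1
    have hY2 : (2:ℝ) ≤ 2 * Y := by linarith
    obtain ⟨s, hs⟩ : ∃ s, s = 1 / L := ⟨_, rfl⟩
    have hs0 : 0 < s := by rw [hs]; positivity
    have hs1 : s ≤ 1 := by rw [hs, div_le_one (by linarith)]; exact hL1
    -- `(2 Y) ^ s ≤ 3`
    have hpow : (2 * (Y:ℝ)) ^ s ≤ 3 := by
      have h2 : Real.log (2 * Y) ≤ L := by
        rw [Real.log_mul (by norm_num) (by linarith), ← hl, hL]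
        have := Real.log_two_lt_d9
        linarith
      rw [Real.rpow_def_of_pos (by linarith)]
      have h3 : Real.log (2 * Y) * s ≤ 1 := by
        rw [hs, mul_one_div, div_le_one (by linarith)]
        exact h2
      have h4 := Real.exp_le_exp.mpr h3
      have h5 := Real.exp_one_lt_d9
      linarith
    have e1 : (-1 - 1 / L : ℝ) = -1 + -s := by rw [hs]; ring
    rw [e1, Real.rpow_add ht0, Real.rpow_neg_one]
    rcases le_or_gt t (2 * Y) with h2 | h2
    · refine (gg_bound2 ha0 hab ht0).trans ?_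
      have h3 : t ^ s ≤ 3 := (Real.rpow_le_rpow ht0.le h2 hs0.le).trans hpow
      have h4 : 1 ≤ 3 * t ^ (-s) := by
        rw [Real.rpow_neg ht0.le]
        have : 0 < t ^ s := Real.rpow_pos_of_pos ht0 s
        rw [← div_eq_mul_inv, le_div_iff₀ this]
        linarith
      have h5 : 0 < t⁻¹ := by positivity
      nlinarith
    · refine (gg_bound3 hab ht0).trans ?_
      have h3 : t ^ (-2 : ℝ) = t⁻¹ * t⁻¹ := by
        rw [show (-2:ℝ) = -1 + -1 by norm_num, Real.rpow_add ht0, Real.rpow_neg_one]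
      rw [h3]
      have h4 : (b - a)⁻¹ * t⁻¹ ≤ 3 * t ^ (-s) := by
        have h5 : 2 * (Y:ℝ) * t⁻¹ ≤ 3 * t ^ (-s) := by
          have h6 : t ^ (s - 1) ≤ (2 * (Y:ℝ)) ^ (s - 1) := Real.rpow_le_rpow_of_nonpos (by linarith) h2.le (by linarith)
          have h7 : t ^ (s - 1) = t ^ s * t⁻¹ := by
            rw [Real.rpow_sub ht0, Real.rpow_one]; rfl
          have h8 : (2 * (Y:ℝ)) ^ (s - 1) * (2 * Y) = (2 * (Y:ℝ)) ^ s := by
            rw [Real.rpow_sub (by linarith), Real.rpow_one]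
            exact div_mul_cancel₀ _ (by linarith)
          have h9 : 2 * (Y:ℝ) * t⁻¹ * t ^ s ≤ 3 := by
            calc 2 * (Y:ℝ) * t⁻¹ * t ^ s = t ^ (s - 1) * (2 * Y) := by rw [h7]; ring
              _ ≤ (2 * (Y:ℝ)) ^ (s - 1) * (2 * Y) := mul_le_mul_of_nonneg_right h6 (by linarith)
              _ ≤ 3 := by rw [h8]; exact hpow
          rw [Real.rpow_neg ht0.le]
          have : 0 < t ^ s := Real.rpow_pos_of_pos ht0 s
          rw [← div_eq_mul_inv 3, le_div_iff₀ this]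
          exact h9
        refine le_trans ?_ h5
        exact mul_le_mul_of_nonneg_right hinv (by positivity)
      have h5 : 0 < t⁻¹ := by positivity
      calc (b - a)⁻¹ * (t⁻¹ * t⁻¹) = ((b - a)⁻¹ * t⁻¹) * t⁻¹ := by ring
        _ ≤ (3 * t ^ (-s)) * t⁻¹ := mul_le_mul_of_nonneg_right h4 h5.le
        _ = 3 * (t⁻¹ * t ^ (-s)) := by ring

end Pool.Agent.D0H48.BM
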