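import Pool.Agent.D0H48.BM.Ge
import Pool.Agent.H343R2.EH.Parseval

/-!
The mean square over the residue classes of the maxima over the heights.
-/

set_option autoImplicit false

open Filter Topology Finset H336V H343 H343.KF
open scoped ENNReal

namespace Pool.Agent.D0H48.BM

/-- the sum over a dyadic block -/
noncomputable def blkS (f : ℕ → ℝ) (k j : ℕ) : ℝ := ∑ n ∈ Ioc (j * 2 ^ k) ((j + 1) * 2 ^ k), f n

lemma maximal (f : ℕ → ℝ) (i h : ℕ) (hh : h ≤ 2 ^ i) :
    (∑ n ∈ Ioc 0 h, f n) ^ 2 ≤ ((i : ℝ) + 1) * ∑ k ∈ range (i + 1), ∑ j ∈ range (2 ^ (i - k)), blkS f k j ^ 2 := by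
  obtain ⟨g, hg⟩ : ∃ g : ℕ → ℝ, g = fun m => ∑ n ∈ Ioc 0 m, f n := ⟨_, rfl⟩
  obtain ⟨c, hc⟩ : ∃ c : ℕ → ℕ, c = fun k => h / 2 ^ k * 2 ^ k := ⟨_, rfl⟩
  have h0 : c 0 = h := by rw [hc]; simp
  have hlast : c (i + 1) = 0 := by
    rw [hc]
    show h / 2 ^ (i + 1) * 2 ^ (i + 1) = 0
    have h1 : h < 2 ^ (i + 1) := by
      rw [pow_succ]
      have := Nat.one_le_two_pow (n := i)
      omega
    rw [Nat.div_eq_of_lt h1, zero_mul]
  have hsum : ∑ k ∈ range (i + 1), (g (c k) - g (c (k + 1))) = g h := by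
    rw [Finset.sum_range_sub' (fun k => g (c k)), h0, hlast]
    rw [hg]
    simp
  have hstep : ∀ k ∈ range (i + 1), (g (c k) - g (c (k + 1))) ^ 2 ≤ ∑ j ∈ range (2 ^ (i - k)), blkS f k j ^ 2 := by
    intro k hk
    rw [mem_range] at hk
    obtain ⟨m, hm⟩ : ∃ m, m = h / 2 ^ k := ⟨_, rfl⟩
    have hm2 : h / 2 ^ (k + 1) = m / 2 := by rw [hm, pow_succ, Nat.div_div_eq_div_mul]
    have hck : c k = m * 2 ^ k := by rw [hc, hm]
    have hck1 : c (k + 1) = m / 2 * 2 ^ (k + 1) := by
      rw [hc]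
      show h / 2 ^ (k + 1) * 2 ^ (k + 1) = _
      rw [hm2]
    rcases Nat.even_or_odd' m with ⟨t, ht | ht⟩
    · have e : c (k + 1) = c k := by
        rw [hck, hck1, ht, Nat.mul_div_cancel_left t (by norm_num), pow_succ]
        ring
      rw [e, sub_self, zero_pow (by norm_num)]
      exact sum_nonneg fun _ _ => sq_nonneg _
    · have e : c (k + 1) = (m - 1) * 2 ^ k := by
        have h2 : (2 * t + 1) / 2 = t := by omega
        have h3 : 2 * t + 1 - 1 = 2 * t := by omega
        rw [hck1, ht, h2, pow_succ, h3]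
        ring
      have hmle : m ≤ 2 ^ (i - k) := by
        rw [hm]
        calc h / 2 ^ k ≤ 2 ^ i / 2 ^ k := Nat.div_le_div_right hh
          _ = 2 ^ (i - k) := Nat.pow_div (by omega) (by norm_num)
      have hm1 : 1 ≤ m := by omega
      have e2 : g (c k) - g (c (k + 1)) = blkS f k (m - 1) := by
        rw [hck, e, hg]
        unfold blkS
        have e3 : (m - 1 + 1) * 2 ^ k = m * 2 ^ k := by rw [Nat.sub_add_cancel hm1]
        rw [e3]
        simp only
        rw [← Finset.sum_Ioc_consecutive f (Nat.zero_le ((m - 1) * 2 ^ k)) (Nat.mul_le_mul_right _ (Nat.sub_le m 1))]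
        ring
      rw [e2]
      exact single_le_sum (f := fun j => blkS f k j ^ 2) (fun _ _ => sq_nonneg _) (mem_range.mpr (by omega))
  have hcs := sq_sum_le_card_mul_sum_sq (s := range (i + 1)) (f := fun k => g (c k) - g (c (k + 1)))
  rw [hsum, card_range] at hcs
  have hgh : g h = ∑ n ∈ Ioc 0 h, f n := by rw [hg]
  rw [← hgh]
  refine hcs.trans ?_
  push_cast
  exact mul_le_mul_of_nonneg_left (sum_le_sum hstep) (by positivity)

lemma blk_total (g : ℕ → ℝ) (i k : ℕ) (hk : k ≤ i) :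
    ∑ j ∈ range (2 ^ (i - k)), ∑ n ∈ Ioc (j * 2 ^ k) ((j + 1) * 2 ^ k), g n = ∑ n ∈ Ioc 0 (2 ^ i), g n := by
  have key : ∀ t : ℕ, ∑ j ∈ range t, ∑ n ∈ Ioc (j * 2 ^ k) ((j + 1) * 2 ^ k), g n = ∑ n ∈ Ioc 0 (t * 2 ^ k), g n := by
    intro t
    induction t with
    | zero => simp
    | succ t ih =>
      rw [sum_range_succ, ih, Finset.sum_Ioc_consecutive g (Nat.zero_le _) (Nat.mul_le_mul_right _ (Nat.le_succ t))]
  rw [key, ← pow_add, Nat.sub_add_cancel hk]

/-- the deviation of the primes in a class -/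
noncomputable def ff (q b n : ℕ) : ℝ := ArithmeticFunction.vonMangoldt n *
  ((if n ≡ b [MOD q] then (1 : ℝ) else 0) - (if n.Coprime q then (1 : ℝ) / (Nat.totient q : ℝ) else 0))

/-- the character sum over a block -/
noncomputable def cB (k j : ℕ) {q : ℕ} (χ : DirichletCharacter ℂ q) : ℂ :=
  ∑ n ∈ Ioc (j * 2 ^ k) ((j + 1) * 2 ^ k), (ArithmeticFunction.vonMangoldt n : ℂ) * χ (n : ZMod q)

open Classical in
/-- the sum over the primitive characters -/
noncomputable def CB (k j r : ℕ) : ℝ :=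
  ∑ χ ∈ (univ : Finset (DirichletCharacter ℂ r)).filter (fun χ => χ.IsPrimitive), ‖cB k j χ‖ ^ 2

/-- `Λ` over the integers of a block which are not coprime to `q` -/
noncomputable def WB (k j q : ℕ) : ℝ :=
  ∑ n ∈ Ioc (j * 2 ^ k) ((j + 1) * 2 ^ k), (if n.Coprime q then 0 else ArithmeticFunction.vonMangoldt n)

lemma CB_nonneg (k j r : ℕ) : 0 ≤ CB k j r := by
  classical
  unfold CB
  exact sum_nonneg fun _ _ => by positivity

lemma WB_nonneg (k j q : ℕ) : 0 ≤ WB k j q := by
  unfold WB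
  refine sum_nonneg fun n _ => ?_
  split_ifs <;> first | exact le_rfl | exact ArithmeticFunction.vonMangoldt_nonneg

lemma blk_classes {q : ℕ} (hq : 1 ≤ q) (k j : ℕ) :
    ∑ b ∈ (range q).filter (fun b => b.Coprime q), blkS (ff q b) k j ^ 2 ≤
      (1 / (Nat.totient q : ℝ)) * (2 * ∑ r ∈ q.divisors.filter (fun r => r ≠ 1), CB k j r + 2 * q * WB k j q ^ 2) := by
  classical
  have hne : NeZero q := ⟨by omega⟩
  have hφ : (0:ℝ) < Nat.totient q := by exact_mod_cast Nat.totient_pos.mpr hq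
  obtain ⟨S, hS⟩ : ∃ S : Finset (DirichletCharacter ℂ q), S = univ.filter (fun χ => χ ≠ 1) := ⟨_, rfl⟩
  have e1 : ∀ b ∈ (range q).filter (fun b => b.Coprime q), blkS (ff q b) k j ^ 2 =
      (1 / (Nat.totient q : ℝ)) ^ 2 * ‖∑ χ ∈ S, χ ((b : ZMod q)⁻¹) * cB k j χ‖ ^ 2 := by
    intro b hb
    rw [mem_filter] at hb
    have e2 : ((blkS (ff q b) k j : ℝ) : ℂ) = (1 / (Nat.totient q : ℂ)) * ∑ χ ∈ S, χ ((b : ZMod q)⁻¹) * cB k j χ := by
      unfold blkS ff
      have e3 : ∀ n ∈ Ioc (j * 2 ^ k) ((j + 1) * 2 ^ k), ((ArithmeticFunction.vonMangoldt n *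
          ((if n ≡ b [MOD q] then (1 : ℝ) else 0) - (if n.Coprime q then (1 : ℝ) / (Nat.totient q : ℝ) else 0)) : ℝ) : ℂ) =
          (1 / (Nat.totient q : ℂ)) * ∑ χ ∈ S, χ ((b : ZMod q)⁻¹) * ((ArithmeticFunction.vonMangoldt n : ℂ) * χ (n : ZMod q)) := by
        intro n _
        rw [Complex.ofReal_mul, Pool.Agent.Helper112.BLB.bracket q b hb.2 n, mul_left_comm, hS]
        congr 1
        rw [mul_sum]
        apply sum_congr rfl
        intro χ _
        ring
      rw [Complex.ofReal_sum, sum_congr rfl e3, ← mul_sum, sum_comm]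
      congr 1
      apply sum_congr rfl
      intro χ _
      rw [← mul_sum]
      congr 1
    have e4 : blkS (ff q b) k j ^ 2 = ‖((blkS (ff q b) k j : ℝ) : ℂ)‖ ^ 2 := by
      rw [Complex.norm_real, Real.norm_eq_abs, sq_abs]
    rw [e4, e2, norm_mul, mul_pow, norm_div, norm_one, Complex.norm_natCast]
  rw [sum_congr rfl e1, ← mul_sum, H343E.parseval q S (fun χ => cB k j χ)]
  have e5 : (1 / (Nat.totient q : ℝ)) ^ 2 * (Nat.totient q * ∑ χ ∈ S, ‖cB k j χ‖ ^ 2) =
      (1 / (Nat.totient q : ℝ)) * ∑ χ ∈ S, ‖cB k j χ‖ ^ 2 := by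
    field_simp
  rw [e5]
  apply mul_le_mul_of_nonneg_left _ (by positivity)
  have hstep := H343.KeyAux.step2' q (by omega) (fun χ => ‖cB k j χ‖ ^ 2) (fun χ => by positivity)
    (fun f ψ => 2 * ‖cB k j ψ‖ ^ 2 + 2 * WB k j q ^ 2) (by
      intro f hf ψ hψ
      obtain ⟨g, rfl⟩ := hf
      have e1 := H343.KeyAux.sum_changeLevel f g (Dvd.intro g rfl) ψ (Ioc (j * 2 ^ k) ((j + 1) * 2 ^ k)) (fun n => (ArithmeticFunction.vonMangoldt n : ℂ))
      have e2 : cB k j (DirichletCharacter.changeLevel (Dvd.intro g rfl) ψ) =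
          ∑ n ∈ (Ioc (j * 2 ^ k) ((j + 1) * 2 ^ k)).filter (fun n => n.Coprime g), ψ (n : ZMod f) * (ArithmeticFunction.vonMangoldt n : ℂ) := by
        rw [← e1]
        unfold cB
        apply sum_congr rfl
        intro n _
        ring
      have e3 : cB k j ψ = ∑ n ∈ (Ioc (j * 2 ^ k) ((j + 1) * 2 ^ k)).filter (fun n => n.Coprime g), ψ (n : ZMod f) * (ArithmeticFunction.vonMangoldt n : ℂ) +
          ∑ n ∈ (Ioc (j * 2 ^ k) ((j + 1) * 2 ^ k)).filter (fun n => ¬ n.Coprime g), ψ (n : ZMod f) * (ArithmeticFunction.vonMangoldt n : ℂ) := by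
        rw [sum_filter_add_sum_filter_not]
        unfold cB
        apply sum_congr rfl
        intro n _
        ring
      have e4 : ‖∑ n ∈ (Ioc (j * 2 ^ k) ((j + 1) * 2 ^ k)).filter (fun n => ¬ n.Coprime g), ψ (n : ZMod f) * (ArithmeticFunction.vonMangoldt n : ℂ)‖ ≤
          WB k j (f * g) := by
        refine (norm_sum_le _ _).trans ?_
        unfold WB
        rw [sum_filter]
        apply sum_le_sum
        intro n _
        by_cases hg : n.Coprime g
        · rw [if_neg (not_not.mpr hg)]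
          split_ifs <;> first | exact le_rfl | exact ArithmeticFunction.vonMangoldt_nonneg
        · rw [if_pos hg, if_neg (fun hc => hg (Nat.Coprime.coprime_mul_left_right hc)), norm_mul, Complex.norm_real, Real.norm_eq_abs,
            abs_of_nonneg ArithmeticFunction.vonMangoldt_nonneg]
          exact mul_le_of_le_one_left ArithmeticFunction.vonMangoldt_nonneg (ψ.norm_le_one _)
      have e5 : ‖cB k j (DirichletCharacter.changeLevel (Dvd.intro g rfl) ψ)‖ ≤ ‖cB k j ψ‖ + WB k j (f * g) := by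
        rw [e2, eq_sub_of_add_eq e3.symm]
        exact (norm_sub_le _ _).trans (by linarith)
      have e6 := pow_le_pow_left₀ (norm_nonneg _) e5 2
      refine e6.trans ?_
      nlinarith [sq_nonneg (‖cB k j ψ‖ - WB k j (f * g))])
  have hSsub : ∀ χ ∈ S, χ ≠ 1 := by
    intro χ hχ
    rw [hS, mem_filter] at hχ
    exact hχ.2
  refine le_trans (sum_le_sum_of_subset_of_nonneg (fun χ hχ => ?_) (fun _ _ _ => by positivity)) (hstep.trans ?_)
  · simpa using hSsub χ hχ
  have h1 : ∀ r ∈ q.divisors.filter (fun r => r ≠ 1),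
      ∑ ψ ∈ (univ : Finset (DirichletCharacter ℂ r)).filter (fun χ => χ.IsPrimitive), (2 * ‖cB k j ψ‖ ^ 2 + 2 * WB k j q ^ 2) ≤
        2 * CB k j r + Nat.totient r * (2 * WB k j q ^ 2) := by
    intro r hr
    rw [mem_filter] at hr
    have hr0 : 0 < r := Nat.pos_of_mem_divisors hr.1
    have : NeZero r := ⟨hr0.ne'⟩
    rw [sum_add_distrib, sum_const, nsmul_eq_mul, ← mul_sum]
    apply add_le_add
    · unfold CB
      exact le_rfl
    · apply mul_le_mul_of_nonneg_right _ (by positivity)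
      have h2 : ((univ : Finset (DirichletCharacter ℂ r)).filter (fun χ => χ.IsPrimitive)).card ≤ Nat.totient r := by
        refine le_trans (card_le_univ _) ?_
        rw [← Nat.card_eq_fintype_card, DirichletCharacter.card_eq_totient_of_hasEnoughRootsOfUnity]
      exact_mod_cast h2
  refine (sum_le_sum h1).trans ?_
  rw [sum_add_distrib, ← sum_mul, ← mul_sum]
  apply add_le_add le_rfl
  have h3 : ∑ r ∈ q.divisors.filter (fun r => r ≠ 1), (Nat.totient r : ℝ) ≤ q := by
    calc ∑ r ∈ q.divisors.filter (fun r => r ≠ 1), (Nat.totient r : ℝ) ≤ ∑ r ∈ q.divisors, (Nat.totient r : ℝ) :=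
          sum_le_sum_of_subset_of_nonneg (filter_subset _ _) fun _ _ _ => Nat.cast_nonneg _
      _ = q := by exact_mod_cast congrArg (fun n : ℕ => (n:ℝ)) (Nat.sum_totient q)
  calc (∑ r ∈ q.divisors.filter (fun r => r ≠ 1), (Nat.totient r : ℝ)) * (2 * WB k j q ^ 2) ≤ q * (2 * WB k j q ^ 2) :=
        mul_le_mul_of_nonneg_right h3 (by positivity)
    _ = _ := by ring

/-- all blocks -/
noncomputable def TT (i r : ℕ) : ℝ := ∑ k ∈ range (i + 1), ∑ j ∈ range (2 ^ (i - k)), CB k j r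

lemma TT_nonneg (i r : ℕ) : 0 ≤ TT i r := sum_nonneg fun _ _ => sum_nonneg fun _ _ => CB_nonneg _ _ _

lemma TT_mean (i D : ℕ) : ∑ r ∈ Ioc D (2 * D), TT i r ≤
    ((i : ℝ) + 1) * (24 * (((2 ^ i : ℕ) : ℝ) + (D : ℝ) ^ 2) * (((2 ^ i : ℕ) : ℝ) * L i ^ 2)) := by
  classical
  have hL0 : 0 ≤ L i := Real.log_natCast_nonneg _
  unfold TT
  rw [sum_comm]
  have e1 : ∀ k ∈ range (i + 1), ∑ r ∈ Ioc D (2 * D), ∑ j ∈ range (2 ^ (i - k)), CB k j r ≤
      24 * (((2 ^ i : ℕ) : ℝ) + (D : ℝ) ^ 2) * (((2 ^ i : ℕ) : ℝ) * L i ^ 2) := by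
    intro k hk
    rw [mem_range] at hk
    rw [sum_comm]
    have e2 : ∀ j ∈ range (2 ^ (i - k)), ∑ r ∈ Ioc D (2 * D), CB k j r ≤
        24 * (((2 ^ i : ℕ) : ℝ) + (D : ℝ) ^ 2) * ∑ n ∈ Ioc (j * 2 ^ k) ((j + 1) * 2 ^ k), ArithmeticFunction.vonMangoldt n ^ 2 := by
      intro j hj
      rw [mem_range] at hj
      have hsub : Ioc (j * 2 ^ k) ((j + 1) * 2 ^ k) ⊆ Icc 1 (2 ^ i) := by
        intro n hn
        rw [mem_Ioc] at hn
        rw [mem_Icc]
        refine ⟨by omega, hn.2.trans ?_⟩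
        calc (j + 1) * 2 ^ k ≤ 2 ^ (i - k) * 2 ^ k := Nat.mul_le_mul_right _ hj
          _ = 2 ^ i := by rw [← pow_add, Nat.sub_add_cancel (by omega)]
      obtain ⟨α, hα⟩ : ∃ α : ℕ → ℂ, α = fun n => if n ∈ Ioc (j * 2 ^ k) ((j + 1) * 2 ^ k) then (ArithmeticFunction.vonMangoldt n : ℂ) else 0 := ⟨_, rfl⟩
      have h1 := LSaux.prim_sum_le D (2 ^ i) α
      have h2 : ∑ n ∈ Icc 1 (2 ^ i), ‖α n‖ ^ 2 = ∑ n ∈ Ioc (j * 2 ^ k) ((j + 1) * 2 ^ k), ArithmeticFunction.vonMangoldt n ^ 2 := by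
        rw [← sum_subset hsub]
        · apply sum_congr rfl
          intro n hn
          rw [hα]
          simp only
          rw [if_pos hn, Complex.norm_real, Real.norm_eq_abs, sq_abs]
        · intro n _ hn
          rw [hα]
          simp only
          rw [if_neg hn]
          simp
      have h3 : ∀ r : ℕ, ∀ χ : DirichletCharacter ℂ r, ∑ n ∈ Icc 1 (2 ^ i), α n * χ (n : ZMod r) = cB k j χ := by
        intro r χ
        unfold cB
        rw [← sum_subset hsub]
        · apply sum_congr rfl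
          intro n hn
          rw [hα]
          simp only
          rw [if_pos hn]
        · intro n _ hn
          rw [hα]
          simp only
          rw [if_neg hn, zero_mul]
      simp only [h3] at h1
      rw [h2] at h1
      unfold CB
      exact h1
    refine (sum_le_sum e2).trans ?_
    rw [← mul_sum, blk_total (fun n => ArithmeticFunction.vonMangoldt n ^ 2) i k (by omega)]
    apply mul_le_mul_of_nonneg_left _ (by positivity)
    calc ∑ n ∈ Ioc 0 (2 ^ i), ArithmeticFunction.vonMangoldt n ^ 2 ≤ ∑ n ∈ Ioc 0 (2 ^ i), L i ^ 2 := by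
          apply sum_le_sum
          intro n hn
          rw [mem_Ioc] at hn
          apply pow_le_pow_left₀ ArithmeticFunction.vonMangoldt_nonneg
          refine ArithmeticFunction.vonMangoldt_le_log.trans ?_
          exact Real.log_le_log (by exact_mod_cast hn.1) (by exact_mod_cast hn.2)
      _ = _ := by rw [sum_const, nsmul_eq_mul, Nat.card_Ioc, Nat.sub_zero]
  refine (sum_le_sum e1).trans (le_of_eq ?_)
  rw [sum_const, card_range, nsmul_eq_mul]
  push_cast
  rfl

/-- the sum over the divisors -/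
noncomputable def BT (i q : ℕ) : ℝ := ∑ r ∈ q.divisors.filter (fun r => r ≠ 1), TT i r

lemma BT_nonneg (i q : ℕ) : 0 ≤ BT i q := sum_nonneg fun _ _ => TT_nonneg _ _

/-- the mean square over the classes of the maxima over the heights -/
lemma class_max {q i : ℕ} (hq : 1 ≤ q) (h : ℕ → ℕ) (hh : ∀ b, h b ≤ 2 ^ i) :
    ∑ b ∈ (range q).filter (fun b => b.Coprime q), (∑ n ∈ Ioc 0 (h b), ff q b n) ^ 2 ≤
      ((i : ℝ) + 1) * ((1 / (Nat.totient q : ℝ)) * (2 * BT i q + 2 * q * (((i : ℝ) + 1) * Wn (2 ^ i) q ^ 2))) := by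
  classical
  have hφ : (0:ℝ) < Nat.totient q := by exact_mod_cast Nat.totient_pos.mpr hq
  calc ∑ b ∈ (range q).filter (fun b => b.Coprime q), (∑ n ∈ Ioc 0 (h b), ff q b n) ^ 2
      ≤ ∑ b ∈ (range q).filter (fun b => b.Coprime q), ((i : ℝ) + 1) * ∑ k ∈ range (i + 1), ∑ j ∈ range (2 ^ (i - k)), blkS (ff q b) k j ^ 2 :=
        sum_le_sum fun b _ => maximal (ff q b) i (h b) (hh b)
    _ = ((i : ℝ) + 1) * ∑ k ∈ range (i + 1), ∑ j ∈ range (2 ^ (i - k)),
          ∑ b ∈ (range q).filter (fun b => b.Coprime q), blkS (ff q b) k j ^ 2 := by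
        rw [← mul_sum, sum_comm]
        congr 1
        apply sum_congr rfl
        intro k _
        rw [sum_comm]
    _ ≤ ((i : ℝ) + 1) * ∑ k ∈ range (i + 1), ∑ j ∈ range (2 ^ (i - k)),
          ((1 / (Nat.totient q : ℝ)) * (2 * ∑ r ∈ q.divisors.filter (fun r => r ≠ 1), CB k j r + 2 * q * WB k j q ^ 2)) := by
        apply mul_le_mul_of_nonneg_left _ (by positivity)
        exact sum_le_sum fun k _ => sum_le_sum fun j _ => blk_classes hq k j
    _ = ((i : ℝ) + 1) * ((1 / (Nat.totient q : ℝ)) * (2 * BT i q + 2 * q * ∑ k ∈ range (i + 1), ∑ j ∈ range (2 ^ (i - k)), WB k j q ^ 2)) := by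
        congr 1
        have e1 : BT i q = ∑ k ∈ range (i + 1), ∑ j ∈ range (2 ^ (i - k)), ∑ r ∈ q.divisors.filter (fun r => r ≠ 1), CB k j r := by
          unfold BT TT
          rw [sum_comm]
          apply sum_congr rfl
          intro k _
          rw [sum_comm]
        rw [e1]
        simp only [mul_sum, mul_add, sum_add_distrib]
    _ ≤ _ := by
        apply mul_le_mul_of_nonneg_left _ (by positivity)
        apply mul_le_mul_of_nonneg_left _ (by positivity)
        apply add_le_add le_rfl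
        apply mul_le_mul_of_nonneg_left _ (by positivity)
        have e1 : ∀ k ∈ range (i + 1), ∑ j ∈ range (2 ^ (i - k)), WB k j q ^ 2 ≤ Wn (2 ^ i) q ^ 2 := by
          intro k hk
          rw [mem_range] at hk
          have e2 : ∑ j ∈ range (2 ^ (i - k)), WB k j q = Wn (2 ^ i) q := by
            unfold WB
            rw [blk_total (fun n => if n.Coprime q then 0 else ArithmeticFunction.vonMangoldt n) i k (by omega)]
            unfold Wn
            rw [sum_filter]
            have e3 : Ioc 0 (2 ^ i) = Icc 1 (2 ^ i) := by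
              ext n
              rw [mem_Ioc, mem_Icc]
              omega
            rw [e3]
            apply sum_congr rfl
            intro n _
            by_cases hc : n.Coprime q
            · rw [if_pos hc, if_neg (not_not.mpr hc)]
            · rw [if_neg hc, if_pos hc]
          rw [← e2]
          exact Finset.sum_sq_le_sq_sum_of_nonneg (fun j _ => WB_nonneg k j q)
        refine (sum_le_sum e1).trans (le_of_eq ?_)
        rw [sum_const, card_range, nsmul_eq_mul]
        push_cast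
        rfl

end Pool.Agent.D0H48.BM
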