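import Pool.Agent.D0H48.BM.Mt

/-!
The bad pairs of a modulus and a residue class are rare.
-/

set_option autoImplicit false

open Filter Topology Finset H336V H343 H343.KF
open scoped ENNReal

namespace Pool.Agent.D0H48.BM

lemma gen_sum (T : ℕ → ℝ) (hT : ∀ r, 0 ≤ T r) (j k : ℕ) (hk : 1 ≤ k) (hkj : k ≤ j + 1) :
    ∑ q ∈ (Ioc (2 ^ j) (2 * 2 ^ j)).filter (fun q => 2 ^ k ≤ q.minFac), ∑ r ∈ q.divisors.filter (fun r => r ≠ 1), T r ≤
      2 * 2 ^ j * ∑ m ∈ Ico (k - 1) (j + 1), (1 / 2 ^ m : ℝ) * ∑ r ∈ Ioc (2 ^ m) (2 * 2 ^ m), T r := by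
  classical
  obtain ⟨Q, hQ⟩ : ∃ Q, Q = Ioc (2 ^ j) (2 * 2 ^ j) := ⟨_, rfl⟩
  obtain ⟨R, hR⟩ : ∃ R, R = Ioc (2 ^ (k - 1)) (2 ^ (j + 1)) := ⟨_, rfl⟩
  have e1 : ∀ q ∈ Q.filter (fun q => 2 ^ k ≤ q.minFac), ∑ r ∈ q.divisors.filter (fun r => r ≠ 1), T r ≤
      ∑ r ∈ R, (if r ∣ q then T r else 0) := by
    intro q hq
    rw [mem_filter, hQ, mem_Ioc] at hq
    rw [← sum_filter]
    apply sum_le_sum_of_subset_of_nonneg
    · intro r hr
      rw [mem_filter, Nat.mem_divisors] at hr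
      rw [mem_filter, hR, mem_Ioc]
      refine ⟨⟨?_, ?_⟩, hr.1.1⟩
      · have h1 : 2 ≤ r := by
          rcases Nat.eq_zero_or_pos r with h | h
          · subst h
            exact absurd (zero_dvd_iff.mp hr.1.1) hr.1.2
          · have := hr.2
            omega
        have h2 := Nat.minFac_le_of_dvd h1 hr.1.1
        have h3 : 2 ^ (k - 1) < 2 ^ k := Nat.pow_lt_pow_right (by norm_num) (by omega)
        omega
      · have h2 := Nat.le_of_dvd (by omega) hr.1.1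
        rw [pow_succ]
        omega
    · intro _ _ _
      exact hT _
  rw [← hQ]
  have hpw : ((2 * 2 ^ j : ℕ) : ℝ) = 2 * 2 ^ j := by push_cast; rfl
  calc ∑ q ∈ Q.filter (fun q => 2 ^ k ≤ q.minFac), ∑ r ∈ q.divisors.filter (fun r => r ≠ 1), T r
      ≤ ∑ q ∈ Q.filter (fun q => 2 ^ k ≤ q.minFac), ∑ r ∈ R, (if r ∣ q then T r else 0) := sum_le_sum e1
    _ ≤ ∑ q ∈ Q, ∑ r ∈ R, (if r ∣ q then T r else 0) :=
        sum_le_sum_of_subset_of_nonneg (filter_subset _ _) fun q _ _ => sum_nonneg fun r _ => by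
          split_ifs
          · exact hT _
          · exact le_rfl
    _ = ∑ r ∈ R, ((Q.filter (fun q => r ∣ q)).card : ℝ) * T r := by
        rw [sum_comm]
        apply sum_congr rfl
        intro r _
        rw [← sum_filter, sum_const, nsmul_eq_mul]
    _ ≤ ∑ r ∈ R, (2 * 2 ^ j) * (T r / r) := by
        apply sum_le_sum
        intro r hr
        have h1 := count_mult (2 * 2 ^ j) r (2 ^ j)
        rw [← hQ, hpw] at h1
        calc ((Q.filter (fun q => r ∣ q)).card : ℝ) * T r ≤ (2 * 2 ^ j / r) * T r :=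
              mul_le_mul_of_nonneg_right h1 (hT _)
          _ = _ := by ring
    _ = 2 * 2 ^ j * ∑ m ∈ Ico (k - 1) (j + 1), ∑ r ∈ Ioc (2 ^ m) (2 * 2 ^ m), T r / r := by
        rw [← mul_sum, hR, dyadic_Ioc _ (k - 1) (j + 1) (by omega)]
    _ ≤ _ := by
        apply mul_le_mul_of_nonneg_left _ (by positivity)
        apply sum_le_sum
        intro m _
        rw [mul_sum]
        apply sum_le_sum
        intro r hr
        rw [mem_Ioc] at hr
        have h1 : (2:ℝ) ^ m ≤ r := by exact_mod_cast hr.1.le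
        rw [div_eq_mul_one_div, mul_comm]
        apply mul_le_mul_of_nonneg_right _ (hT _)
        exact one_div_le_one_div_of_le (by positivity) h1

lemma BT_bound (i j k : ℕ) (hji : j ≤ i) (hk : 1 ≤ k) (hkj : k ≤ j + 1) :
    ∑ q ∈ (Ioc (2 ^ j) (2 * 2 ^ j)).filter (fun q => 2 ^ k ≤ q.minFac), BT i q ≤
      96 * ((i : ℝ) + 1) ^ 2 * L i ^ 2 * 2 ^ j * (((2 ^ i : ℕ) : ℝ) * (((2 ^ i : ℕ) : ℝ) / 2 ^ k + 2 ^ j)) := by
  have hL0 : 0 ≤ L i := Real.log_natCast_nonneg _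
  obtain ⟨X, hX⟩ : ∃ X : ℝ, X = ((2 ^ i : ℕ) : ℝ) := ⟨_, rfl⟩
  have hX0 : 0 < X := by rw [hX]; positivity
  have h0 := gen_sum (TT i) (TT_nonneg i) j k hk hkj
  have e0 : ∑ q ∈ (Ioc (2 ^ j) (2 * 2 ^ j)).filter (fun q => 2 ^ k ≤ q.minFac), BT i q =
      ∑ q ∈ (Ioc (2 ^ j) (2 * 2 ^ j)).filter (fun q => 2 ^ k ≤ q.minFac), ∑ r ∈ q.divisors.filter (fun r => r ≠ 1), TT i r := rfl
  rw [e0]
  refine h0.trans ?_
  have e1 : ∀ m ∈ Ico (k - 1) (j + 1), (1 / 2 ^ m : ℝ) * ∑ r ∈ Ioc (2 ^ m) (2 * 2 ^ m), TT i r ≤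
      48 * ((i : ℝ) + 1) * L i ^ 2 * (X * (X / 2 ^ k + 2 ^ j)) := by
    intro m hm
    rw [mem_Ico] at hm
    have h1 := TT_mean i (2 ^ m)
    rw [← hX] at h1
    have hp : ((2 ^ m : ℕ) : ℝ) = 2 ^ m := by push_cast; rfl
    rw [hp] at h1
    have h2 : (2:ℝ) ^ m ≤ 2 ^ j := pow_le_pow_right₀ (by norm_num) (by omega)
    have h3 : (2:ℝ) ^ k ≤ 2 * 2 ^ m := by
      rw [← pow_succ']
      exact pow_le_pow_right₀ (by norm_num) (by omega)
    have h4 : X / 2 ^ m ≤ 2 * (X / 2 ^ k) := by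
      rw [← mul_div_assoc, div_le_div_iff₀ (by positivity) (by positivity)]
      calc X * 2 ^ k ≤ X * (2 * 2 ^ m) := mul_le_mul_of_nonneg_left h3 hX0.le
        _ = _ := by ring
    have h5 : (0:ℝ) ≤ 2 ^ j := by positivity
    calc (1 / 2 ^ m : ℝ) * ∑ r ∈ Ioc (2 ^ m) (2 * 2 ^ m), TT i r
        ≤ (1 / 2 ^ m : ℝ) * (((i : ℝ) + 1) * (24 * (X + (2 ^ m) ^ 2) * (X * L i ^ 2))) :=
          mul_le_mul_of_nonneg_left h1 (by positivity)
      _ = 24 * ((i : ℝ) + 1) * L i ^ 2 * (X * (X / 2 ^ m + 2 ^ m)) := by field_simp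
      _ ≤ 24 * ((i : ℝ) + 1) * L i ^ 2 * (X * (2 * (X / 2 ^ k + 2 ^ j))) := by
          apply mul_le_mul_of_nonneg_left _ (by positivity)
          apply mul_le_mul_of_nonneg_left _ hX0.le
          linarith
      _ = _ := by ring
  have e2 : ∑ m ∈ Ico (k - 1) (j + 1), (1 / 2 ^ m : ℝ) * ∑ r ∈ Ioc (2 ^ m) (2 * 2 ^ m), TT i r ≤
      ((i : ℝ) + 1) * (48 * ((i : ℝ) + 1) * L i ^ 2 * (X * (X / 2 ^ k + 2 ^ j))) := by
    refine (sum_le_sum e1).trans ?_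
    rw [sum_const, nsmul_eq_mul, Nat.card_Ico]
    apply mul_le_mul_of_nonneg_right
    · have : j + 1 - (k - 1) ≤ i + 1 := by omega
      exact_mod_cast this
    · positivity
  rw [← hX]
  calc 2 * 2 ^ j * ∑ m ∈ Ico (k - 1) (j + 1), (1 / 2 ^ m : ℝ) * ∑ r ∈ Ioc (2 ^ m) (2 * 2 ^ m), TT i r
      ≤ 2 * 2 ^ j * (((i : ℝ) + 1) * (48 * ((i : ℝ) + 1) * L i ^ 2 * (X * (X / 2 ^ k + 2 ^ j)))) :=
        mul_le_mul_of_nonneg_left e2 (by positivity)
    _ = _ := by ring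

/-- the square of the bound -/
noncomputable def VV (i j k : ℕ) : ℝ :=
  ((2 ^ i : ℕ) : ℝ) * (((2 ^ i : ℕ) : ℝ) / 2 ^ k + 2 ^ j) / (2 ^ j) ^ 2

/-- the bad pairs -/
def BadQ (K i j k : ℕ) (p : ℕ × ℕ) : Prop :=
  2 ^ k ≤ p.1.minFac ∧ p.2 < p.1 ∧ p.2.Coprime p.1 ∧ ∃ h : ℕ, h ≤ 2 ^ i ∧
    VV i j k * L i ^ K ≤ (∑ n ∈ Ioc 0 h, ff p.1 p.2 n) ^ 2

open Classical in
/-- the bad pairs at the scale `2 ^ i` -/
noncomputable def T7 (K i j k : ℕ) : Finset (ℕ × ℕ) :=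
  ((Ioc (2 ^ j) (2 * 2 ^ j)) ×ˢ range (2 * 2 ^ j)).filter (BadQ K i j k)

lemma T7_sum (K i j k : ℕ) (hi : 2 ≤ i) (hji : j ≤ i) (hk : 1 ≤ k) (hkj : k ≤ j + 1) :
    ∑ p ∈ T7 K i j k, 1 / (p.1:ℝ) ^ 2 ≤ 100000 * L i ^ 7 / L i ^ K := by
  classical
  obtain ⟨X, hX⟩ : ∃ X : ℝ, X = ((2 ^ i : ℕ) : ℝ) := ⟨_, rfl⟩
  have hX1 : 1 ≤ X := by rw [hX]; exact_mod_cast Nat.one_le_two_pow
  have hX0 : 0 < X := by linarith
  obtain ⟨D, hD⟩ : ∃ D : ℝ, D = 2 ^ j := ⟨_, rfl⟩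
  have hD1 : 1 ≤ D := by rw [hD]; exact one_le_pow₀ (by norm_num)
  have hD0 : 0 < D := by linarith
  have hi2 : (2:ℝ) ≤ i := by exact_mod_cast hi
  have hLe := L_eq i
  have hl2 := Real.log_two_gt_d9
  have hLi : (i:ℝ) * 0.6931 ≤ L i := by rw [hLe]; apply mul_le_mul_of_nonneg_left (by linarith) (by linarith)
  have hL1 : 1 ≤ L i := by linarith
  have hL0 : 0 < L i := by linarith
  have hi4 : (i:ℝ) + 1 ≤ 4 * L i := by linarith
  -- the heights
  obtain ⟨h, hh⟩ : ∃ h : ℕ → ℕ → ℕ, h = fun q b => if H : BadQ K i j k (q, b) then H.2.2.2.choose else 0 := ⟨_, rfl⟩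
  have h1 : ∀ q b, h q b ≤ 2 ^ i := by
    intro q b
    rw [hh]
    by_cases H : BadQ K i j k (q, b)
    · simp only [H, dite_true]
      exact H.2.2.2.choose_spec.1
    · simp only [H, dite_false]
      exact Nat.zero_le _
  have h2 : ∀ p ∈ T7 K i j k, VV i j k * L i ^ K ≤ (∑ n ∈ Ioc 0 (h p.1 p.2), ff p.1 p.2 n) ^ 2 := by
    intro p hp
    unfold T7 at hp
    rw [mem_filter] at hp
    have H : BadQ K i j k (p.1, p.2) := hp.2
    have e : h p.1 p.2 = H.2.2.2.choose := by rw [hh]; simp only [H, dite_true]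
    rw [e]
    exact H.2.2.2.choose_spec.2
  -- the moduli
  obtain ⟨Q, hQ⟩ : ∃ Q : Finset ℕ, Q = (Ioc (2 ^ j) (2 * 2 ^ j)).filter (fun q : ℕ => 2 ^ k ≤ q.minFac) := ⟨_, rfl⟩
  have hsub : T7 K i j k ⊆ (Q.sigma (fun q => (range q).filter (fun b => b.Coprime q))).image (fun s : (_ : ℕ) × ℕ => (s.1, s.2)) := by
    intro p hp
    unfold T7 at hp
    rw [mem_filter, mem_product] at hp
    have H : BadQ K i j k p := hp.2
    rw [mem_image]
    refine ⟨⟨p.1, p.2⟩, ?_, rfl⟩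
    rw [mem_sigma, hQ, mem_filter, mem_filter, mem_range]
    exact ⟨⟨hp.1.1, H.1⟩, H.2.1, H.2.2.1⟩
  have e2 : (T7 K i j k).card * (VV i j k * L i ^ K) ≤
      ∑ q ∈ Q, ∑ b ∈ (range q).filter (fun b => b.Coprime q), (∑ n ∈ Ioc 0 (h q b), ff q b n) ^ 2 := by
    calc ((T7 K i j k).card : ℝ) * (VV i j k * L i ^ K) = ∑ p ∈ T7 K i j k, VV i j k * L i ^ K := by
          rw [sum_const, nsmul_eq_mul]
      _ ≤ ∑ p ∈ T7 K i j k, (∑ n ∈ Ioc 0 (h p.1 p.2), ff p.1 p.2 n) ^ 2 := sum_le_sum h2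
      _ ≤ ∑ p ∈ (Q.sigma (fun q => (range q).filter (fun b => b.Coprime q))).image (fun s : (_ : ℕ) × ℕ => (s.1, s.2)),
            (∑ n ∈ Ioc 0 (h p.1 p.2), ff p.1 p.2 n) ^ 2 :=
          sum_le_sum_of_subset_of_nonneg hsub fun _ _ _ => sq_nonneg _
      _ = ∑ s ∈ Q.sigma (fun q => (range q).filter (fun b => b.Coprime q)), (∑ n ∈ Ioc 0 (h s.1 s.2), ff s.1 s.2 n) ^ 2 := by
          rw [sum_image]
          rintro ⟨a, b⟩ _ ⟨c, d⟩ _ hh
          simp only [Prod.mk.injEq] at hh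
          obtain ⟨rfl, rfl⟩ := hh
          rfl
      _ = _ := by rw [sum_sigma]
  have hQ' : ∀ q ∈ Q, (1:ℕ) ≤ q ∧ (D:ℝ) ≤ q ∧ (q:ℝ) ≤ 2 * D ∧ 2 ≤ q := by
    intro q hq
    rw [hQ, mem_filter, mem_Ioc] at hq
    have g0 := Nat.one_le_two_pow (n := j)
    refine ⟨by omega, ?_, ?_, by omega⟩
    · rw [hD]; exact_mod_cast hq.1.1.le
    · rw [hD]; exact_mod_cast hq.1.2
  have hDX : D ≤ X := by
    rw [hD, hX]
    push_cast
    exact pow_le_pow_right₀ (by norm_num) hji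
  have hlogq : ∀ q ∈ Q, Real.log q ≤ 2 * L i := by
    intro q hq
    obtain ⟨g1, g2, g3, g4⟩ := hQ' q hq
    have hq0 : (0:ℝ) < q := by exact_mod_cast g1
    have g5 : Real.log q ≤ Real.log (2 * X) := Real.log_le_log hq0 (by linarith)
    rw [Real.log_mul (by norm_num) hX0.ne'] at g5
    have g6 : Real.log X = L i := by rw [hX]; rfl
    rw [g6] at g5
    have := Real.log_two_lt_d9
    linarith
  have e3 : ∀ q ∈ Q, ∑ b ∈ (range q).filter (fun b => b.Coprime q), (∑ n ∈ Ioc 0 (h q b), ff q b n) ^ 2 ≤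
      (4 * L i) * (12 * L i / D * BT i q + 12 * L i * ((4 * L i) * (16 * L i ^ 4))) := by
    intro q hq
    obtain ⟨g1, g2, g3, g4⟩ := hQ' q hq
    have hq0 : (0:ℝ) < q := by exact_mod_cast g1
    have hlq := hlogq q hq
    have hlq0 : 0 ≤ Real.log (q:ℝ) := Real.log_natCast_nonneg q
    have hφ0 : (0:ℝ) < Nat.totient q := by exact_mod_cast Nat.totient_pos.mpr g1
    have g5 := class_max (i := i) g1 (h q) (h1 q)
    have g6 : 1 / (Nat.totient q : ℝ) ≤ 6 * L i / q := by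
      rw [div_le_div_iff₀ hφ0 hq0, one_mul]
      rcases Nat.lt_or_ge q 3 with h3 | h3
      · have hq2 : q = 2 := by omega
        rw [hq2, Nat.totient_two]
        push_cast
        linarith
      · refine (totient_low h3).trans ?_
        calc 3 * Real.log (q:ℝ) * Nat.totient q ≤ 3 * (2 * L i) * Nat.totient q := by gcongr
          _ = _ := by ring
    have g7 : Wn (2 ^ i) q ≤ 4 * L i ^ 2 := by
      refine (Wn_le g1).trans ?_
      have g8 : Real.log ((2 ^ i : ℕ) : ℝ) = L i := rfl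
      rw [g8]
      calc 2 * Real.log (q:ℝ) * L i ≤ 2 * (2 * L i) * L i := by gcongr
        _ = _ := by ring
    have g9 : Wn (2 ^ i) q ^ 2 ≤ 16 * L i ^ 4 := by
      calc Wn (2 ^ i) q ^ 2 ≤ (4 * L i ^ 2) ^ 2 := pow_le_pow_left₀ (Wn_nonneg _ _) g7 2
        _ = _ := by ring
    have hBT := BT_nonneg i q
    refine g5.trans ?_
    calc ((i : ℝ) + 1) * ((1 / (Nat.totient q : ℝ)) * (2 * BT i q + 2 * q * (((i : ℝ) + 1) * Wn (2 ^ i) q ^ 2)))
        ≤ (4 * L i) * ((6 * L i / q) * (2 * BT i q + 2 * q * ((4 * L i) * (16 * L i ^ 4)))) := by gcongr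
      _ = (4 * L i) * (12 * L i / q * BT i q + 12 * L i * ((4 * L i) * (16 * L i ^ 4))) := by field_simp; ring
      _ ≤ (4 * L i) * (12 * L i / D * BT i q + 12 * L i * ((4 * L i) * (16 * L i ^ 4))) := by gcongr
  have hcardQ : (Q.card : ℝ) ≤ D := by
    have g1 : Q.card ≤ 2 ^ j := by
      rw [hQ]
      refine (card_filter_le _ _).trans ?_
      rw [Nat.card_Ioc]
      omega
    rw [hD]
    exact_mod_cast g1
  have hBTs := BT_bound i j k hji hk hkj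
  rw [← hQ, ← hX, ← hD] at hBTs
  obtain ⟨Z, hZ⟩ : ∃ Z, Z = X * (X / 2 ^ k + D) := ⟨_, rfl⟩
  rw [← hZ] at hBTs
  have hXk : 0 ≤ X / 2 ^ k := by positivity
  have hDZ : D ≤ Z := by
    rw [hZ]
    nlinarith
  have hZ0 : 0 < Z := by linarith
  have e4 : ∑ q ∈ Q, ∑ b ∈ (range q).filter (fun b => b.Coprime q), (∑ n ∈ Ioc 0 (h q b), ff q b n) ^ 2 ≤
      100000 * L i ^ 7 * Z := by
    calc ∑ q ∈ Q, ∑ b ∈ (range q).filter (fun b => b.Coprime q), (∑ n ∈ Ioc 0 (h q b), ff q b n) ^ 2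
        ≤ ∑ q ∈ Q, (4 * L i) * (12 * L i / D * BT i q + 12 * L i * ((4 * L i) * (16 * L i ^ 4))) := sum_le_sum e3
      _ = (4 * L i) * (12 * L i / D * ∑ q ∈ Q, BT i q + Q.card * (12 * L i * ((4 * L i) * (16 * L i ^ 4)))) := by
          rw [← mul_sum, sum_add_distrib, ← mul_sum, sum_const, nsmul_eq_mul]
      _ ≤ (4 * L i) * (12 * L i / D * (96 * ((i : ℝ) + 1) ^ 2 * L i ^ 2 * D * Z) + D * (12 * L i * ((4 * L i) * (16 * L i ^ 4)))) := by
          gcongr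
      _ ≤ (4 * L i) * (12 * L i / D * (96 * (4 * L i) ^ 2 * L i ^ 2 * D * Z) + D * (12 * L i * ((4 * L i) * (16 * L i ^ 4)))) := by
          gcongr
      _ = 73728 * L i ^ 6 * Z + 3072 * L i ^ 7 * D := by field_simp; ring
      _ ≤ 73728 * L i ^ 7 * Z + 3072 * L i ^ 7 * Z := by
          have g1 : L i ^ 6 ≤ L i ^ 7 := pow_le_pow_right₀ hL1 (by norm_num)
          gcongr
      _ ≤ 100000 * L i ^ 7 * Z := by
          have : 0 ≤ L i ^ 7 * Z := by positivity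
          linarith
  have hVV : VV i j k = Z / D ^ 2 := by
    unfold VV
    rw [← hX, ← hD, hZ]
  rw [hVV] at e2
  have e5 := e2.trans e4
  have e6 : ∑ p ∈ T7 K i j k, 1 / (p.1:ℝ) ^ 2 ≤ (T7 K i j k).card * (1 / D ^ 2) := by
    calc ∑ p ∈ T7 K i j k, 1 / (p.1:ℝ) ^ 2 ≤ ∑ p ∈ T7 K i j k, (1 / D ^ 2 : ℝ) := by
          apply sum_le_sum
          intro p hp
          unfold T7 at hp
          rw [mem_filter, mem_product, mem_Ioc] at hp
          have g1 : D ≤ p.1 := by rw [hD]; exact_mod_cast hp.1.1.1.le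
          exact one_div_le_one_div_of_le (by positivity) (pow_le_pow_left₀ hD0.le g1 2)
      _ = _ := by rw [sum_const, nsmul_eq_mul]
  refine e6.trans ?_
  rw [le_div_iff₀ (by positivity)]
  refine le_of_mul_le_mul_right ?_ hZ0
  calc ((T7 K i j k).card : ℝ) * (1 / D ^ 2) * L i ^ K * Z = (T7 K i j k).card * (Z / D ^ 2 * L i ^ K) := by ring
    _ ≤ _ := e5

open Classical in
/-- the bad pairs at the scale `2 ^ i` -/
noncomputable def T8 (K i : ℕ) : Finset (ℕ × ℕ) :=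
  (range (i + 1)).biUnion fun j => (Icc 1 (j + 1)).biUnion fun k => T7 K i j k

lemma sum_biUnion_le2 {ι : Type*} [DecidableEq ι] (s : Finset ι) (t : ι → Finset (ℕ × ℕ)) (f : ℕ × ℕ → ℝ) (hf : ∀ x, 0 ≤ f x) :
    ∑ x ∈ s.biUnion t, f x ≤ ∑ i ∈ s, ∑ x ∈ t i, f x := by
  classical
  induction s using Finset.induction_on with
  | empty => simp
  | insert a s ha ih =>
    rw [biUnion_insert, sum_insert ha]
    have h1 : ∑ x ∈ t a ∪ s.biUnion t, f x ≤ ∑ x ∈ t a, f x + ∑ x ∈ s.biUnion t, f x := by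
      rw [← sum_union_inter]
      exact le_add_of_nonneg_right (sum_nonneg fun x _ => hf x)
    linarith

lemma T8_sum (K i : ℕ) (hi : 2 ≤ i) : ∑ p ∈ T8 K i, 1 / (p.1:ℝ) ^ 2 ≤ 1600000 * L i ^ 9 / L i ^ K := by
  classical
  have hi2 : (2:ℝ) ≤ i := by exact_mod_cast hi
  have hLe := L_eq i
  have hl2 := Real.log_two_gt_d9
  have hLi : (i:ℝ) * 0.6931 ≤ L i := by rw [hLe]; apply mul_le_mul_of_nonneg_left (by linarith) (by linarith)
  have hL1 : 1 ≤ L i := by linarith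
  have hL0 : 0 < L i := by linarith
  have hi4 : (i:ℝ) + 1 ≤ 4 * L i := by linarith
  obtain ⟨c, hc⟩ : ∃ c, c = 100000 * L i ^ 7 / L i ^ K := ⟨_, rfl⟩
  have hc0 : 0 ≤ c := by rw [hc]; positivity
  unfold T8
  refine (sum_biUnion_le2 _ _ _ fun x => by positivity).trans ?_
  calc ∑ j ∈ range (i + 1), ∑ p ∈ (Icc 1 (j + 1)).biUnion (fun k => T7 K i j k), 1 / (p.1:ℝ) ^ 2
      ≤ ∑ j ∈ range (i + 1), ((i : ℝ) + 1) * c := by
        apply sum_le_sum
        intro j hj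
        rw [mem_range] at hj
        refine (sum_biUnion_le2 _ _ _ fun x => by positivity).trans ?_
        calc ∑ k ∈ Icc 1 (j + 1), ∑ p ∈ T7 K i j k, 1 / (p.1:ℝ) ^ 2 ≤ ∑ k ∈ Icc 1 (j + 1), c := by
              apply sum_le_sum
              intro k hk
              rw [mem_Icc] at hk
              rw [hc]
              exact T7_sum K i j k hi (by omega) hk.1 hk.2
          _ = ((j:ℝ) + 1) * c := by
              rw [sum_const, nsmul_eq_mul, Nat.card_Icc]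
              push_cast
              congr 1
          _ ≤ _ := by
              apply mul_le_mul_of_nonneg_right _ hc0
              have : (j:ℝ) ≤ i := by exact_mod_cast (by omega : j ≤ i)
              linarith
    _ = ((i:ℝ) + 1) * (((i:ℝ) + 1) * c) := by
        rw [sum_const, card_range, nsmul_eq_mul]
        push_cast
        rfl
    _ ≤ (4 * L i) * ((4 * L i) * c) := by gcongr
    _ = _ := by
        rw [hc]
        ring

end Pool.Agent.D0H48.BM
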