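import Pool.Agent.D0H48.BM.Mu
import Pool.Agent.D0H48.MO.Main

/-!
The residue classes given by the rational approximations of almost every number: strong bound.
-/

set_option autoImplicit false

open Filter Topology Finset H336V H343 H343.KF MeasureTheory
open scoped ENNReal

namespace Pool.Agent.D0H48.BM

lemma triv0' (h : ℕ) : psi0 h ≤ h * Real.log h := by
  unfold psi0
  calc ∑ n ∈ Icc 1 h, ArithmeticFunction.vonMangoldt n ≤ ∑ n ∈ Icc 1 h, Real.log h := by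
        apply sum_le_sum
        intro n hn
        rw [mem_Icc] at hn
        refine ArithmeticFunction.vonMangoldt_le_log.trans ?_
        exact Real.log_le_log (by exact_mod_cast hn.1) (by exact_mod_cast hn.2)
    _ = h * Real.log h := by rw [sum_const, nsmul_eq_mul, Nat.card_Icc, Nat.add_sub_cancel]

lemma psi0_nonneg' (h : ℕ) : 0 ≤ psi0 h := sum_nonneg fun _ _ => ArithmeticFunction.vonMangoldt_nonneg

/-- the numbers near the bad fractions -/
noncomputable def EQ (B K i : ℕ) : Set ℝ :=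
  ⋃ p ∈ T8 K i, Metric.closedBall ((p.2 : ℝ) / p.1) (L i ^ B / (p.1 : ℝ) ^ 2)

lemma vol_EQ (B i : ℕ) (hi : 2 ≤ i) : volume (EQ B (B + 11) i) ≤ ENNReal.ofReal (3200000 * (1 / L i ^ 2)) := by
  have hi2 : (2:ℝ) ≤ i := by exact_mod_cast hi
  have hLe := L_eq i
  have hl2 := Real.log_two_gt_d9
  have hLi : (i:ℝ) * 0.6931 ≤ L i := by rw [hLe]; apply mul_le_mul_of_nonneg_left (by linarith) (by linarith)
  have hL0 : 0 < L i := by linarith
  unfold EQ
  refine (measure_biUnion_finset_le _ _).trans ?_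
  have e1 : ∀ p ∈ T8 (B + 11) i, volume (Metric.closedBall ((p.2 : ℝ) / p.1) (L i ^ B / (p.1 : ℝ) ^ 2)) =
      ENNReal.ofReal (2 * L i ^ B * (1 / (p.1 : ℝ) ^ 2)) := by
    intro p _
    rw [Real.volume_closedBall]
    congr 1
    ring
  rw [sum_congr rfl e1, ← ENNReal.ofReal_sum_of_nonneg (fun p _ => by positivity)]
  apply ENNReal.ofReal_le_ofReal
  rw [← mul_sum]
  calc 2 * L i ^ B * ∑ p ∈ T8 (B + 11) i, 1 / (p.1:ℝ) ^ 2 ≤ 2 * L i ^ B * (1600000 * L i ^ 9 / L i ^ (B + 11)) :=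
        mul_le_mul_of_nonneg_left (T8_sum (B + 11) i hi) (by positivity)
    _ = 3200000 * (1 / L i ^ 2) := by
        have e2 : L i ^ (B + 11) = L i ^ B * L i ^ 9 * L i ^ 2 := by rw [← pow_add, ← pow_add]
        rw [e2]
        have : L i ^ B ≠ 0 := by positivity
        field_simp
        norm_num

lemma ae_EQ (B : ℕ) : ∀ᵐ α : ℝ, ∀ m : ℤ, ∀ᶠ i : ℕ in atTop, α - m ∉ EQ B (B + 11) i := by
  have hsum : Summable fun j : ℕ => 12800000 * (1 / ((j:ℝ) + 1) ^ 2) := by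
    apply Summable.mul_left
    have := (summable_nat_add_iff 1).mpr (Real.summable_one_div_nat_pow.mpr one_lt_two)
    refine this.congr fun j => ?_
    push_cast
    rfl
  have hfin : ∑' j : ℕ, volume (EQ B (B + 11) (j + 2)) ≠ ∞ := by
    have h1 : ∀ j : ℕ, volume (EQ B (B + 11) (j + 2)) ≤ ENNReal.ofReal (12800000 * (1 / ((j:ℝ) + 1) ^ 2)) := by
      intro j
      refine (vol_EQ B (j + 2) (by omega)).trans (ENNReal.ofReal_le_ofReal ?_)
      have hl2 := Real.log_two_gt_d9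
      have hj0 : (0:ℝ) ≤ j := Nat.cast_nonneg j
      have hLe := L_eq (j + 2)
      have hLi : ((j:ℝ) + 1) / 2 ≤ L (j + 2) := by
        rw [hLe]
        push_cast
        nlinarith
      have h3 : (((j:ℝ) + 1) / 2) ^ 2 ≤ L (j + 2) ^ 2 := pow_le_pow_left₀ (by linarith) hLi 2
      calc 3200000 * (1 / L (j + 2) ^ 2) ≤ 3200000 * (1 / ((((j:ℝ) + 1) / 2) ^ 2)) := by
            apply mul_le_mul_of_nonneg_left _ (by norm_num)
            exact one_div_le_one_div_of_le (by positivity) h3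
        _ = _ := by
            field_simp
            norm_num
    refine ne_top_of_le_ne_top ?_ (ENNReal.tsum_le_tsum h1)
    exact hsum.tsum_ofReal_ne_top
  have h1 := ae_eventually_notMem hfin
  have h2 : ∀ᵐ α : ℝ, ∀ᶠ i : ℕ in atTop, α ∉ EQ B (B + 11) i := by
    filter_upwards [h1] with α hα
    rw [eventually_atTop] at hα ⊢
    obtain ⟨N, hN⟩ := hα
    refine ⟨N + 2, fun j hj => ?_⟩
    obtain ⟨i, rfl⟩ : ∃ i, j = i + 2 := ⟨j - 2, by omega⟩
    exact hN i (by omega)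
  rw [ae_all_iff]
  intro m
  exact (measurePreserving_sub_right volume (m : ℝ)).quasiMeasurePreserving.ae h2

lemma dev_ff {q b h : ℕ} :
    ∑ n ∈ (Icc 1 h).filter (fun n => n ≡ b [MOD q]), ArithmeticFunction.vonMangoldt n - psi0 h / Nat.totient q =
      ∑ n ∈ Ioc 0 h, ff q b n - Wn h q / Nat.totient q := by
  have e0 : Ioc 0 h = Icc 1 h := by
    ext n
    rw [mem_Ioc, mem_Icc]
    omega
  have e5 : psi0 h = ∑ n ∈ (Icc 1 h).filter (fun n => n.Coprime q), ArithmeticFunction.vonMangoldt n + Wn h q := by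
    unfold psi0 Wn
    exact (sum_filter_add_sum_filter_not _ _ _).symm
  have e2 : ∑ n ∈ (Icc 1 h).filter (fun n => n ≡ b [MOD q]), ArithmeticFunction.vonMangoldt n -
      (∑ n ∈ (Icc 1 h).filter (fun n => n.Coprime q), ArithmeticFunction.vonMangoldt n) / Nat.totient q = ∑ n ∈ Ioc 0 h, ff q b n := by
    rw [e0]
    unfold ff
    rw [sum_filter, sum_filter, sum_div, ← sum_sub_distrib]
    apply sum_congr rfl
    intro n _
    split_ifs <;> ring
  rw [e5, add_div, ← e2]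
  ring

lemma scale4 (K : ℕ) {x : ℝ} {q r : ℕ} (hq8 : 8 ≤ q) (hqx : (q:ℝ) ≤ x) (hrq : r < q) (hrc : r.Coprime q)
    (hdev : (√(x / q) + x / (q * √(q.minFac : ℝ))) * Real.log x ^ (K + 4) < |psi x q r - psi0 ⌊x⌋₊ / Nat.totient q|) :
    ∃ i : ℕ, x < ((2 ^ i : ℕ) : ℝ) ∧ Real.log x ≤ L i ∧ (q, r) ∈ T8 K i := by
  classical
  have hq8r : (8:ℝ) ≤ q := by exact_mod_cast hq8
  have hx8 : 8 ≤ x := hq8r.trans hqx
  obtain ⟨n, hn1, hn2⟩ := exists_nat_pow_near (by linarith : (1:ℝ) ≤ x) (by norm_num : (1:ℝ) < 2)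
  obtain ⟨i, hi⟩ : ∃ i, i = n + 1 := ⟨_, rfl⟩
  obtain ⟨X, hX⟩ : ∃ X : ℝ, X = ((2 ^ i : ℕ) : ℝ) := ⟨_, rfl⟩
  have hXe : X = 2 ^ (n + 1) := by rw [hX, hi]; push_cast; rfl
  have hXe2 : X = 2 ^ i := by rw [hX]; push_cast; rfl
  have hxX : x < X := by rw [hXe]; exact hn2
  have hX2x : X ≤ 2 * x := by rw [hXe, pow_succ]; linarith
  have hLe : L i = Real.log X := by rw [hX]; rfl
  have hlx2 : 2 ≤ Real.log x := log8.trans (Real.log_le_log (by norm_num) hx8)
  have hX0 : 0 < X := by linarith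
  have hL1 : Real.log x ≤ L i := by rw [hLe]; exact Real.log_le_log (by linarith) hxX.le
  have hL2 : L i ≤ 2 * Real.log x := by
    rw [hLe]
    have h1 : Real.log X ≤ Real.log (2 * x) := Real.log_le_log hX0 hX2x
    rw [Real.log_mul (by norm_num) (by linarith)] at h1
    have h2 := Real.log_two_lt_d9
    linarith
  refine ⟨i, by rw [← hX]; exact hxX, hL1, ?_⟩
  obtain ⟨j, hj⟩ : ∃ j, j = Nat.log 2 (q - 1) := ⟨_, rfl⟩
  have hj1 : 2 ^ j < q := by
    have := Nat.pow_log_le_self 2 (show q - 1 ≠ 0 by omega)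
    rw [← hj] at this
    omega
  have hj2 : q ≤ 2 * 2 ^ j := by
    have := Nat.lt_pow_succ_log_self (by norm_num : 1 < 2) (q - 1)
    rw [← hj, pow_succ] at this
    omega
  have hP2 : 2 ≤ q.minFac := (Nat.minFac_prime (by omega)).two_le
  have hPq : q.minFac ≤ q := Nat.minFac_le (by omega)
  obtain ⟨k, hk⟩ : ∃ k, k = Nat.log 2 q.minFac := ⟨_, rfl⟩
  have hk1 : 2 ^ k ≤ q.minFac := by rw [hk]; exact Nat.pow_log_le_self 2 (by omega)
  have hk2 : q.minFac < 2 ^ (k + 1) := by rw [hk]; exact Nat.lt_pow_succ_log_self (by norm_num) _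
  have hk0 : 1 ≤ k := by
    rcases Nat.eq_zero_or_pos k with h | h
    · rw [h] at hk2
      omega
    · exact h
  have hkj : k ≤ j + 1 := by
    have h1 : 2 ^ k ≤ 2 ^ (j + 1) := by
      rw [pow_succ]
      omega
    exact (Nat.pow_le_pow_iff_right (by norm_num)).mp h1
  obtain ⟨D, hD⟩ : ∃ D : ℝ, D = 2 ^ j := ⟨_, rfl⟩
  have hD1 : 1 ≤ D := by rw [hD]; exact one_le_pow₀ (by norm_num)
  have hDq : D < q := by rw [hD]; exact_mod_cast hj1
  have hqD : (q:ℝ) ≤ 2 * D := by rw [hD]; exact_mod_cast hj2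
  have hji : j ≤ i := by
    have h1 : (2:ℝ) ^ j < 2 ^ i := by
      rw [← hXe2, ← hD]
      linarith
    exact ((pow_lt_pow_iff_right₀ (by norm_num : (1:ℝ) < 2)).mp h1).le
  unfold T8
  rw [mem_biUnion]
  refine ⟨j, by rw [mem_range]; omega, ?_⟩
  rw [mem_biUnion]
  refine ⟨k, by rw [mem_Icc]; omega, ?_⟩
  unfold T7
  rw [mem_filter, mem_product, mem_Ioc, mem_range]
  refine ⟨⟨⟨hj1, hj2⟩, lt_of_lt_of_le hrq hj2⟩, hk1, hrq, hrc, ⌊x⌋₊, ?_, ?_⟩
  · have h1 : ((⌊x⌋₊ : ℕ) : ℝ) ≤ ((2 ^ i : ℕ) : ℝ) := by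
      rw [← hX]
      exact (Nat.floor_le (by linarith)).trans (by linarith)
    exact_mod_cast h1
  · show VV i j k * L i ^ K ≤ (∑ n ∈ Ioc 0 ⌊x⌋₊, ff q r n) ^ 2
    have e1 := dev_ff (q := q) (b := r) (h := ⌊x⌋₊)
    have e2 : ∑ n ∈ (Icc 1 ⌊x⌋₊).filter (fun n => n ≡ r [MOD q]), ArithmeticFunction.vonMangoldt n = psi x q r := rfl
    rw [e2] at e1
    rw [e1] at hdev
    obtain ⟨S, hS⟩ : ∃ S, S = ∑ n ∈ Ioc 0 ⌊x⌋₊, ff q r n := ⟨_, rfl⟩
    rw [← hS] at hdev ⊢
    have hφ1 : (1:ℝ) ≤ Nat.totient q := by exact_mod_cast Nat.totient_pos.mpr (by omega : 0 < q)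
    have hWn := Wn_le (h := ⌊x⌋₊) (show 1 ≤ q by omega)
    have hWn0 := Wn_nonneg ⌊x⌋₊ q
    have e4 : Real.log ((⌊x⌋₊ : ℕ) : ℝ) ≤ Real.log x := by
      have : 0 < ⌊x⌋₊ := Nat.floor_pos.mpr (by linarith)
      exact Real.log_le_log (by exact_mod_cast this) (Nat.floor_le (by linarith))
    have e4' : 0 ≤ Real.log ((⌊x⌋₊ : ℕ) : ℝ) := Real.log_natCast_nonneg _
    have e5 : Real.log (q:ℝ) ≤ Real.log x := Real.log_le_log (by linarith) hqx
    have e5' : 0 ≤ Real.log (q:ℝ) := Real.log_natCast_nonneg _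
    obtain ⟨l, hl⟩ : ∃ l, l = Real.log x := ⟨_, rfl⟩
    rw [← hl] at hdev e4 e5 hL1 hL2 hlx2
    obtain ⟨M, hM⟩ : ∃ M, M = L i := ⟨_, rfl⟩
    rw [← hM] at hL1 hL2 ⊢
    have hl0 : 0 < l := by linarith
    obtain ⟨P, hP⟩ : ∃ P : ℝ, P = q.minFac := ⟨_, rfl⟩
    rw [← hP] at hdev
    have hP1 : 1 ≤ P := by rw [hP]; exact_mod_cast (by omega : 1 ≤ q.minFac)
    have hP0 : 0 < P := by linarith
    have hPk : P ≤ 2 * 2 ^ k := by
      have h1 : q.minFac ≤ 2 * 2 ^ k := by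
        rw [pow_succ] at hk2
        omega
      rw [hP]
      exact_mod_cast h1
    have f1 : |S - Wn ⌊x⌋₊ q / (Nat.totient q : ℝ)| ≤ |S| + 2 * l ^ 2 := by
      refine (abs_sub _ _).trans ?_
      apply add_le_add le_rfl
      rw [abs_of_nonneg (by positivity)]
      refine (div_le_self hWn0 hφ1).trans (hWn.trans ?_)
      have : 2 * Real.log (q:ℝ) * Real.log ((⌊x⌋₊ : ℕ) : ℝ) ≤ 2 * l * l := by (gcongr)
      linarith
    have hq0 : (0:ℝ) < q := by linarith
    obtain ⟨u, hu⟩ : ∃ u, u = √(x / q) := ⟨_, rfl⟩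
    obtain ⟨v, hv⟩ : ∃ v, v = x / (q * √P) := ⟨_, rfl⟩
    rw [← hu, ← hv] at hdev
    have hsP : 0 < √P := Real.sqrt_pos.mpr hP0
    have hu1 : 1 ≤ u := by
      rw [hu, Real.one_le_sqrt, one_le_div hq0]
      exact hqx
    have hv0 : 0 ≤ v := by rw [hv]; positivity
    have hu2 : u ^ 2 = x / q := by rw [hu]; exact Real.sq_sqrt (by positivity)
    have hv2 : v ^ 2 = x ^ 2 / (q ^ 2 * P) := by rw [hv, div_pow, mul_pow, Real.sq_sqrt hP0.le]
    -- remove the small term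
    have f2 : (u + v) * l ^ (K + 3) < |S| := by
      have g1 : (u + v) * l ^ (K + 4) < |S| + 2 * l ^ 2 := lt_of_lt_of_le hdev f1
      have g2 : 2 * l ^ 2 ≤ l ^ (K + 3) := by
        calc 2 * l ^ 2 ≤ l * l ^ 2 := mul_le_mul_of_nonneg_right hlx2 (by positivity)
          _ = l ^ 3 := by ring
          _ ≤ l ^ (K + 3) := pow_le_pow_right₀ (by linarith) (by omega)
      have g3 : l ^ (K + 3) ≤ (u + v) * l ^ (K + 3) := by
        have : 0 < l ^ (K + 3) := by positivity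
        nlinarith
      have g4 : 2 * ((u + v) * l ^ (K + 3)) ≤ (u + v) * l ^ (K + 4) := by
        have : 0 ≤ (u + v) * l ^ (K + 3) := by positivity
        calc 2 * ((u + v) * l ^ (K + 3)) ≤ l * ((u + v) * l ^ (K + 3)) := mul_le_mul_of_nonneg_right hlx2 this
          _ = _ := by ring
      linarith
    have f3 : ((u + v) * l ^ (K + 3)) ^ 2 ≤ S ^ 2 := by
      rw [← sq_abs S]
      exact pow_le_pow_left₀ (by positivity) f2.le 2
    refine le_trans ?_ f3
    have f4 : M ^ K ≤ l ^ (2 * K) := by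
      calc M ^ K ≤ (2 * l) ^ K := pow_le_pow_left₀ (by linarith) hL2 _
        _ = 2 ^ K * l ^ K := mul_pow _ _ _
        _ ≤ l ^ K * l ^ K := by
          apply mul_le_mul_of_nonneg_right _ (by positivity)
          exact pow_le_pow_left₀ (by norm_num) hlx2 _
        _ = l ^ (2 * K) := by rw [← pow_add]; congr 1; ring
    have hD0 : 0 < D := by linarith
    have f5 : VV i j k ≤ 32 * (u ^ 2 + v ^ 2) := by
      have g1 : VV i j k = X / D + X ^ 2 / (D ^ 2 * 2 ^ k) := by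
        unfold VV
        rw [← hX, ← hD]
        field_simp
        ring
      rw [g1, hu2, hv2]
      have g2 : X / D ≤ 4 * (x / q) := by
        rw [← mul_div_assoc, div_le_div_iff₀ hD0 hq0]
        calc X * q ≤ (2 * x) * (2 * D) := by gcongr
          _ = _ := by ring
      have g3 : X ^ 2 / (D ^ 2 * 2 ^ k) ≤ 32 * (x ^ 2 / (q ^ 2 * P)) := by
        rw [← mul_div_assoc, div_le_div_iff₀ (by positivity) (by positivity)]
        calc X ^ 2 * ((q:ℝ) ^ 2 * P) ≤ (2 * x) ^ 2 * ((2 * D) ^ 2 * (2 * 2 ^ k)) := by gcongr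
          _ = _ := by ring
      have g4 : 0 ≤ x / q := by positivity
      linarith
    have hVV0 : 0 ≤ VV i j k := by
      unfold VV
      positivity
    have f6 : (32:ℝ) ≤ l ^ 6 := by
      calc (32:ℝ) ≤ 2 ^ 6 := by norm_num
        _ ≤ l ^ 6 := pow_le_pow_left₀ (by norm_num) hlx2 6
    have f7 : u ^ 2 + v ^ 2 ≤ (u + v) ^ 2 := by nlinarith
    calc VV i j k * M ^ K ≤ (32 * (u ^ 2 + v ^ 2)) * l ^ (2 * K) := by
          exact mul_le_mul f5 f4 (pow_nonneg (by linarith) K) (by positivity)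
      _ ≤ (l ^ 6 * (u + v) ^ 2) * l ^ (2 * K) := by
          apply mul_le_mul_of_nonneg_right _ (by positivity)
          exact mul_le_mul f6 f7 (by positivity) (by positivity)
      _ = ((u + v) * l ^ (K + 3)) ^ 2 := by ring

/-- **Theorem.** the strong bound -/
theorem main_pairs (B : ℕ) : ∀ᵐ α : ℝ, ∃ x₀ : ℝ, ∀ x : ℝ, x₀ ≤ x → ∀ q : ℕ, 1 ≤ q → (q : ℝ) ≤ x →
    ∀ a : ℤ, IsCoprime a (q : ℤ) → |α - a / q| ≤ Real.log x ^ B / (q : ℝ) ^ 2 →
      |Pool.Agent.D0H48.MO.psiZ x q a - psi0 ⌊x⌋₊ / (Nat.totient q : ℝ)| ≤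
        (√(x / q) + x / (q * √(q.minFac : ℝ))) * Real.log x ^ (2 * B + 20) := by
  filter_upwards [ae_EQ B] with α hα
  have hfin : ∀ᶠ i : ℕ in atTop, ∀ m ∈ Finset.Icc (⌊α⌋ - 3) (⌊α⌋ + 3), α - (m : ℤ) ∉ EQ B (B + 11) i := by
    rw [Filter.eventually_all_finset]
    intro m _
    exact hα m
  obtain ⟨J, hJ⟩ := eventually_atTop.1 hfin
  refine ⟨max (Real.exp 8) ((2 ^ J : ℕ) : ℝ), fun x hx q hq hqx a ha hα1 => ?_⟩
  have hxe : Real.exp 8 ≤ x := (le_max_left _ _).trans hx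
  have hxJ : ((2 ^ J : ℕ) : ℝ) ≤ x := (le_max_right _ _).trans hx
  have hx0 : 0 < x := lt_of_lt_of_le (Real.exp_pos _) hxe
  have hl8 : 8 ≤ Real.log x := by rw [Real.le_log_iff_exp_le hx0]; exact hxe
  have hq0 : (0 : ℝ) < q := by exact_mod_cast (by omega : 0 < q)
  have hq1 : (1 : ℝ) ≤ q := by exact_mod_cast hq
  have hφ1 : (1 : ℝ) ≤ Nat.totient q := by exact_mod_cast Nat.totient_pos.2 (by omega)
  -- the residue
  obtain ⟨r, hr⟩ : ∃ r : ℕ, r = (a % q).toNat := ⟨_, rfl⟩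
  have hrz : (r : ℤ) = a % q := by
    rw [hr]
    exact Int.toNat_of_nonneg (Int.emod_nonneg _ (by omega))
  have hrq : r < q := by
    have := Int.emod_lt_of_pos a (show (0 : ℤ) < q by omega)
    omega
  have hrcop : r.Coprime q := by
    have h1 : IsCoprime (r : ℤ) (q : ℤ) := by
      rw [hrz]
      have h2 : a % (q : ℤ) = a + (-(a / q)) * q := by
        have := Int.emod_add_mul_ediv a q
        linarith
      rw [h2]
      exact (IsCoprime.add_mul_right_left_iff).2 ha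
    exact Nat.isCoprime_iff_coprime.1 h1
  have hpsi : Pool.Agent.D0H48.MO.psiZ x q a = psi x q r := by
    rw [Pool.Agent.D0H48.MO.psiZ_eq x q a hq, ← hr]
    rfl
  rw [hpsi]
  have hP1 : (1:ℝ) ≤ q.minFac := by exact_mod_cast q.minFac_pos
  have hPq : (q.minFac : ℝ) ≤ q := by exact_mod_cast Nat.minFac_le (by omega)
  have hsP : √(q.minFac : ℝ) ≤ q := by
    rw [Real.sqrt_le_left hq0.le]
    nlinarith
  have hsP1 : 1 ≤ √(q.minFac : ℝ) := by rw [Real.one_le_sqrt]; exact hP1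
  obtain ⟨l, hl⟩ : ∃ l, l = Real.log x := ⟨_, rfl⟩
  have hl0 : 0 < l := by rw [hl]; linarith
  rcases le_or_gt (q:ℝ) (l ^ (B + 1)) with hs | hs
  · -- small moduli
    have t0 := triv0' ⌊x⌋₊
    have t00 := psi0_nonneg' ⌊x⌋₊
    have t10 : 0 ≤ psi x q r := sum_nonneg fun _ _ => ArithmeticFunction.vonMangoldt_nonneg
    have t11 : psi x q r ≤ psi0 ⌊x⌋₊ := by
      unfold psi psi0
      exact sum_le_sum_of_subset_of_nonneg (filter_subset _ _) fun _ _ _ => ArithmeticFunction.vonMangoldt_nonneg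
    have t12 : psi0 ⌊x⌋₊ / (Nat.totient q : ℝ) ≤ psi0 ⌊x⌋₊ := div_le_self t00 hφ1
    have t13 : 0 ≤ psi0 ⌊x⌋₊ / (Nat.totient q : ℝ) := by positivity
    have t14 : psi0 ⌊x⌋₊ ≤ x * l := by
      have h1 : 0 < ⌊x⌋₊ := Nat.floor_pos.mpr (by
        have := Real.add_one_le_exp 8
        linarith)
      have h2 : ((⌊x⌋₊ : ℕ) : ℝ) ≤ x := Nat.floor_le hx0.le
      have h3 : Real.log ((⌊x⌋₊ : ℕ) : ℝ) ≤ l := by rw [hl]; exact Real.log_le_log (by exact_mod_cast h1) h2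
      have h4 : 0 ≤ Real.log ((⌊x⌋₊ : ℕ) : ℝ) := Real.log_natCast_nonneg _
      exact t0.trans (mul_le_mul h2 h3 h4 hx0.le)
    have h1 : |psi x q r - psi0 ⌊x⌋₊ / (Nat.totient q : ℝ)| ≤ x * l := by
      rw [abs_le]
      constructor <;> linarith
    refine h1.trans ?_
    rw [← hl]
    have h2 : x / (q * √(q.minFac : ℝ)) * l ^ (2 * B + 20) ≤ (√(x / q) + x / (q * √(q.minFac : ℝ))) * l ^ (2 * B + 20) := by
      apply mul_le_mul_of_nonneg_right _ (by positivity)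
      have := Real.sqrt_nonneg (x / q)
      linarith
    refine le_trans ?_ h2
    rw [div_mul_eq_mul_div, le_div_iff₀ (by positivity)]
    have h3 : (q:ℝ) * √(q.minFac : ℝ) ≤ l ^ (2 * B + 2) := by
      calc (q:ℝ) * √(q.minFac : ℝ) ≤ q * q := mul_le_mul_of_nonneg_left hsP hq0.le
        _ ≤ l ^ (B + 1) * l ^ (B + 1) := mul_le_mul hs hs hq0.le (by positivity)
        _ = l ^ (2 * B + 2) := by rw [← pow_add]; congr 1; ring
    have hl1 : 1 ≤ l := by rw [hl]; linarith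
    calc x * l * (q * √(q.minFac : ℝ)) ≤ x * l * l ^ (2 * B + 2) := mul_le_mul_of_nonneg_left h3 (by positivity)
      _ = x * l ^ (2 * B + 3) := by ring
      _ ≤ x * l ^ (2 * B + 20) := by
          apply mul_le_mul_of_nonneg_left _ hx0.le
          exact pow_le_pow_right₀ hl1 (by omega)
  · -- large moduli
    have hl1 : 1 ≤ l := by rw [hl]; linarith
    have hq8 : 8 ≤ q := by
      have h1 : (8:ℝ) < q := by
        calc (8:ℝ) ≤ l := by rw [hl]; exact hl8
          _ = l ^ 1 := (pow_one l).symm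
          _ ≤ l ^ (B + 1) := pow_le_pow_right₀ hl1 (by omega)
          _ < q := hs
      exact_mod_cast h1.le
    by_contra hcon
    push Not at hcon
    rw [← hl] at hcon hα1
    have hlt : (√(x / q) + x / (q * √(q.minFac : ℝ))) * l ^ (B + 11 + 4) < |psi x q r - psi0 ⌊x⌋₊ / Nat.totient q| := by
      refine lt_of_le_of_lt ?_ hcon
      apply mul_le_mul_of_nonneg_left (pow_le_pow_right₀ hl1 (by omega))
      have := Real.sqrt_nonneg (x / q)
      positivity
    rw [hl] at hlt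
    obtain ⟨i, hi1, hi2, hi3⟩ := scale4 (B + 11) hq8 hqx hrq hrcop hlt
    have hiJ : J ≤ i := by
      have h1 : ((2 ^ J : ℕ) : ℝ) < ((2 ^ i : ℕ) : ℝ) := lt_of_le_of_lt hxJ hi1
      have h2 : 2 ^ J < 2 ^ i := by exact_mod_cast h1
      exact ((Nat.pow_lt_pow_iff_right (by norm_num)).mp h2).le
    obtain ⟨m, hm⟩ : ∃ m : ℤ, m = a / q := ⟨_, rfl⟩
    have ham : (a : ℝ) / q = m + (r : ℝ) / q := by
      have h1 : a = (r : ℤ) + q * m := by
        rw [hrz, hm]
        exact (Int.emod_add_mul_ediv a q).symm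
      have h2 : (a : ℝ) = r + q * m := by exact_mod_cast congrArg (Int.cast : ℤ → ℝ) h1
      rw [h2]
      field_simp
      ring
    have hclose : |α - a / q| ≤ 1 := by
      refine hα1.trans ?_
      rw [div_le_one (by positivity)]
      calc l ^ B ≤ l ^ (B + 1) := pow_le_pow_right₀ hl1 (by omega)
        _ ≤ q := hs.le
        _ ≤ (q:ℝ) ^ 2 := by nlinarith
    have hrq1 : (r:ℝ) / q ≤ 1 := by
      rw [div_le_one hq0]
      exact_mod_cast hrq.le
    have hrq0 : 0 ≤ (r:ℝ) / q := by positivity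
    have hmem : m ∈ Finset.Icc (⌊α⌋ - 3) (⌊α⌋ + 3) := by
      have h1 := (abs_le.mp hclose).1
      have h2 := (abs_le.mp hclose).2
      rw [ham] at h1 h2
      have h3 := Int.floor_le α
      have h4 := Int.lt_floor_add_one α
      rw [Finset.mem_Icc]
      constructor
      · have : (⌊α⌋ : ℝ) - 3 ≤ m := by linarith
        exact_mod_cast this
      · have : (m : ℝ) ≤ ⌊α⌋ + 3 := by linarith
        exact_mod_cast this
    apply hJ i hiJ m hmem
    unfold EQ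
    rw [Set.mem_iUnion₂]
    refine ⟨(q, r), hi3, ?_⟩
    rw [Metric.mem_closedBall, Real.dist_eq]
    have h5 : α - (m : ℝ) - (r:ℝ) / q = α - a / q := by
      rw [ham]
      ring
    show |α - (m : ℝ) - (r:ℝ) / q| ≤ L i ^ B / (q:ℝ) ^ 2
    rw [h5]
    refine hα1.trans ?_
    apply div_le_div_of_nonneg_right _ (by positivity)
    apply pow_le_pow_left₀ hl0.le
    rw [hl]
    exact hi2

end Pool.Agent.D0H48.BM
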