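import Pool.Agent.D0H48.BM.Van
import Pool.Agent.D0H48.BM.Bad
import Pool.Agent.Helper112.Bilinear

/-!
Prime moduli: the distribution of the primes in the residue classes and the primitive characters.
-/

set_option autoImplicit false

open Filter Topology Finset H336V H343 H343.KF
open scoped ENNReal

namespace Pool.Agent.D0H48.BM

open scoped Classical in
/-- the sum of the `|ψ(h, χ)|` over the primitive characters modulo `q` -/
noncomputable def CS (h q : ℕ) : ℝ :=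
  ∑ χ ∈ (univ : Finset (DirichletCharacter ℂ q)).filter (fun χ => χ.IsPrimitive), ‖psiCm h 1 χ‖

/-- `ψ(h)` -/
noncomputable def psi0 (h : ℕ) : ℝ := ∑ n ∈ Icc 1 h, ArithmeticFunction.vonMangoldt n

lemma CS_nonneg (h q : ℕ) : 0 ≤ CS h q := by
  classical
  unfold CS
  exact sum_nonneg fun _ _ => norm_nonneg _

lemma nonprincipal {q : ℕ} (hq : q.Prime) (χ : DirichletCharacter ℂ q) (h : χ ≠ 1) : χ.IsPrimitive := by
  have : NeZero q := ⟨hq.ne_zero⟩
  rw [DirichletCharacter.isPrimitive_def]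
  rcases (Nat.dvd_prime hq).mp χ.conductor_dvd_level with h1 | h1
  · exact absurd ((DirichletCharacter.eq_one_iff_conductor_eq_one).mpr h1) h
  · exact h1

lemma noncop {q h : ℕ} (hq : q.Prime) :
    ∑ n ∈ (Icc 1 h).filter (fun n => ¬ n.Coprime q), ArithmeticFunction.vonMangoldt n ≤ Real.log h := by
  classical
  rcases Nat.eq_zero_or_pos h with h0 | h0
  · subst h0
    simp
  have e1 : ∀ n ∈ (Icc 1 h).filter (fun n => ¬ n.Coprime q), ArithmeticFunction.vonMangoldt n ≠ 0 →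
      n ∈ (Icc 1 (Nat.log q h)).image (fun k => q ^ k) ∧ ArithmeticFunction.vonMangoldt n = Real.log q := by
    intro n hn hne
    rw [mem_filter, mem_Icc] at hn
    rw [ArithmeticFunction.vonMangoldt_ne_zero_iff, isPrimePow_nat_iff] at hne
    obtain ⟨p, k, hp, hk, hpk⟩ := hne
    have hqp : q = p := by
      by_contra hcon
      apply hn.2
      rw [← hpk]
      apply Nat.Coprime.pow_left
      exact (Nat.coprime_primes hp hq).mpr (fun h => hcon h.symm)
    subst hqp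
    refine ⟨?_, ?_⟩
    · rw [mem_image]
      refine ⟨k, ?_, hpk⟩
      rw [mem_Icc]
      refine ⟨hk, ?_⟩
      apply Nat.le_log_of_pow_le hq.one_lt
      rw [hpk]
      exact hn.1.2
    · rw [← hpk, ArithmeticFunction.vonMangoldt_apply_pow hk.ne', ArithmeticFunction.vonMangoldt_apply_prime hq]
  have hlq : 0 ≤ Real.log q := Real.log_natCast_nonneg q
  calc ∑ n ∈ (Icc 1 h).filter (fun n => ¬ n.Coprime q), ArithmeticFunction.vonMangoldt n
      = ∑ n ∈ ((Icc 1 h).filter (fun n => ¬ n.Coprime q)).filter (fun n => ArithmeticFunction.vonMangoldt n ≠ 0),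
          ArithmeticFunction.vonMangoldt n := (sum_filter_ne_zero _).symm
    _ = ∑ n ∈ ((Icc 1 h).filter (fun n => ¬ n.Coprime q)).filter (fun n => ArithmeticFunction.vonMangoldt n ≠ 0),
          Real.log q := by
        apply sum_congr rfl
        intro n hn
        rw [mem_filter] at hn
        exact (e1 n hn.1 hn.2).2
    _ ≤ ∑ n ∈ (Icc 1 (Nat.log q h)).image (fun k => q ^ k), Real.log q := by
        apply sum_le_sum_of_subset_of_nonneg
        · intro n hn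
          rw [mem_filter] at hn
          exact (e1 n hn.1 hn.2).1
        · intro _ _ _
          exact hlq
    _ = ((Icc 1 (Nat.log q h)).image (fun k => q ^ k)).card * Real.log q := by rw [sum_const, nsmul_eq_mul]
    _ ≤ (Nat.log q h) * Real.log q := by
        apply mul_le_mul_of_nonneg_right _ hlq
        have : ((Icc 1 (Nat.log q h)).image (fun k => q ^ k)).card ≤ Nat.log q h := by
          refine card_image_le.trans ?_
          rw [Nat.card_Icc, Nat.add_sub_cancel]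
        exact_mod_cast this
    _ = Real.log ((q ^ (Nat.log q h) : ℕ) : ℝ) := by rw [Nat.cast_pow, Real.log_pow]
    _ ≤ Real.log h := by
        apply Real.log_le_log
        · exact_mod_cast pow_pos hq.pos _
        · exact_mod_cast Nat.pow_log_le_self q (by omega)

lemma dev {q b h : ℕ} (hq : q.Prime) (hb : b.Coprime q) :
    |∑ n ∈ (Icc 1 h).filter (fun n => n ≡ b [MOD q]), ArithmeticFunction.vonMangoldt n - psi0 h / Nat.totient q| ≤
      (CS h q + Real.log h) / Nat.totient q := by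
  classical
  have : NeZero q := ⟨hq.ne_zero⟩
  have hφ : (0:ℝ) < Nat.totient q := by exact_mod_cast Nat.totient_pos.mpr hq.pos
  obtain ⟨P, hP⟩ : ∃ P : ℝ, P = ∑ n ∈ (Icc 1 h).filter (fun n => n.Coprime q), ArithmeticFunction.vonMangoldt n := ⟨_, rfl⟩
  obtain ⟨S, hS⟩ : ∃ S : ℝ, S = ∑ n ∈ (Icc 1 h).filter (fun n => n ≡ b [MOD q]), ArithmeticFunction.vonMangoldt n := ⟨_, rfl⟩
  have e1 : ((S - P / Nat.totient q : ℝ) : ℂ) = (1 / (Nat.totient q : ℂ)) *
      ∑ χ ∈ (univ : Finset (DirichletCharacter ℂ q)).filter (fun χ => χ ≠ 1), χ ((b : ZMod q)⁻¹) * psiCm h 1 χ := by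
    have e2 : S - P / Nat.totient q = ∑ n ∈ Icc 1 h, ArithmeticFunction.vonMangoldt n *
        ((if n ≡ b [MOD q] then (1 : ℝ) else 0) - (if n.Coprime q then (1 : ℝ) / (Nat.totient q : ℝ) else 0)) := by
      rw [hP, hS, sum_filter, sum_filter, sum_div, ← sum_sub_distrib]
      apply sum_congr rfl
      intro n _
      split_ifs <;> ring
    have e3 : ∀ n ∈ Icc 1 h, ((ArithmeticFunction.vonMangoldt n *
        ((if n ≡ b [MOD q] then (1 : ℝ) else 0) - (if n.Coprime q then (1 : ℝ) / (Nat.totient q : ℝ) else 0)) : ℝ) : ℂ) =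
        (1 / (Nat.totient q : ℂ)) * ∑ χ ∈ (univ : Finset (DirichletCharacter ℂ q)).filter (fun χ => χ ≠ 1),
          χ ((b : ZMod q)⁻¹) * ((ArithmeticFunction.vonMangoldt n : ℂ) * χ (n : ZMod q)) := by
      intro n _
      rw [Complex.ofReal_mul, Pool.Agent.Helper112.BLB.bracket q b hb n, mul_left_comm]
      congr 1
      rw [mul_sum]
      apply sum_congr rfl
      intro χ _
      ring
    rw [e2, Complex.ofReal_sum, sum_congr rfl e3, ← mul_sum, sum_comm]
    congr 1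
    apply sum_congr rfl
    intro χ _
    rw [← mul_sum]
    congr 1
    unfold psiCm
    have : (Icc 1 h).filter (fun n => n.Coprime 1) = Icc 1 h := by
      apply filter_true_of_mem
      intro n _
      exact Nat.coprime_one_right n
    rw [this]
  have e4 : |S - P / Nat.totient q| ≤ CS h q / Nat.totient q := by
    rw [← Real.norm_eq_abs, ← Complex.norm_real, e1, norm_mul, norm_div, norm_one, Complex.norm_natCast, div_mul_eq_mul_div, one_mul]
    apply div_le_div_of_nonneg_right _ hφ.le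
    refine (norm_sum_le _ _).trans ?_
    calc ∑ χ ∈ (univ : Finset (DirichletCharacter ℂ q)).filter (fun χ => χ ≠ 1), ‖χ ((b : ZMod q)⁻¹) * psiCm h 1 χ‖
        ≤ ∑ χ ∈ (univ : Finset (DirichletCharacter ℂ q)).filter (fun χ => χ ≠ 1), ‖psiCm h 1 χ‖ := by
          apply sum_le_sum
          intro χ _
          rw [norm_mul]
          exact mul_le_of_le_one_left (norm_nonneg _) (χ.norm_le_one _)
      _ ≤ CS h q := by
          unfold CS
          apply sum_le_sum_of_subset_of_nonneg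
          · intro χ hχ
            rw [mem_filter] at hχ ⊢
            exact ⟨hχ.1, nonprincipal hq χ hχ.2⟩
          · intro _ _ _
            exact norm_nonneg _
  have e5 : psi0 h = P + ∑ n ∈ (Icc 1 h).filter (fun n => ¬ n.Coprime q), ArithmeticFunction.vonMangoldt n := by
    rw [hP]
    unfold psi0
    exact (sum_filter_add_sum_filter_not _ _ _).symm
  have e6 := noncop (h := h) hq
  have e7 : 0 ≤ ∑ n ∈ (Icc 1 h).filter (fun n => ¬ n.Coprime q), ArithmeticFunction.vonMangoldt n :=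
    sum_nonneg fun _ _ => ArithmeticFunction.vonMangoldt_nonneg
  rw [← hS]
  have e8 : S - psi0 h / Nat.totient q = (S - P / Nat.totient q) -
      (∑ n ∈ (Icc 1 h).filter (fun n => ¬ n.Coprime q), ArithmeticFunction.vonMangoldt n) / Nat.totient q := by
    rw [e5, add_div]
    ring
  rw [e8, add_div]
  refine (abs_sub _ _).trans (add_le_add e4 ?_)
  rw [abs_of_nonneg (div_nonneg e7 hφ.le)]
  exact div_le_div_of_nonneg_right e6 hφ.le

/-- the bound of the quality of the generalized Riemann hypothesis for prime moduli -/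
def Sharp (K q : ℕ) : Prop :=
  ∀ x : ℝ, (q : ℝ) ≤ x → ∀ y : ℝ, 0 ≤ y → y ≤ x → ∀ b : ℕ, b.Coprime q →
    |psi y q b - psi0 ⌊y⌋₊ / Nat.totient q| ≤
      (x ^ (1 / 2 : ℝ) + x ^ (5 / 6 : ℝ) / q + x / q ^ 2) * Real.log x ^ K

/-- `X + D X ^ (5 / 6) + D ^ 2 X ^ (1 / 2)` for `X = 2 ^ i`, `D = 2 ^ j` -/
noncomputable def ZZ (i j : ℕ) : ℝ :=
  ((2 ^ i : ℕ) : ℝ) + 2 ^ j * ((2 ^ i : ℕ) : ℝ) ^ (5 / 6 : ℝ) + (2 ^ j) ^ 2 * ((2 ^ i : ℕ) : ℝ) ^ (1 / 2 : ℝ)

/-- `q` is bad at the scale `2 ^ i` -/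
def BadP (K i j q : ℕ) : Prop :=
  q.Prime ∧ ∃ h : ℕ, h ≤ 2 ^ i ∧ ZZ i j * L i ^ K / 2 ^ j ≤ CS h q

lemma two_rpow {x X e : ℝ} (hx : 0 ≤ x) (hX : 0 ≤ X) (h : X ≤ 2 * x) (he : 0 ≤ e) (he1 : e ≤ 1) : X ^ e ≤ 2 * x ^ e := by
  calc X ^ e ≤ (2 * x) ^ e := Real.rpow_le_rpow hX h he
    _ = 2 ^ e * x ^ e := Real.mul_rpow (by norm_num) hx
    _ ≤ 2 ^ (1:ℝ) * x ^ e := by
      apply mul_le_mul_of_nonneg_right _ (Real.rpow_nonneg hx _)
      exact Real.rpow_le_rpow_of_exponent_le (by norm_num) he1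
    _ = _ := by rw [Real.rpow_one]

lemma scale2 (K i0 q : ℕ) (hq : q.Prime) (hq8 : 8 ≤ q) (hqi : 2 ^ i0 ≤ q) (hbad : ¬ Sharp (2 * K + 5) q) :
    ∃ i j, i0 ≤ i ∧ j ≤ i ∧ 2 ^ j < q ∧ q ≤ 2 * 2 ^ j ∧ BadP K i j q := by
  unfold Sharp at hbad
  push Not at hbad
  obtain ⟨x, hqx, y, hy0, hyx, b, hb, hdev⟩ := hbad
  have hq8r : (8:ℝ) ≤ q := by exact_mod_cast hq8
  have hx8 : 8 ≤ x := hq8r.trans hqx
  obtain ⟨n, hn1, hn2⟩ := exists_nat_pow_near (by linarith : (1:ℝ) ≤ x) (by norm_num : (1:ℝ) < 2)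
  obtain ⟨i, hi⟩ : ∃ i, i = n + 1 := ⟨_, rfl⟩
  obtain ⟨X, hX⟩ : ∃ X : ℝ, X = ((2 ^ i : ℕ) : ℝ) := ⟨_, rfl⟩
  have hXe : X = 2 ^ (n + 1) := by rw [hX, hi]; push_cast; rfl
  have hXe2 : X = 2 ^ i := by rw [hX]; push_cast; rfl
  have hxX : x < X := by rw [hXe]; exact hn2
  have hX2x : X ≤ 2 * x := by rw [hXe, pow_succ]; linarith
  have hLe : L i = Real.log X := by rw [hX]; rfl
  have hlx2 : 2 ≤ Real.log x := log8.trans (Real.log_le_log (by norm_num) hx8)
  have hX0 : 0 < X := by linarith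
  have hL1 : Real.log x ≤ L i := by rw [hLe]; exact Real.log_le_log (by linarith) hxX.le
  have hL2 : L i ≤ 2 * Real.log x := by
    rw [hLe]
    have h1 : Real.log X ≤ Real.log (2 * x) := Real.log_le_log hX0 hX2x
    rw [Real.log_mul (by norm_num) (by linarith)] at h1
    have h2 := Real.log_two_lt_d9
    linarith
  obtain ⟨j, hj⟩ : ∃ j, j = Nat.log 2 (q - 1) := ⟨_, rfl⟩
  have hj1 : 2 ^ j < q := by
    have := Nat.pow_log_le_self 2 (show q - 1 ≠ 0 by omega)
    rw [← hj] at this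
    omega
  have hj2 : q ≤ 2 * 2 ^ j := by
    have := Nat.lt_pow_succ_log_self (by norm_num : 1 < 2) (q - 1)
    rw [← hj, pow_succ] at this
    omega
  obtain ⟨D, hD⟩ : ∃ D : ℝ, D = 2 ^ j := ⟨_, rfl⟩
  have hD1 : 1 ≤ D := by rw [hD]; exact one_le_pow₀ (by norm_num)
  have hDq : D < q := by rw [hD]; exact_mod_cast hj1
  have hqD : (q:ℝ) ≤ 2 * D := by rw [hD]; exact_mod_cast hj2
  refine ⟨i, j, ?_, ?_, hj1, hj2, hq, ⌊y⌋₊, ?_, ?_⟩
  · have h2 : ((2 ^ i0 : ℕ) : ℝ) ≤ q := by exact_mod_cast hqi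
    push_cast at h2
    have h1 : (2:ℝ) ^ i0 < 2 ^ i := by
      rw [← hXe2]
      linarith
    exact ((pow_lt_pow_iff_right₀ (by norm_num : (1:ℝ) < 2)).mp h1).le
  · have h1 : (2:ℝ) ^ j < 2 ^ i := by
      rw [← hXe2, ← hD]
      linarith
    exact ((pow_lt_pow_iff_right₀ (by norm_num : (1:ℝ) < 2)).mp h1).le
  · have h1 : ((⌊y⌋₊ : ℕ) : ℝ) ≤ ((2 ^ i : ℕ) : ℝ) := by
      rw [← hX]
      exact (Nat.floor_le hy0).trans (by linarith)
    exact_mod_cast h1
  · have e1 := dev (h := ⌊y⌋₊) hq hb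
    have e2 : ∑ n ∈ (Icc 1 ⌊y⌋₊).filter (fun n => n ≡ b [MOD q]), ArithmeticFunction.vonMangoldt n = psi y q b := rfl
    rw [e2] at e1
    have hφ : (Nat.totient q : ℝ) = q - 1 := by
      rw [Nat.totient_prime hq, Nat.cast_sub hq.one_lt.le, Nat.cast_one]
    have hφ0 : (0:ℝ) < Nat.totient q := by rw [hφ]; linarith
    have e3 := lt_of_lt_of_le hdev e1
    rw [lt_div_iff₀ hφ0, hφ] at e3
    have e4 : Real.log ((⌊y⌋₊ : ℕ) : ℝ) ≤ Real.log x := by
      rcases Nat.eq_zero_or_pos ⌊y⌋₊ with h0 | h0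
      · rw [h0]; simp; linarith
      · exact Real.log_le_log (by exact_mod_cast h0) ((Nat.floor_le hy0).trans hyx)
    obtain ⟨l, hl⟩ : ∃ l, l = Real.log x := ⟨_, rfl⟩
    rw [← hl] at e3 e4 hL1 hL2 hlx2
    obtain ⟨M, hM⟩ : ∃ M, M = L i := ⟨_, rfl⟩
    rw [← hM] at hL1 hL2 ⊢
    have g1 : X ^ (1 / 2 : ℝ) ≤ 2 * x ^ (1 / 2 : ℝ) := two_rpow (by linarith) hX0.le hX2x (by norm_num) (by norm_num)
    have g2 : X ^ (5 / 6 : ℝ) ≤ 2 * x ^ (5 / 6 : ℝ) := two_rpow (by linarith) hX0.le hX2x (by norm_num) (by norm_num)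
    have hZ : ZZ i j / 2 ^ j = X / D + X ^ (5 / 6 : ℝ) + D * X ^ (1 / 2 : ℝ) := by
      unfold ZZ
      rw [← hX, ← hD]
      field_simp
    rw [mul_div_right_comm, hZ]
    obtain ⟨s, hs⟩ : ∃ s, s = x ^ (1 / 2 : ℝ) := ⟨_, rfl⟩
    obtain ⟨t, ht⟩ : ∃ t, t = x ^ (5 / 6 : ℝ) := ⟨_, rfl⟩
    obtain ⟨S, hS⟩ : ∃ S, S = X ^ (1 / 2 : ℝ) := ⟨_, rfl⟩
    obtain ⟨T, hT⟩ : ∃ T, T = X ^ (5 / 6 : ℝ) := ⟨_, rfl⟩
    rw [← hs, ← hS] at g1
    rw [← ht, ← hT] at g2
    rw [← hs, ← ht] at e3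
    rw [← hS, ← hT]
    have hS1 : 1 ≤ S := by rw [hS]; exact Real.one_le_rpow (by linarith) (by norm_num)
    have hT0 : 0 ≤ T := by rw [hT]; positivity
    have hs0 : 0 ≤ s := by rw [hs]; exact Real.rpow_nonneg (by linarith) _
    have ht0 : 0 ≤ t := by rw [ht]; exact Real.rpow_nonneg (by linarith) _
    have hD0 : 0 < D := by linarith
    have hq0 : (0:ℝ) < q := by linarith
    obtain ⟨W, hW⟩ : ∃ W, W = X / D + T + D * S := ⟨_, rfl⟩
    rw [← hW]
    have hXD : 0 ≤ X / D := by positivity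
    have hW1 : 1 ≤ W := by
      rw [hW]
      nlinarith
    have f1 : W ≤ 8 * ((s + t / q + x / q ^ 2) * (q - 1)) := by
      have k1 : (q:ℝ) / 2 ≤ q - 1 := by linarith
      have k2 : 0 ≤ s + t / q + x / q ^ 2 := by positivity
      have k3 : (s + t / q + x / q ^ 2) * (q / 2) ≤ (s + t / q + x / q ^ 2) * (q - 1) := mul_le_mul_of_nonneg_left k1 k2
      have k4 : (s + t / q + x / q ^ 2) * (q / 2) = (s * q + t + x / q) / 2 := by field_simp
      have k5 : X / D ≤ 4 * (x / q) := by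
        rw [← mul_div_assoc, div_le_div_iff₀ hD0 hq0]
        calc X * (q:ℝ) ≤ (2 * x) * (2 * D) := by gcongr
          _ = 4 * x * D := by ring
      have k6 : D * S ≤ 2 * (s * q) := by
        calc D * S ≤ q * (2 * s) := by gcongr
          _ = _ := by ring
      have k7 : 0 ≤ s * q := by positivity
      rw [hW]
      linarith
    have f2 : (s + t / q + x / q ^ 2) * l ^ (2 * K + 5) * (q - 1) = ((s + t / q + x / q ^ 2) * (q - 1)) * l ^ (2 * K + 5) := by ring
    rw [f2] at e3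
    have hl0 : 0 < l := by linarith
    have f3 : M ^ K ≤ l ^ (2 * K) := by
      calc M ^ K ≤ (2 * l) ^ K := pow_le_pow_left₀ (by linarith) hL2 _
        _ = 2 ^ K * l ^ K := mul_pow _ _ _
        _ ≤ l ^ K * l ^ K := by
          apply mul_le_mul_of_nonneg_right _ (by positivity)
          exact pow_le_pow_left₀ (by norm_num) hlx2 _
        _ = l ^ (2 * K) := by rw [← pow_add]; congr 1; ring
    have f4 : 8 * (l ^ (2 * K) + l) ≤ l ^ (2 * K + 5) := by
      have k1 : l ^ (2 * K) ≤ l ^ (2 * K + 1) := pow_le_pow_right₀ (by linarith) (by omega)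
      have k2 : l ≤ l ^ (2 * K + 1) := by
        calc l = l ^ 1 := (pow_one l).symm
          _ ≤ _ := pow_le_pow_right₀ (by linarith) (by omega)
      have k3 : (16:ℝ) ≤ l ^ 4 := by
        calc (16:ℝ) = 2 ^ 4 := by norm_num
          _ ≤ l ^ 4 := pow_le_pow_left₀ (by norm_num) hlx2 4
      calc 8 * (l ^ (2 * K) + l) ≤ 16 * l ^ (2 * K + 1) := by linarith
        _ ≤ l ^ 4 * l ^ (2 * K + 1) := mul_le_mul_of_nonneg_right k3 (by positivity)
        _ = _ := by rw [← pow_add]; congr 1; ring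
    have f5 : W * l ^ (2 * K + 5) ≤ 8 * (((s + t / q + x / q ^ 2) * (q - 1)) * l ^ (2 * K + 5)) := by
      calc W * l ^ (2 * K + 5) ≤ (8 * ((s + t / q + x / q ^ 2) * (q - 1))) * l ^ (2 * K + 5) :=
            mul_le_mul_of_nonneg_right f1 (by positivity)
        _ = _ := by ring
    have f6 : W * (8 * (l ^ (2 * K) + l)) ≤ W * l ^ (2 * K + 5) := mul_le_mul_of_nonneg_left f4 (by linarith)
    have f7 : W * M ^ K ≤ W * l ^ (2 * K) := mul_le_mul_of_nonneg_left f3 (by linarith)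
    have f8 : l ≤ W * l := by nlinarith
    nlinarith

end Pool.Agent.D0H48.BM
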