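import Pool.Agent.D0H48.BM.Maj

/-!
Sums over primitive characters of the maxima of sharp bilinear sums, second part.
-/

set_option autoImplicit false

open Finset MeasureTheory H336V H343 H343.KF H336V.SepSharp H336V.TTsL

namespace Pool.Agent.D0H48.BM

/-- separation of the variables with the majorant -/
lemma sup_sep {Y J y : ℕ} (hJ : Y < 2 ^ J) (hyY : y ≤ Y) (α β : ℕ → ℂ) {q : ℕ} (χ : DirichletCharacter ℂ q) :
    ‖TTs y 1 α β χ‖ ≤ ∑ j ∈ range J, ∫ η, MM (1 + Real.log Y) η *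
      (‖PP (dy j α) 1 (2 ^ (j + 1)) η χ‖ * ‖PP β 1 (Y / 2 ^ j) η χ‖) := by
  rcases Nat.eq_zero_or_pos y with hy0 | hy
  · subst hy0
    have e0 : TTs 0 1 α β χ = 0 := by
      unfold TTs
      simp
    rw [e0, norm_zero]
    refine sum_nonneg fun j _ => integral_nonneg fun η => ?_
    have hl := Real.log_natCast_nonneg Y
    have := MM_nonneg (L := 1 + Real.log Y) (by linarith) η
    positivity
  have hY1 : 1 ≤ Y := by omega
  have hlY := Real.log_natCast_nonneg Y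
  have hL1 : 1 ≤ 1 + Real.log Y := by linarith
  -- the kernel
  have hy0 : (0:ℝ) < y := by exact_mod_cast hy
  have hy1 : (1:ℝ) ≤ y := by exact_mod_cast hy
  obtain ⟨a, ha⟩ : ∃ a, a = Real.log y := ⟨_, rfl⟩
  obtain ⟨b, hb⟩ : ∃ b, b = Real.log ((y + 1 : ℕ) : ℝ) := ⟨_, rfl⟩
  have ha0 : 0 ≤ a := by rw [ha]; exact Real.log_nonneg hy1
  have hab : a < b := by
    rw [ha, hb]
    apply Real.log_lt_log hy0
    push_cast; linarith
  have hd1 : b - a ≤ 1 := by
    have hba : b - a = Real.log (1 + 1 / y) := by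
      rw [ha, hb, ← Real.log_div (by positivity) (by positivity)]
      congr 1; push_cast; field_simp
    rw [hba]
    have h1 := Real.log_le_sub_one_of_pos (show (0:ℝ) < 1 + 1 / y by positivity)
    have h2 : 1 / (y:ℝ) ≤ 1 := by rw [div_le_one hy0]; exact hy1
    linarith
  have hG : ∀ n : ℕ, 1 ≤ n → (∫ ξ, (gg a b ξ : ℂ) * ex (ξ * Real.log n)) = if n ≤ y then 1 else 0 := by
    intro n hn
    rw [inversion ha0 hab hd1]
    have hn0 : (0:ℝ) < n := by exact_mod_cast hn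
    have hn1 : (1:ℝ) ≤ n := by exact_mod_cast hn
    have hln : 0 ≤ Real.log n := Real.log_nonneg hn1
    have hd0 : 0 < b - a := by linarith
    unfold SepSharp.TT tent
    rw [abs_of_nonneg hln]
    split_ifs with h
    · have h1 : Real.log n ≤ a := by rw [ha]; exact Real.log_le_log hn0 (by exact_mod_cast h)
      rw [max_eq_left (by linarith), max_eq_left (by linarith)]
      have : (b - Real.log n - (a - Real.log n)) / (b - a) = 1 := by
        rw [div_eq_one_iff_eq hd0.ne']; ring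
      rw [this]
      norm_num
    · have h1 : b ≤ Real.log n := by
        rw [hb]
        apply Real.log_le_log (by positivity)
        exact_mod_cast (by omega : y + 1 ≤ n)
      rw [max_eq_right (by linarith), max_eq_right (by linarith)]
      norm_num
  obtain ⟨hgi, -⟩ := gg_int ha0 hab hd1
  have hGi : Integrable (fun ξ => (gg a b ξ : ℂ)) := by
    have h2 : Integrable (gg a b) := by
      refine hgi.mono' (gg_continuous a b).aestronglyMeasurable ?_
      exact Filter.Eventually.of_forall fun ξ => le_rfl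
    exact h2.ofReal
  -- the dyadic decomposition
  obtain ⟨g, hg⟩ : ∃ g : ℕ → ℕ → ℂ, g = fun k l => (α k * χ (k : ZMod q)) * (β l * χ (l : ZMod q)) := ⟨_, rfl⟩
  have e1 : TTs y 1 α β χ = ∑ n ∈ Icc 1 Y, ∑ i ∈ n.divisorsAntidiagonal, (if i.1 * i.2 ≤ y then g i.1 i.2 else 0) := by
    have e2 : ∑ n ∈ Icc 1 Y, ∑ i ∈ n.divisorsAntidiagonal, (if i.1 * i.2 ≤ y then g i.1 i.2 else 0) =
        ∑ n ∈ Icc 1 Y, if n ≤ y then ∑ i ∈ n.divisorsAntidiagonal, g i.1 i.2 else 0 := by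
      apply sum_congr rfl
      intro n _
      split_ifs with hn
      · apply sum_congr rfl
        intro i hi
        rw [(Nat.mem_divisorsAntidiagonal.1 hi).1, if_pos hn]
      · apply sum_eq_zero
        intro i hi
        rw [(Nat.mem_divisorsAntidiagonal.1 hi).1, if_neg hn]
    rw [e2, ← sum_filter]
    unfold TTs
    have e3 : (Icc 1 y).filter (fun n => n.Coprime 1) = (Icc 1 Y).filter (fun n => n ≤ y) := by
      ext n
      simp only [mem_filter, mem_Icc, Nat.coprime_one_right_eq_true, and_true]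
      omega
    rw [e3]
    apply sum_congr rfl
    intro n _
    rw [sum_mul]
    apply sum_congr rfl
    intro i hi
    rw [hg]
    simp only
    rw [← (Nat.mem_divisorsAntidiagonal.1 hi).1]
    push_cast
    rw [map_mul]
    ring
  rw [e1, dyadic_sharp Y J hJ (fun k l => if k * l ≤ y then g k l else 0)]
  refine (norm_sum_le _ _).trans (sum_le_sum fun j _ => ?_)
  have e2 : ∀ k l : ℕ, (if k * l ≤ Y then (if k * l ≤ y then g k l else 0) else 0) =
      (α k * χ (k : ZMod q)) * (β l * χ (l : ZMod q)) * (if k * l ≤ y then (1 : ℂ) else 0) := by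
    intro k l
    rw [hg]
    by_cases h : k * l ≤ y
    · rw [if_pos (h.trans hyY), if_pos h, if_pos h, mul_one]
    · rw [if_neg h, if_neg h, mul_zero, ite_self]
  simp only [e2]
  have hS : ∀ k ∈ Ico (2 ^ j) (2 ^ (j + 1)), 1 ≤ k := by
    intro k hk
    rw [mem_Ico] at hk
    exact Nat.one_le_two_pow.trans hk.1
  refine (sep_boundC hGi (W := fun k l => if k * l ≤ y then (1 : ℂ) else 0)
    (Ico (2 ^ j) (2 ^ (j + 1))) (Icc 1 (Y / 2 ^ j)) hS (fun l hl => (mem_Icc.1 hl).1)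
    (fun k hk l hl => ?_) _ _).trans ?_
  · exact (hG (k * l) (Nat.mul_pos (hS k hk) (mem_Icc.1 hl).1)).symm
  · obtain ⟨F, hF⟩ : ∃ F : ℝ → ℝ, F = fun η => ‖PP (dy j α) 1 (2 ^ (j + 1)) η χ‖ * ‖PP β 1 (Y / 2 ^ j) η χ‖ := ⟨_, rfl⟩
    have hFc : Continuous F := by
      rw [hF]
      exact (PP_cont _ _ _ χ).norm.mul (PP_cont _ _ _ χ).norm
    have hF0 : ∀ η, 0 ≤ F η := fun η => by rw [hF]; positivity
    have hFb : ∃ C, ∀ η, F η ≤ C := by
      obtain ⟨C1, h1⟩ := PP_bdd (dy j α) 1 (2 ^ (j + 1)) χ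
      obtain ⟨C2, h2⟩ := PP_bdd β 1 (Y / 2 ^ j) χ
      refine ⟨C1 * C2, fun η => ?_⟩
      rw [hF]
      exact mul_le_mul (h1 η) (h2 η) (norm_nonneg _) ((norm_nonneg _).trans (h1 η))
    obtain ⟨C, hC⟩ := hFb
    have e3 : ∀ η : ℝ, ‖(gg a b η : ℂ)‖ * (‖∑ k ∈ Ico (2 ^ j) (2 ^ (j + 1)), (α k * χ (k : ZMod q)) * ex (η * Real.log k)‖ *
        ‖∑ l ∈ Icc 1 (Y / 2 ^ j), (β l * χ (l : ZMod q)) * ex (η * Real.log l)‖) = |gg a b η| * F η := by
      intro η
      rw [Complex.norm_real, Real.norm_eq_abs, hF]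
      congr 2
      · congr 1
        unfold PP
        have : ∑ k ∈ Icc 1 (2 ^ (j + 1)), tw (dy j α) 1 η k * χ (k : ZMod q) =
            ∑ k ∈ Ico (2 ^ j) (2 ^ (j + 1)), tw (dy j α) 1 η k * χ (k : ZMod q) := by
          apply sum_eq_of_zero
          · intro k _ hk'
            unfold tw dy
            rw [if_neg hk']
            simp
          · intro k hk hk'
            exfalso
            rw [mem_Ico] at hk
            rw [mem_Icc] at hk'
            exact hk' ⟨Nat.one_le_two_pow.trans hk.1, hk.2.le⟩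
        rw [this]
        apply sum_congr rfl
        intro k hk
        unfold tw dy
        rw [if_pos hk, if_pos (Nat.coprime_one_right k)]
        ring
      · congr 1
        unfold PP
        apply sum_congr rfl
        intro k _
        unfold tw
        rw [if_pos (Nat.coprime_one_right k)]
        ring
    simp only [e3]
    have hMi := (MM_int hL1).1
    apply integral_mono_ae
    · refine Integrable.mono' (hgi.mul_const C) ((gg_continuous a b).abs.mul hFc).aestronglyMeasurable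
        (Filter.Eventually.of_forall fun η => ?_)
      rw [Real.norm_of_nonneg (mul_nonneg (abs_nonneg _) (hF0 η))]
      exact mul_le_mul_of_nonneg_left (hC η) (abs_nonneg _)
    · have hI : Integrable (fun η => MM (1 + Real.log Y) η * F η) := by
        refine Integrable.mono' (hMi.mul_const C) (hMi.aestronglyMeasurable.mul hFc.aestronglyMeasurable)
          (Filter.Eventually.of_forall fun η => ?_)
        have h0 := MM_nonneg hL1 η
        rw [Real.norm_of_nonneg (mul_nonneg h0 (hF0 η))]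
        exact mul_le_mul_of_nonneg_left (hC η) h0
      rw [hF] at hI
      exact hI
    · have h0 : ∀ᵐ η : ℝ, η ≠ 0 := by
        rw [ae_iff]
        simp
      filter_upwards [h0] with η hη
      have h1 := gg_maj hy hyY hη
      rw [← ha, ← hb] at h1
      have h2 := mul_le_mul_of_nonneg_right h1 (hF0 η)
      rw [hF] at h2 ⊢
      exact h2

/-- the large sieve and Cauchy's inequality at one point -/
lemma point (D K N : ℕ) (α β : ℕ → ℂ) (A B : ℝ) (hA : ∑ k ∈ Icc 1 K, ‖α k‖ ^ 2 ≤ A) (hB : ∑ l ∈ Icc 1 N, ‖β l‖ ^ 2 ≤ B)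
    (η : ℝ) : ∑ p ∈ PC D, ‖PP α 1 K η p.2‖ * ‖PP β 1 N η p.2‖ ≤
      24 * (Real.sqrt (((K : ℝ) + (D : ℝ) ^ 2) * A) * Real.sqrt (((N : ℝ) + (D : ℝ) ^ 2) * B)) := by
  have key : ∀ (K : ℕ) (α : ℕ → ℂ) (A : ℝ), ∑ k ∈ Icc 1 K, ‖α k‖ ^ 2 ≤ A →
      ∑ p ∈ PC D, ‖PP α 1 K η p.2‖ ^ 2 ≤ 24 * (((K : ℝ) + (D : ℝ) ^ 2) * A) := by
    intro K α A hA
    have h1 := LSaux.prim_sum_le D K (tw α 1 η)
    have h2 : ∑ n ∈ Icc 1 K, ‖tw α 1 η n‖ ^ 2 ≤ A := by
      refine le_trans (sum_le_sum fun n _ => ?_) hA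
      exact pow_le_pow_left₀ (norm_nonneg _) (tw_norm α 1 η n) 2
    unfold PC
    rw [sum_sigma]
    calc _ ≤ 24 * ((K : ℝ) + (D : ℝ) ^ 2) * ∑ n ∈ Icc 1 K, ‖tw α 1 η n‖ ^ 2 := h1
      _ ≤ 24 * ((K : ℝ) + (D : ℝ) ^ 2) * A := mul_le_mul_of_nonneg_left h2 (by positivity)
      _ = _ := by ring
  have hA0 : 0 ≤ A := (sum_nonneg fun _ _ => by positivity).trans hA
  have hB0 : 0 ≤ B := (sum_nonneg fun _ _ => by positivity).trans hB
  have h1 := key K α A hA
  have h2 := key N β B hB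
  have h3 := Real.sum_mul_le_sqrt_mul_sqrt (PC D) (fun p => ‖PP α 1 K η p.2‖) (fun p => ‖PP β 1 N η p.2‖)
  refine h3.trans ?_
  have e1 : Real.sqrt (24 * (((K : ℝ) + (D : ℝ) ^ 2) * A)) * Real.sqrt (24 * (((N : ℝ) + (D : ℝ) ^ 2) * B)) =
      24 * (Real.sqrt (((K : ℝ) + (D : ℝ) ^ 2) * A) * Real.sqrt (((N : ℝ) + (D : ℝ) ^ 2) * B)) := by
    rw [Real.sqrt_mul (by norm_num : (0:ℝ) ≤ 24) (((K : ℝ) + (D : ℝ) ^ 2) * A),
      Real.sqrt_mul (by norm_num : (0:ℝ) ≤ 24) (((N : ℝ) + (D : ℝ) ^ 2) * B)]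
    have : Real.sqrt 24 * Real.sqrt 24 = 24 := Real.mul_self_sqrt (by norm_num)
    calc Real.sqrt 24 * Real.sqrt (((K : ℝ) + (D : ℝ) ^ 2) * A) * (Real.sqrt 24 * Real.sqrt (((N : ℝ) + (D : ℝ) ^ 2) * B))
        = (Real.sqrt 24 * Real.sqrt 24) * (Real.sqrt (((K : ℝ) + (D : ℝ) ^ 2) * A) * Real.sqrt (((N : ℝ) + (D : ℝ) ^ 2) * B)) := by ring
      _ = _ := by rw [this]
  rw [← e1]
  exact mul_le_mul (Real.sqrt_le_sqrt h1) (Real.sqrt_le_sqrt h2) (Real.sqrt_nonneg _) (Real.sqrt_nonneg _)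

/-- the sum over the primitive characters of the sharp bilinear sums, with arbitrary heights -/
theorem bil {D Y J : ℕ} (hJ : Y < 2 ^ J) (α β : ℕ → ℂ) (B : ℝ)
    (hB : ∀ j ∈ range J, ∀ η : ℝ, ∑ p ∈ PC D, ‖PP (dy j α) 1 (2 ^ (j + 1)) η p.2‖ * ‖PP β 1 (Y / 2 ^ j) η p.2‖ ≤ B)
    (h : (Σ q : ℕ, DirichletCharacter ℂ q) → ℕ) (hh : ∀ p, h p ≤ Y) :
    ∑ p ∈ PC D, ‖TTs (h p) 1 α β p.2‖ ≤ J * (12 * (1 + Real.log Y) * B) := by
  have hlY := Real.log_natCast_nonneg Y
  have hL1 : 1 ≤ 1 + Real.log Y := by linarith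
  obtain ⟨hMi, hM⟩ := MM_int hL1
  have hint : ∀ (j : ℕ) (p : Σ q : ℕ, DirichletCharacter ℂ q), Integrable (fun η => MM (1 + Real.log Y) η *
      (‖PP (dy j α) 1 (2 ^ (j + 1)) η p.2‖ * ‖PP β 1 (Y / 2 ^ j) η p.2‖)) := by
    intro j p
    obtain ⟨C1, h1⟩ := PP_bdd (dy j α) 1 (2 ^ (j + 1)) p.2
    obtain ⟨C2, h2⟩ := PP_bdd β 1 (Y / 2 ^ j) p.2
    refine Integrable.mono' (hMi.mul_const (C1 * C2)) (hMi.aestronglyMeasurable.mul
      ((PP_cont _ _ _ p.2).norm.mul (PP_cont _ _ _ p.2).norm).aestronglyMeasurable) (Filter.Eventually.of_forall fun η => ?_)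
    have h0 := MM_nonneg hL1 η
    rw [Real.norm_of_nonneg (by positivity)]
    apply mul_le_mul_of_nonneg_left _ h0
    exact mul_le_mul (h1 η) (h2 η) (norm_nonneg _) ((norm_nonneg _).trans (h1 η))
  calc ∑ p ∈ PC D, ‖TTs (h p) 1 α β p.2‖ ≤ ∑ p ∈ PC D, ∑ j ∈ range J, ∫ η, MM (1 + Real.log Y) η *
        (‖PP (dy j α) 1 (2 ^ (j + 1)) η p.2‖ * ‖PP β 1 (Y / 2 ^ j) η p.2‖) :=
        sum_le_sum fun p _ => sup_sep hJ (hh p) α β p.2
    _ = ∑ j ∈ range J, ∫ η, ∑ p ∈ PC D, MM (1 + Real.log Y) η *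
        (‖PP (dy j α) 1 (2 ^ (j + 1)) η p.2‖ * ‖PP β 1 (Y / 2 ^ j) η p.2‖) := by
        rw [sum_comm]
        apply sum_congr rfl
        intro j _
        rw [integral_finset_sum _ fun p _ => hint j p]
    _ ≤ ∑ j ∈ range J, ∫ η, MM (1 + Real.log Y) η * B := by
        apply sum_le_sum
        intro j hj
        apply integral_mono (integrable_finset_sum _ fun p _ => hint j p) (hMi.mul_const B)
        intro η
        simp only
        rw [← mul_sum]
        exact mul_le_mul_of_nonneg_left (hB j hj η) (MM_nonneg hL1 η)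
    _ ≤ ∑ j ∈ range J, 12 * (1 + Real.log Y) * B := by
        apply sum_le_sum
        intro j hj
        rw [integral_mul_const]
        apply mul_le_mul_of_nonneg_right hM
        exact (sum_nonneg fun p _ => by positivity).trans (hB j hj 0)
    _ = _ := by rw [sum_const, card_range, nsmul_eq_mul]

end Pool.Agent.D0H48.BM
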