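import Pool.Agent.D0H48.BM.Gf
import Pool.Agent.D0H48.BM.Gen

/-!
The two bounds together.
-/

set_option autoImplicit false

open Filter Topology Finset
open scoped ENNReal

namespace Pool.Agent.D0H48.BM

/-- the final bound: the primes are well distributed in all residue classes modulo `q` -/
def Uni (A K q : ℕ) : Prop :=
  ∀ x : ℝ, (q : ℝ) ≤ x → ∀ y : ℝ, 0 ≤ y → y ≤ x → ∀ b : ℕ, b.Coprime q →
    |psi y q b - psi0 ⌊y⌋₊ / Nat.totient q| ≤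
      (x ^ (1 / 2 : ℝ) + x ^ (5 / 6 : ℝ) / q) * Real.log x ^ K +
        x / q * min (1 / Real.log x ^ A) (Real.log x ^ K / q.minFac)

/-- the trivial bound -/
lemma card_class (h q b : ℕ) : (((Icc 1 h).filter (fun n => n ≡ b [MOD q])).card : ℝ) ≤ h / q + 1 := by
  have h1 : ((Icc 1 h).filter (fun n => n ≡ b [MOD q])).card ≤ (range (h / q + 1)).card := by
    apply card_le_card_of_injOn (fun n => n / q)
    · intro n hn
      rw [mem_coe, mem_filter, mem_Icc] at hn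
      rw [mem_coe, mem_range]
      exact Nat.lt_succ_of_le (Nat.div_le_div_right hn.1.2)
    · intro n hn m hm hnm
      rw [mem_coe, mem_filter] at hn hm
      simp only at hnm
      have h2 : n % q = m % q := (hn.2.trans hm.2.symm)
      rw [← Nat.div_add_mod n q, ← Nat.div_add_mod m q, hnm, h2]
  rw [card_range] at h1
  calc (((Icc 1 h).filter (fun n => n ≡ b [MOD q])).card : ℝ) ≤ ((h / q + 1 : ℕ) : ℝ) := by exact_mod_cast h1
    _ ≤ h / q + 1 := by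
      push_cast
      have : ((h / q : ℕ) : ℝ) ≤ (h:ℝ) / q := Nat.cast_div_le
      linarith

lemma triv1 (h q b : ℕ) :
    ∑ n ∈ (Icc 1 h).filter (fun n => n ≡ b [MOD q]), ArithmeticFunction.vonMangoldt n ≤ ((h:ℝ) / q + 1) * Real.log h := by
  have hl := Real.log_natCast_nonneg h
  calc ∑ n ∈ (Icc 1 h).filter (fun n => n ≡ b [MOD q]), ArithmeticFunction.vonMangoldt n
      ≤ ∑ n ∈ (Icc 1 h).filter (fun n => n ≡ b [MOD q]), Real.log h := by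
        apply sum_le_sum
        intro n hn
        rw [mem_filter, mem_Icc] at hn
        refine ArithmeticFunction.vonMangoldt_le_log.trans ?_
        exact Real.log_le_log (by exact_mod_cast hn.1.1) (by exact_mod_cast hn.1.2)
    _ = ((Icc 1 h).filter (fun n => n ≡ b [MOD q])).card * Real.log h := by rw [sum_const, nsmul_eq_mul]
    _ ≤ _ := mul_le_mul_of_nonneg_right (card_class h q b) hl

lemma triv0 (h : ℕ) : psi0 h ≤ h * Real.log h := by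
  unfold psi0
  calc ∑ n ∈ Icc 1 h, ArithmeticFunction.vonMangoldt n ≤ ∑ n ∈ Icc 1 h, Real.log h := by
        apply sum_le_sum
        intro n hn
        rw [mem_Icc] at hn
        refine ArithmeticFunction.vonMangoldt_le_log.trans ?_
        exact Real.log_le_log (by exact_mod_cast hn.1) (by exact_mod_cast hn.2)
    _ = h * Real.log h := by rw [sum_const, nsmul_eq_mul, Nat.card_Icc, Nat.add_sub_cancel]

lemma psi0_nonneg (h : ℕ) : 0 ≤ psi0 h := sum_nonneg fun _ _ => ArithmeticFunction.vonMangoldt_nonneg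

/-- the trivial bound for small `x` -/
lemma uni_triv {K1 q : ℕ} {x y : ℝ} (b : ℕ) (hq8 : 8 ≤ q) (hqx : (q:ℝ) ≤ x) (hy0 : 0 ≤ y) (hyx : y ≤ x)
    (hx : x < (q:ℝ) ^ 2 * Real.log x ^ K1) :
    |psi y q b - psi0 ⌊y⌋₊ / Nat.totient q| ≤ x ^ (1 / 2 : ℝ) * Real.log x ^ (K1 + 5) := by
  have hq8r : (8:ℝ) ≤ q := by exact_mod_cast hq8
  have hx8 : 8 ≤ x := hq8r.trans hqx
  have hlx2 : 2 ≤ Real.log x := log8.trans (Real.log_le_log (by norm_num) hx8)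
  have hfl : ((⌊y⌋₊ : ℕ) : ℝ) ≤ x := (Nat.floor_le hy0).trans hyx
  have e4 : Real.log ((⌊y⌋₊ : ℕ) : ℝ) ≤ Real.log x := by
    rcases Nat.eq_zero_or_pos ⌊y⌋₊ with h0 | h0
    · rw [h0]; simp; linarith
    · exact Real.log_le_log (by exact_mod_cast h0) hfl
  have e4' : 0 ≤ Real.log ((⌊y⌋₊ : ℕ) : ℝ) := Real.log_natCast_nonneg _
  have e5 : Real.log (q:ℝ) ≤ Real.log x := Real.log_le_log (by linarith) hqx
  have hφ0 : (0:ℝ) < Nat.totient q := by exact_mod_cast Nat.totient_pos.mpr (by omega : 0 < q)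
  have hlow := totient_low (show 3 ≤ q by omega)
  obtain ⟨l, hl⟩ : ∃ l, l = Real.log x := ⟨_, rfl⟩
  rw [← hl] at hlx2 e4 e5 hx ⊢
  obtain ⟨s, hs⟩ : ∃ s, s = x ^ (1 / 2 : ℝ) := ⟨_, rfl⟩
  rw [← hs]
  have hs2 : s ^ 2 = x := by
    rw [hs, ← Real.sqrt_eq_rpow]
    exact Real.sq_sqrt (by linarith)
  have hs0 : 0 ≤ s := by rw [hs]; exact Real.rpow_nonneg (by linarith) _
  have hs1 : 1 ≤ s := by rw [hs]; exact Real.one_le_rpow (by linarith) (by norm_num)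
  have hq0 : (0:ℝ) < q := by linarith
  have hl0 : 0 < l := by linarith
  have hxq : x / q ≤ s * l ^ K1 := by
    have h1 : (x / q) ^ 2 ≤ (s * l ^ K1) ^ 2 := by
      have h2 : x / (q:ℝ) ^ 2 ≤ l ^ K1 := by
        rw [div_le_iff₀ (by positivity)]
        linarith
      have h3 : (1:ℝ) ≤ l ^ K1 := one_le_pow₀ (by linarith)
      calc (x / q) ^ 2 = x * (x / (q:ℝ) ^ 2) := by ring
        _ ≤ x * l ^ K1 := mul_le_mul_of_nonneg_left h2 (by linarith)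
        _ ≤ x * (l ^ K1 * l ^ K1) := by
          apply mul_le_mul_of_nonneg_left _ (by linarith)
          nlinarith
        _ = (s * l ^ K1) ^ 2 := by rw [mul_pow, hs2]; ring
    exact (pow_le_pow_iff_left₀ (by positivity) (by positivity) (by norm_num)).mp h1
  have t1 := triv1 ⌊y⌋₊ q b
  have t0 := triv0 ⌊y⌋₊
  have t00 := psi0_nonneg ⌊y⌋₊
  have t10 : 0 ≤ psi y q b := sum_nonneg fun _ _ => ArithmeticFunction.vonMangoldt_nonneg
  have e2 : ∑ n ∈ (Icc 1 ⌊y⌋₊).filter (fun n => n ≡ b [MOD q]), ArithmeticFunction.vonMangoldt n = psi y q b := rfl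
  rw [e2] at t1
  have u1 : psi y q b ≤ (s * l ^ K1 + 1) * l := by
    refine t1.trans ?_
    have : ((⌊y⌋₊ : ℕ) : ℝ) / q ≤ s * l ^ K1 := le_trans (div_le_div_of_nonneg_right hfl hq0.le) hxq
    (gcongr)
  have u2 : psi0 ⌊y⌋₊ / (Nat.totient q : ℝ) ≤ 3 * (s * l ^ K1) * l ^ 2 := by
    have h1 : 1 / (Nat.totient q : ℝ) ≤ 3 * l / q := by
      rw [div_le_div_iff₀ hφ0 hq0, one_mul]
      refine hlow.trans ?_
      (gcongr)
    have h2 : psi0 ⌊y⌋₊ ≤ x * l := t0.trans (by gcongr)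
    calc psi0 ⌊y⌋₊ / (Nat.totient q : ℝ) = psi0 ⌊y⌋₊ * (1 / (Nat.totient q : ℝ)) := by ring
      _ ≤ (x * l) * (3 * l / q) := mul_le_mul h2 h1 (by positivity) (by positivity)
      _ = 3 * (x / q) * l ^ 2 := by ring
      _ ≤ 3 * (s * l ^ K1) * l ^ 2 := by (gcongr)
  have u20 : 0 ≤ psi0 ⌊y⌋₊ / (Nat.totient q : ℝ) := div_nonneg t00 hφ0.le
  have u3 : |psi y q b - psi0 ⌊y⌋₊ / (Nat.totient q : ℝ)| ≤ psi y q b + psi0 ⌊y⌋₊ / (Nat.totient q : ℝ) := by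
    rw [abs_le]
    constructor <;> linarith
  refine u3.trans ?_
  have v0 : (1:ℝ) ≤ l ^ K1 := one_le_pow₀ (by linarith)
  have v1 : 1 ≤ s * l ^ K1 := one_le_mul_of_one_le_of_one_le hs1 v0
  have v2 : l ≤ l ^ 2 := by nlinarith
  have v3 : (8:ℝ) ≤ l ^ 3 := by
    calc (8:ℝ) = 2 ^ 3 := by norm_num
      _ ≤ l ^ 3 := pow_le_pow_left₀ (by norm_num) hlx2 3
  obtain ⟨w, hw⟩ : ∃ w, w = s * l ^ K1 := ⟨_, rfl⟩
  rw [← hw] at u1 u2 v1
  have v4 : (w + 1) * l ≤ 2 * w * l ^ 2 := by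
    calc (w + 1) * l ≤ (2 * w) * l ^ 2 := by
          apply mul_le_mul _ v2 hl0.le (by linarith)
          linarith
      _ = _ := by ring
  have v5 : s * l ^ (K1 + 5) = w * l ^ 2 * l ^ 3 := by
    rw [hw]
    ring
  rw [v5]
  have v6 : w * l ^ 2 * 8 ≤ w * l ^ 2 * l ^ 3 := mul_le_mul_of_nonneg_left v3 (by positivity)
  have v7 : 0 ≤ w * l ^ 2 := by positivity
  linarith

/-- the bound from the theorem of Bombieri and Vinogradov -/
lemma uni_reg (A : ℕ) : ∃ q0 : ℕ, 8 ≤ q0 ∧ ∀ (K1 q : ℕ), q0 ≤ q → Regular (A + 2) K1 q → ∀ x : ℝ, (q : ℝ) ≤ x →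
    (q:ℝ) ^ 2 * Real.log x ^ K1 ≤ x → ∀ y : ℝ, 0 ≤ y → y ≤ x → ∀ b : ℕ, b.Coprime q →
    |psi y q b - psi0 ⌊y⌋₊ / Nat.totient q| ≤ x / q * (1 / Real.log x ^ A) := by
  obtain ⟨C, X0, hC, hpnt⟩ := Pool.Agent.N403.QL.pnt (A + 3)
  obtain ⟨X1, hX1⟩ := Pool.Agent.N403.QL.ev_lg (12 * C + 2)
  refine ⟨max 8 (max X0 X1), le_max_left _ _, fun K1 q hq hreg x hqx hx y hy0 hyx b hb => ?_⟩
  have hq8 : 8 ≤ q := (le_max_left _ _).trans hq
  have hqX0 : X0 ≤ q := (le_max_left _ _).trans ((le_max_right _ _).trans hq)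
  have hqX1 : X1 ≤ q := (le_max_right _ _).trans ((le_max_right _ _).trans hq)
  have hq8r : (8:ℝ) ≤ q := by exact_mod_cast hq8
  have hx8 : 8 ≤ x := hq8r.trans hqx
  have hlx2 : 2 ≤ Real.log x := log8.trans (Real.log_le_log (by norm_num) hx8)
  have hreg' := hreg x hqx hx y hy0 hyx b hb
  have hlq := hX1 q hqX1
  have e5 : Real.log (q:ℝ) ≤ Real.log x := Real.log_le_log (by linarith) hqx
  have hφ0 : (0:ℝ) < Nat.totient q := by exact_mod_cast Nat.totient_pos.mpr (by omega : 0 < q)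
  have hlow := totient_low (show 3 ≤ q by omega)
  have hxc : x ≤ ((⌈x⌉₊ : ℕ) : ℝ) := Nat.le_ceil x
  have hxc2 : ((⌈x⌉₊ : ℕ) : ℝ) ≤ 2 * x := by
    have := Nat.ceil_lt_add_one (show 0 ≤ x by linarith)
    linarith
  have hp := hpnt ⌈x⌉₊ (by
    have h1 : (q:ℝ) ≤ ((⌈x⌉₊ : ℕ) : ℝ) := hqx.trans hxc
    have h2 : q ≤ ⌈x⌉₊ := by exact_mod_cast h1
    omega) y hy0 (hyx.trans hxc)
  have e6 : H343E.psi1 y = psi0 ⌊y⌋₊ := rfl
  rw [e6] at hp
  have hlc : Real.log x ≤ Real.log ((⌈x⌉₊ : ℕ) : ℝ) := Real.log_le_log (by linarith) hxc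
  obtain ⟨l, hl⟩ : ∃ l, l = Real.log x := ⟨_, rfl⟩
  rw [← hl] at hlx2 hreg' e5 hlc ⊢
  have hl0 : 0 < l := by linarith
  have hq0 : (0:ℝ) < q := by linarith
  have h1 : |psi0 ⌊y⌋₊ - y| ≤ 2 * C * (x / l ^ (A + 3)) := by
    refine hp.trans ?_
    calc C * (((⌈x⌉₊ : ℕ) : ℝ) / Real.log ((⌈x⌉₊ : ℕ) : ℝ) ^ (A + 3)) ≤ C * ((2 * x) / l ^ (A + 3)) := by
          gcongr
      _ = _ := by ring
  have h2 : 1 / (Nat.totient q : ℝ) ≤ 3 * l / q := by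
    rw [div_le_div_iff₀ hφ0 hq0, one_mul]
    refine hlow.trans ?_
    (gcongr)
  have h3 : |y / (Nat.totient q : ℝ) - psi0 ⌊y⌋₊ / Nat.totient q| ≤ 6 * C * (x / (q * l ^ (A + 2))) := by
    rw [← sub_div, abs_div, abs_of_pos hφ0, abs_sub_comm, div_eq_mul_one_div]
    calc |psi0 ⌊y⌋₊ - y| * (1 / (Nat.totient q : ℝ)) ≤ (2 * C * (x / l ^ (A + 3))) * (3 * l / q) :=
          mul_le_mul h1 h2 (by positivity) (by positivity)
      _ = 6 * C * (x / (q * l ^ (A + 2))) := by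
          rw [show A + 3 = (A + 2) + 1 by ring, pow_succ l (A + 2)]
          field_simp
          ring
  have h4 : |psi y q b - psi0 ⌊y⌋₊ / (Nat.totient q : ℝ)| ≤ (6 * C + 1) * (x / (q * l ^ (A + 2))) := by
    have : psi y q b - psi0 ⌊y⌋₊ / (Nat.totient q : ℝ) = (psi y q b - y / (Nat.totient q : ℝ)) +
        (y / (Nat.totient q : ℝ) - psi0 ⌊y⌋₊ / Nat.totient q) := by ring
    rw [this]
    refine (abs_add_le _ _).trans ?_
    linarith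
  refine h4.trans ?_
  have h5 : 6 * C + 1 ≤ l := by linarith
  have h6 : (6 * C + 1) ≤ l ^ 2 := by nlinarith
  calc (6 * C + 1) * (x / (q * l ^ (A + 2))) ≤ l ^ 2 * (x / (q * l ^ (A + 2))) :=
        mul_le_mul_of_nonneg_right h6 (by positivity)
    _ = x / q * (1 / l ^ A) := by
        rw [pow_add]
        field_simp

lemma uni_of (A : ℕ) : ∃ q0 : ℕ, ∀ (K1 K2 q : ℕ), q0 ≤ q → Regular (A + 2) K1 q → SharpG K2 q →
    Uni A (K1 + K2 + 5) q := by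
  obtain ⟨q0, hq08, h0⟩ := uni_reg A
  refine ⟨q0, fun K1 K2 q hq h1 h2 x hqx y hy0 hyx b hb => ?_⟩
  have hq8 : 8 ≤ q := hq08.trans hq
  have hq8r : (8:ℝ) ≤ q := by exact_mod_cast hq8
  have hx8 : 8 ≤ x := hq8r.trans hqx
  have hlx2 : 2 ≤ Real.log x := log8.trans (Real.log_le_log (by norm_num) hx8)
  have hs := h2 x hqx y hy0 hyx b hb
  have htr := fun hx => uni_triv (K1 := K1) b hq8 hqx hy0 hyx hx
  have hre := fun hx => h0 K1 q hq h1 x hqx hx y hy0 hyx b hb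
  have hP0 : (0:ℝ) < q.minFac := by exact_mod_cast q.minFac_pos
  obtain ⟨l, hl⟩ : ∃ l, l = Real.log x := ⟨_, rfl⟩
  rw [← hl] at hlx2 hs htr hre ⊢
  obtain ⟨s, hs'⟩ : ∃ s, s = x ^ (1 / 2 : ℝ) := ⟨_, rfl⟩
  obtain ⟨t, ht⟩ : ∃ t, t = x ^ (5 / 6 : ℝ) := ⟨_, rfl⟩
  rw [← hs'] at hs htr ⊢
  rw [← ht] at hs ⊢
  have hs0 : 0 ≤ s := by rw [hs']; exact Real.rpow_nonneg (by linarith) _
  have ht0 : 0 ≤ t := by rw [ht]; exact Real.rpow_nonneg (by linarith) _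
  have hq0 : (0:ℝ) < q := by linarith
  have hl0 : 0 < l := by linarith
  obtain ⟨G, hG⟩ : ∃ G, G = |psi y q b - psi0 ⌊y⌋₊ / (Nat.totient q : ℝ)| := ⟨_, rfl⟩
  rw [← hG] at hs htr hre ⊢
  have hxq : 0 ≤ x / q := by positivity
  have hst : 0 ≤ (s + t / q) * l ^ (K1 + K2 + 5) := by positivity
  rcases min_choice (1 / l ^ A) (l ^ (K1 + K2 + 5) / (q.minFac : ℝ)) with hm | hm
  · rw [hm]
    rcases le_or_gt ((q:ℝ) ^ 2 * l ^ K1) x with hx | hx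
    · have := hre hx
      linarith
    · have h3 := htr hx
      have h4 : s * l ^ (K1 + 5) ≤ (s + t / q) * l ^ (K1 + K2 + 5) := by
        apply mul_le_mul _ (pow_le_pow_right₀ (by linarith) (by omega)) (by positivity) (by positivity)
        have : 0 ≤ t / q := by positivity
        linarith
      have h5 : 0 ≤ x / q * (1 / l ^ A) := by positivity
      linarith
  · rw [hm]
    refine hs.trans ?_
    have h3 : l ^ K2 ≤ l ^ (K1 + K2 + 5) := pow_le_pow_right₀ (by linarith) (by omega)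
    calc (s + t / q + x / (q * (q.minFac : ℝ))) * l ^ K2 ≤ (s + t / q + x / (q * (q.minFac : ℝ))) * l ^ (K1 + K2 + 5) :=
          mul_le_mul_of_nonneg_left h3 (by positivity)
      _ = (s + t / q) * l ^ (K1 + K2 + 5) + x / q * (l ^ (K1 + K2 + 5) / (q.minFac : ℝ)) := by
          field_simp

/-- **the moduli for which the final bound fails are rare** -/
theorem bad_sum4 (A M : ℕ) : ∃ K : ℕ, ∑' q : {q : ℕ | ¬ Uni A K q},
    ENNReal.ofReal (Real.log (q : ℕ) ^ M / (q : ℕ)) ≠ ∞ := by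
  obtain ⟨q0, h0⟩ := uni_of A
  obtain ⟨K1, h1⟩ := bad_sum (A + 2) M
  obtain ⟨K2, h2⟩ := bad_sum3 M
  refine ⟨K1 + K2 + 5, ?_⟩
  obtain ⟨f, hf⟩ : ∃ f : ℕ → ℝ≥0∞, f = fun q : ℕ => ENNReal.ofReal (Real.log (q : ℝ) ^ M / (q : ℝ)) := ⟨_, rfl⟩
  have hsub : {q : ℕ | ¬ Uni A (K1 + K2 + 5) q} ⊆ ((range q0 : Set ℕ) ∪ {q : ℕ | ¬ Regular (A + 2) K1 q}) ∪ {q : ℕ | ¬ SharpG K2 q} := by
    intro q hq
    by_cases c1 : q < q0
    · left; left
      simpa using c1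
    · by_cases c2 : Regular (A + 2) K1 q
      · right
        intro c3
        exact hq (h0 K1 K2 q (not_lt.mp c1) c2 c3)
      · left; right
        exact c2
  have e1 : ∑' x : (range q0 : Set ℕ), f x ≠ ∞ := by
    rw [Finset.tsum_subtype' (range q0) f, hf]
    exact ENNReal.sum_ne_top.mpr fun _ _ => ENNReal.ofReal_ne_top
  have e2 : ∑' x : {q : ℕ | ¬ Regular (A + 2) K1 q}, f x ≠ ∞ := by rw [hf]; exact h1
  have e3 : ∑' x : {q : ℕ | ¬ SharpG K2 q}, f x ≠ ∞ := by rw [hf]; exact h2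
  have e4 := ENNReal.tsum_union_le f (range q0 : Set ℕ) {q : ℕ | ¬ Regular (A + 2) K1 q}
  have e5 := ne_top_of_le_ne_top (ENNReal.add_ne_top.mpr ⟨e1, e2⟩) e4
  have e6 := ENNReal.tsum_union_le f ((range q0 : Set ℕ) ∪ {q : ℕ | ¬ Regular (A + 2) K1 q}) {q : ℕ | ¬ SharpG K2 q}
  have e7 := ne_top_of_le_ne_top (ENNReal.add_ne_top.mpr ⟨e5, e3⟩) e6
  have e8 := ENNReal.tsum_mono_subtype f hsub
  have e9 := ne_top_of_le_ne_top e7 e8
  rw [hf] at e9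
  exact e9

/-- the exponents -/
theorem exponents4 (M : ℕ) : ∃ K : ℕ → ℕ → ℕ, ∀ A B : ℕ,
    ∑' q : {q : ℕ | ¬ Uni A (K A B) q}, ENNReal.ofReal (Real.log (q : ℕ) ^ (B + M) / (q : ℕ)) ≠ ∞ := by
  choose K hK using fun A B => bad_sum4 A (B + M)
  exact ⟨K, hK⟩

theorem final_null {d : ℕ} (hd : 1 ≤ d) (M : ℕ) (K : ℕ → ℕ → ℕ) (hK : ∀ A B : ℕ,
    ∑' q : {q : ℕ | ¬ Uni A (K A B) q}, ENNReal.ofReal (Real.log (q : ℕ) ^ (B + M) / (q : ℕ)) ≠ ∞)
    (m : ℝ≥0∞ → ℝ≥0∞) (hm : Monotone m) (C : ℝ)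
    (hmC : ∀ r : ℝ, 0 < r → r ≤ 1 / 2 → m (ENNReal.ofReal r) ≤ ENNReal.ofReal (C * (r ^ d * (Real.log (1 / r)) ^ M))) :
    MeasureTheory.Measure.mkMetric m {α : Fin d → ℝ | ¬ ∀ A B : ℕ, G.FineZ (Uni A (K A B)) B α} = 0 := by
  have hsub : {α : Fin d → ℝ | ¬ ∀ A B : ℕ, G.FineZ (Uni A (K A B)) B α} ⊆
      ⋃ A : ℕ, {α : Fin d → ℝ | ¬ ∀ B : ℕ, G.FineZ (Uni A (K A B)) B α} := by
    intro α hα
    have hα' : ¬ ∀ A B : ℕ, G.FineZ (Uni A (K A B)) B α := hα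
    rw [not_forall] at hα'
    obtain ⟨A, hA⟩ := hα'
    exact Set.mem_iUnion.mpr ⟨A, hA⟩
  refine MeasureTheory.measure_mono_null hsub (MeasureTheory.measure_iUnion_null fun A => ?_)
  exact G.nullZ hd M (fun B => Uni A (K A B)) (hK A) m hm C hmC

theorem final_vol {d : ℕ} (hd : 1 ≤ d) (M : ℕ) (K : ℕ → ℕ → ℕ) (hK : ∀ A B : ℕ,
    ∑' q : {q : ℕ | ¬ Uni A (K A B) q}, ENNReal.ofReal (Real.log (q : ℕ) ^ (B + M) / (q : ℕ)) ≠ ∞) :
    MeasureTheory.volume {α : Fin d → ℝ | ¬ ∀ A B : ℕ, G.FineZ (Uni A (K A B)) B α} = 0 := by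
  have hsub : {α : Fin d → ℝ | ¬ ∀ A B : ℕ, G.FineZ (Uni A (K A B)) B α} ⊆
      ⋃ A : ℕ, {α : Fin d → ℝ | ¬ ∀ B : ℕ, G.FineZ (Uni A (K A B)) B α} := by
    intro α hα
    have hα' : ¬ ∀ A B : ℕ, G.FineZ (Uni A (K A B)) B α := hα
    rw [not_forall] at hα'
    obtain ⟨A, hA⟩ := hα'
    exact Set.mem_iUnion.mpr ⟨A, hA⟩
  refine MeasureTheory.measure_mono_null hsub (MeasureTheory.measure_iUnion_null fun A => ?_)
  exact G.nullZ_vol hd M (fun B => Uni A (K A B)) (hK A)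

end Pool.Agent.D0H48.BM
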