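import Pool.Agent.D0H48.BM.Vau

/-!
The von Mangoldt function twisted by primitive characters, maxima over the heights.
-/

set_option autoImplicit false

open Finset MeasureTheory H336V H343 H343.KF H336V.SepSharp H336V.TTsL H336V.KFV

open Pool.Agent.Helper112 (betaV LamII)
open Pool.Agent.Helper112.TI (mu1 l1 mu1_apply l1_apply vaughan)

namespace Pool.Agent.D0H48.BM

lemma card_PC (D : ℕ) : ((PC D).card : ℝ) ≤ 2 * (D : ℝ) ^ 2 := by
  classical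
  have h := LSaux.count_le D
  have e : ((PC D).card : ℝ) = ∑ q ∈ Ioc D (2 * D), ∑ _χ ∈ (univ : Finset (DirichletCharacter ℂ q)).filter
        (fun χ => χ.IsPrimitive), (1 : ℝ) ^ 2 := by
    unfold PC
    rw [card_sigma]
    push_cast
    apply sum_congr rfl
    intro q _
    rw [one_pow, sum_const, nsmul_eq_mul, mul_one]
  rw [e]
  exact h

/-- the number of dyadic intervals -/
lemma J_le {Y : ℕ} (hY : 1 ≤ Y) : ((Nat.log 2 Y + 1 : ℕ) : ℝ) ≤ 2 * (1 + Real.log Y) := by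
  have hY0 : (0:ℝ) < Y := by exact_mod_cast hY
  have h1 : ((2 ^ Nat.log 2 Y : ℕ) : ℝ) ≤ Y := by exact_mod_cast Nat.pow_log_le_self 2 (by omega)
  have h2 := Real.log_le_log (by positivity) h1
  rw [Nat.cast_pow, Real.log_pow] at h2
  push_cast at h2 ⊢
  have h3 := Real.log_two_gt_d9
  have h4 : (0:ℝ) ≤ Nat.log 2 Y := Nat.cast_nonneg _
  have h5 : (Nat.log 2 Y : ℝ) * (1 / 2) ≤ Nat.log 2 Y * Real.log 2 := mul_le_mul_of_nonneg_left (by linarith) h4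
  linarith

/-- the real arithmetic of the terms of type II -/
lemma ar2 {Y D U s u : ℝ} (hY : 0 ≤ Y) (hD : 0 ≤ D) (hU : 0 < U) (hs : s = √Y) (hu : u = √U) :
    √(2 * Y) * (√(2 * Y) + D * √(4 * Y / U) + D ^ 2) ≤ 3 * (Y + D * Y / u + D ^ 2 * s) := by
  have hs0 : 0 ≤ s := by rw [hs]; exact Real.sqrt_nonneg _
  have hu0 : 0 < u := by rw [hu]; exact Real.sqrt_pos.mpr hU
  have hs2 : s ^ 2 = Y := by rw [hs]; exact Real.sq_sqrt hY
  have hu2 : u ^ 2 = U := by rw [hu]; exact Real.sq_sqrt hU.le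
  have h1 : √(2 * Y) ≤ 3 / 2 * s := by
    rw [Real.sqrt_le_left (by positivity), mul_pow, hs2]
    nlinarith
  have h2 : √(4 * Y / U) ≤ 2 * s / u := by
    rw [Real.sqrt_le_left (by positivity), div_pow, mul_pow, hs2, hu2]
    norm_num
  calc √(2 * Y) * (√(2 * Y) + D * √(4 * Y / U) + D ^ 2) ≤ 3 / 2 * s * (3 / 2 * s + D * (2 * s / u) + D ^ 2) := by gcongr
    _ = 9 / 4 * s ^ 2 + 3 * (D * s ^ 2 / u) + 3 / 2 * (D ^ 2 * s) := by field_simp; ring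
    _ = 9 / 4 * Y + 3 * (D * Y / u) + 3 / 2 * (D ^ 2 * s) := by rw [hs2]
    _ ≤ _ := by
      have : 0 ≤ D ^ 2 * s := by positivity
      linarith

/-- the real arithmetic of the terms of type I -/
lemma ar1 {Y D U s u : ℝ} (hY : 0 ≤ Y) (hD : 0 ≤ D) (hU : 0 < U) (hs : s = √Y) (hu : u = √U) :
    √(2 * Y) * (√(2 * Y) + D * √(2 * U ^ 2 + 2 * Y / U) + D ^ 2) ≤ 3 * (Y + D * Y / u + D * s * U + D ^ 2 * s) := by
  have hs0 : 0 ≤ s := by rw [hs]; exact Real.sqrt_nonneg _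
  have hu0 : 0 < u := by rw [hu]; exact Real.sqrt_pos.mpr hU
  have hs2 : s ^ 2 = Y := by rw [hs]; exact Real.sq_sqrt hY
  have hu2 : u ^ 2 = U := by rw [hu]; exact Real.sq_sqrt hU.le
  have h1 : √(2 * Y) ≤ 3 / 2 * s := by
    rw [Real.sqrt_le_left (by positivity), mul_pow, hs2]
    nlinarith
  have h2 : √(2 * U ^ 2 + 2 * Y / U) ≤ 3 / 2 * (U + s / u) := by
    rw [Real.sqrt_le_left (by positivity)]
    have e1 : (s / u) ^ 2 = Y / U := by rw [div_pow, hs2, hu2]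
    have e2 : 0 ≤ U * (s / u) := by positivity
    have e3 : 2 * Y / U = 2 * (Y / U) := by ring
    have e4 : 0 ≤ Y / U := by positivity
    nlinarith [sq_nonneg U]
  calc √(2 * Y) * (√(2 * Y) + D * √(2 * U ^ 2 + 2 * Y / U) + D ^ 2)
      ≤ 3 / 2 * s * (3 / 2 * s + D * (3 / 2 * (U + s / u)) + D ^ 2) := by gcongr
    _ = 9 / 4 * s ^ 2 + 9 / 4 * (D * s ^ 2 / u) + 9 / 4 * (D * s * U) + 3 / 2 * (D ^ 2 * s) := by field_simp; ring
    _ = 9 / 4 * Y + 9 / 4 * (D * Y / u) + 9 / 4 * (D * s * U) + 3 / 2 * (D ^ 2 * s) := by rw [hs2]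
    _ ≤ _ := by
      have g1 : 0 ≤ D ^ 2 * s := by positivity
      have g2 : 0 ≤ D * Y / u := by positivity
      have g3 : 0 ≤ D * s * U := by positivity
      linarith

/-- the terms of type I with a short variable -/
lemma short {D Y U y : ℕ} (hD : 1 ≤ D) (hDY : D ≤ Y) (hyY : y ≤ Y) (i : ℕ) (hi : i ≤ 1) (α : ℕ → ℂ)
    (hb : ∀ n ∈ Icc 1 U, ‖α n‖ ≤ 1 + Real.log Y) (h0 : ∀ n, U < n → α n = 0)
    {p : Σ q : ℕ, DirichletCharacter ℂ q} (hp : p ∈ PC D) :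
    ‖TTs y 1 α (fun n => (((Real.log n) ^ i : ℝ) : ℂ)) p.2‖ ≤ 112 * (1 + Real.log Y) ^ 4 * (√D * U) := by
  obtain ⟨h1, h2, h3⟩ := mem_PC hp
  have hlY := Real.log_natCast_nonneg Y
  have hY0 : (0:ℝ) < Y := by exact_mod_cast (by omega : 0 < Y)
  have hq0 : (0:ℝ) < p.1 := by exact_mod_cast (by omega : 0 < p.1)
  have hD0 : (0:ℝ) < D := by exact_mod_cast hD
  refine (typeI_sup i hi U y 1 p.1 le_rfl (by omega) p.2 h3 α (1 + Real.log Y) (by linarith) hb h0).trans ?_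
  have e1 : ((Nat.divisors 1).card : ℝ) = 1 := by simp
  rw [e1]
  have e2 : Real.log y ≤ Real.log Y := by
    rcases Nat.eq_zero_or_pos y with h | h
    · rw [h]; simpa using hlY
    · exact Real.log_le_log (by exact_mod_cast h) (by exact_mod_cast hyY)
  have e2' : 0 ≤ Real.log y := Real.log_natCast_nonneg y
  have hq2 : (p.1 : ℝ) ≤ 2 * D := by exact_mod_cast h2
  have hDYr : (D:ℝ) ≤ Y := by exact_mod_cast hDY
  have e3 : Real.log p.1 ≤ 1 + Real.log Y := by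
    have g1 : Real.log p.1 ≤ Real.log (2 * Y) := Real.log_le_log hq0 (by linarith)
    rw [Real.log_mul (by norm_num) hY0.ne'] at g1
    have := Real.log_two_lt_d9
    linarith
  have e3' : 0 ≤ Real.log p.1 := Real.log_natCast_nonneg _
  have e4 : √(p.1:ℝ) ≤ 2 * √(D:ℝ) := by
    rw [Real.sqrt_le_left (by positivity), mul_pow, Real.sq_sqrt hD0.le]
    linarith
  have hl1 : 1 ≤ 1 + Real.log Y := by linarith
  calc (U:ℝ) * ((1 + Real.log Y) * (14 * (1 + Real.log y) ^ 2 * (1 * (2 * √(p.1:ℝ) * (1 + Real.log p.1)))))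
      ≤ (U:ℝ) * ((1 + Real.log Y) * (14 * (1 + Real.log Y) ^ 2 * (1 * (2 * (2 * √(D:ℝ)) * (2 * (1 + Real.log Y)))))) := by
        gcongr
        linarith
    _ = 112 * (1 + Real.log Y) ^ 4 * (√D * U) := by ring

theorem vau {D Y U : ℕ} (hD : 1 ≤ D) (hU : 1 ≤ U) (hUY : U ≤ Y) (hDY : D ≤ Y)
    (h : (Σ q : ℕ, DirichletCharacter ℂ q) → ℕ) (hh : ∀ p, h p ≤ Y) :
    ∑ p ∈ PC D, ‖psiCm (h p) 1 p.2‖ ≤ 10000 * (1 + Real.log Y) ^ 5 *
      ((Y:ℝ) + D * Y / √U + D * √Y * U + (D:ℝ) ^ 2 * √Y + (D:ℝ) ^ 2 * (√D * U)) := by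
  obtain ⟨J, hJe⟩ : ∃ J, J = Nat.log 2 Y + 1 := ⟨_, rfl⟩
  have hY1 : 1 ≤ Y := by omega
  have hJ : Y < 2 ^ J := by rw [hJe]; exact Nat.lt_pow_succ_log_self (by norm_num) Y
  have hJ' : ∀ j ∈ range J, 2 ^ j ≤ Y := by
    intro j hj
    rw [mem_range, hJe] at hj
    calc 2 ^ j ≤ 2 ^ (Nat.log 2 Y) := Nat.pow_le_pow_right (by norm_num) (by omega)
      _ ≤ Y := Nat.pow_log_le_self 2 (by omega)
  have hJle : (J:ℝ) ≤ 2 * (1 + Real.log Y) := by rw [hJe]; exact J_le hY1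
  have hII := typeII (D := D) hU hJ hJ' h hh
  have hI := typeI (D := D) hU hJ hJ' h hh
  have hcard := card_PC D
  obtain ⟨l, hl⟩ : ∃ l, l = 1 + Real.log Y := ⟨_, rfl⟩
  have hlY := Real.log_natCast_nonneg Y
  have hl1 : 1 ≤ l := by linarith
  have hU0 : (0:ℝ) < U := by exact_mod_cast hU
  have hD1 : (1:ℝ) ≤ D := by exact_mod_cast hD
  have hY0 : (0:ℝ) ≤ Y := Nat.cast_nonneg _
  have hlU : Real.log U ≤ l := by
    have : Real.log U ≤ Real.log Y := Real.log_le_log hU0 (by exact_mod_cast hUY)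
    linarith
  have hlU0 : 0 ≤ Real.log U := Real.log_natCast_nonneg U
  have hsD : 1 ≤ √(D:ℝ) := by rw [Real.one_le_sqrt]; exact hD1
  -- the pointwise estimate
  have hpt : ∀ p ∈ PC D, ‖psiCm (h p) 1 p.2‖ ≤ 225 * l ^ 4 * (√D * U) +
      ‖TTs (h p) 1 (fun n => (betaV U n : ℂ)) (LU U) p.2‖ +
      ‖TTs (h p) 1 (gL U) (fun n => (((Real.log n) ^ 0 : ℝ) : ℂ)) p.2‖ := by
    intro p hp
    have g1 := small_l1 U (h p) 1 p.2
    have g2 := short (U := U) hD hDY (hh p) 1 le_rfl (fun n => ((mu1 U n : ℝ) : ℂ)) (fun n _ => (mu1_norm U n).trans (by linarith))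
      (fun n hn => by
        show ((mu1 U n : ℝ) : ℂ) = 0
        rw [mu1_apply, if_neg (by omega)]
        simp) hp
    have g3 := short (U := U) hD hDY (hh p) 0 (by norm_num) (gS U) (fun n hn => by
        rw [mem_Icc] at hn
        refine (gS_norm U).trans ?_
        have : Real.log n ≤ Real.log U := Real.log_le_log (by exact_mod_cast hn.1) (by exact_mod_cast hn.2)
        linarith) (fun n hn => by
        unfold gS
        rw [if_neg (by omega)]) hp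
    rw [← hl] at g2 g3
    have g4 : (U:ℝ) * Real.log U ≤ l ^ 4 * (√D * U) := by
      have k1 : l ≤ l ^ 4 := by
        calc l = l ^ 1 := (pow_one l).symm
          _ ≤ l ^ 4 := pow_le_pow_right₀ hl1 (by norm_num)
      calc (U:ℝ) * Real.log U ≤ U * l ^ 4 := mul_le_mul_of_nonneg_left (hlU.trans k1) hU0.le
        _ = l ^ 4 * (1 * U) := by ring
        _ ≤ l ^ 4 * (√D * U) := by gcongr
    rw [psi_split U (h p) 1 p.2]
    have n1 := norm_add_le (∑ n ∈ (Icc 1 (h p)).filter (fun n => n.Coprime 1), ((l1 U n : ℝ) : ℂ) * p.2 (n : ZMod p.1))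
      (TTs (h p) 1 (fun n => (betaV U n : ℂ)) (LU U) p.2)
    have n2 := norm_add_le (∑ n ∈ (Icc 1 (h p)).filter (fun n => n.Coprime 1), ((l1 U n : ℝ) : ℂ) * p.2 (n : ZMod p.1) +
      TTs (h p) 1 (fun n => (betaV U n : ℂ)) (LU U) p.2)
      (TTs (h p) 1 (fun n => ((mu1 U n : ℝ) : ℂ)) (fun n => (((Real.log n) ^ 1 : ℝ) : ℂ)) p.2)
    have n3 := norm_sub_le (∑ n ∈ (Icc 1 (h p)).filter (fun n => n.Coprime 1), ((l1 U n : ℝ) : ℂ) * p.2 (n : ZMod p.1) +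
      TTs (h p) 1 (fun n => (betaV U n : ℂ)) (LU U) p.2 +
      TTs (h p) 1 (fun n => ((mu1 U n : ℝ) : ℂ)) (fun n => (((Real.log n) ^ 1 : ℝ) : ℂ)) p.2)
      (TTs (h p) 1 (gS U) (fun n => (((Real.log n) ^ 0 : ℝ) : ℂ)) p.2)
    have n4 := norm_sub_le (∑ n ∈ (Icc 1 (h p)).filter (fun n => n.Coprime 1), ((l1 U n : ℝ) : ℂ) * p.2 (n : ZMod p.1) +
      TTs (h p) 1 (fun n => (betaV U n : ℂ)) (LU U) p.2 +
      TTs (h p) 1 (fun n => ((mu1 U n : ℝ) : ℂ)) (fun n => (((Real.log n) ^ 1 : ℝ) : ℂ)) p.2 -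
      TTs (h p) 1 (gS U) (fun n => (((Real.log n) ^ 0 : ℝ) : ℂ)) p.2)
      (TTs (h p) 1 (gL U) (fun n => (((Real.log n) ^ 0 : ℝ) : ℂ)) p.2)
    linarith
  refine (sum_le_sum hpt).trans ?_
  rw [sum_add_distrib, sum_add_distrib, sum_const, nsmul_eq_mul]
  rw [← hl] at hII hI hJle
  obtain ⟨s, hs⟩ : ∃ s : ℝ, s = √(Y:ℝ) := ⟨_, rfl⟩
  obtain ⟨u, hu⟩ : ∃ u : ℝ, u = √(U:ℝ) := ⟨_, rfl⟩
  have a2 := ar2 (D := D) hY0 (by linarith) hU0 hs hu
  have a1 := ar1 (D := D) hY0 (by linarith) hU0 hs hu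
  rw [← hl, ← hs, ← hu]
  have hs0 : 0 ≤ s := by rw [hs]; exact Real.sqrt_nonneg _
  have hu0 : 0 < u := by rw [hu]; exact Real.sqrt_pos.mpr hU0
  have b2 : J * (12 * l * (24 * ((2 * l) ^ 2 * l * (√(2 * Y) * (√(2 * Y) + D * √(4 * Y / U) + (D : ℝ) ^ 2))))) ≤
      6912 * l ^ 5 * (Y + D * Y / u + D ^ 2 * s) := by
    calc J * (12 * l * (24 * ((2 * l) ^ 2 * l * (√(2 * Y) * (√(2 * Y) + D * √(4 * Y / U) + (D : ℝ) ^ 2)))))
        ≤ (2 * l) * (12 * l * (24 * ((2 * l) ^ 2 * l * (3 * (Y + D * Y / u + D ^ 2 * s))))) := by gcongr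
      _ = _ := by ring
  have b1 : J * (12 * l * (24 * (l * 1 * (√(2 * Y) * (√(2 * Y) + D * √(2 * (U : ℝ) ^ 2 + 2 * Y / U) + (D : ℝ) ^ 2))))) ≤
      1728 * l ^ 5 * (Y + D * Y / u + D * s * U + D ^ 2 * s) := by
    calc J * (12 * l * (24 * (l * 1 * (√(2 * Y) * (√(2 * Y) + D * √(2 * (U : ℝ) ^ 2 + 2 * Y / U) + (D : ℝ) ^ 2)))))
        ≤ (2 * l) * (12 * l * (24 * (l * 1 * (3 * (Y + D * Y / u + D * s * U + D ^ 2 * s))))) := by gcongr
      _ = 1728 * l ^ 3 * (Y + D * Y / u + D * s * U + D ^ 2 * s) := by ring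
      _ ≤ _ := by
        have : l ^ 3 ≤ l ^ 5 := pow_le_pow_right₀ hl1 (by norm_num)
        gcongr
  have b3 : ((PC D).card : ℝ) * (225 * l ^ 4 * (√D * U)) ≤ 450 * l ^ 5 * ((D:ℝ) ^ 2 * (√D * U)) := by
    have : l ^ 4 ≤ l ^ 5 := pow_le_pow_right₀ hl1 (by norm_num)
    calc ((PC D).card : ℝ) * (225 * l ^ 4 * (√D * U)) ≤ (2 * (D:ℝ) ^ 2) * (225 * l ^ 5 * (√D * U)) := by gcongr
      _ = _ := by ring
  have c1 : 0 ≤ l ^ 5 * (D * Y / u) := by positivity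
  have c2 : 0 ≤ l ^ 5 * (D * s * U) := by positivity
  have c3 : 0 ≤ l ^ 5 * ((D:ℝ) ^ 2 * s) := by positivity
  have c4 : 0 ≤ l ^ 5 * ((D:ℝ) ^ 2 * (√D * U)) := by positivity
  have c5 : 0 ≤ l ^ 5 * (Y:ℝ) := by positivity
  nlinarith

/-- **Vaughan's mean value theorem** with the optimal cut -/
theorem mean {D Y : ℕ} (hD : 1 ≤ D) (hDY : D ≤ Y) (z : ℝ) (hz : 1 ≤ z) (hzY : z ^ 6 = Y)
    (h : (Σ q : ℕ, DirichletCharacter ℂ q) → ℕ) (hh : ∀ p, h p ≤ Y) :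
    ∑ p ∈ PC D, ‖psiCm (h p) 1 p.2‖ ≤ 60000 * (1 + Real.log Y) ^ 5 * (z ^ 6 + D * z ^ 5 + (D:ℝ) ^ 2 * z ^ 3) := by
  have hD1 : (1:ℝ) ≤ D := by exact_mod_cast hD
  have hz0 : 0 < z := by linarith
  have hlY := Real.log_natCast_nonneg Y
  have hs : √(Y:ℝ) = z ^ 3 := by
    rw [← hzY, Real.sqrt_eq_iff_mul_self_eq (by positivity) (by positivity)]
    ring
  obtain ⟨t, ht⟩ : ∃ t : ℝ, t = √(D:ℝ) := ⟨_, rfl⟩
  have ht2 : t ^ 2 = D := by rw [ht]; exact Real.sq_sqrt (by linarith)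
  have ht0 : 0 < t := by rw [ht]; exact Real.sqrt_pos.mpr (by linarith)
  have hDYr : (D:ℝ) ≤ z ^ 6 := by rw [hzY]; exact_mod_cast hDY
  have key : ∃ U : ℕ, 1 ≤ U ∧ U ≤ Y ∧ (Y:ℝ) + D * Y / √U + D * √Y * U + (D:ℝ) ^ 2 * √Y + (D:ℝ) ^ 2 * (√D * U) ≤
      6 * (z ^ 6 + D * z ^ 5 + (D:ℝ) ^ 2 * z ^ 3) := by
    rcases le_or_gt (D:ℝ) (z ^ 2) with hc | hc
    · refine ⟨⌈z ^ 2⌉₊, Nat.one_le_ceil_iff.mpr (by positivity), ?_, ?_⟩
      · rw [Nat.ceil_le, ← hzY]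
        exact pow_le_pow_right₀ hz (by norm_num)
      · obtain ⟨U, hU⟩ : ∃ U : ℝ, U = ((⌈z ^ 2⌉₊ : ℕ) : ℝ) := ⟨_, rfl⟩
        have h1 : z ^ 2 ≤ U := by rw [hU]; exact Nat.le_ceil _
        have h2 : U ≤ 2 * z ^ 2 := by
          have := Nat.ceil_lt_add_one (show 0 ≤ z ^ 2 by positivity)
          rw [← hU] at this
          have : 1 ≤ z ^ 2 := one_le_pow₀ hz
          linarith
        rw [← hU, hs, ← hzY, ← ht]
        have h3 : z ≤ √U := Real.le_sqrt_of_sq_le h1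
        have h4 : t ≤ z := by
          rw [← ht2] at hc
          exact (pow_le_pow_iff_left₀ ht0.le hz0.le (by norm_num)).mp hc
        have g1 : (D:ℝ) * z ^ 6 / √U ≤ D * z ^ 5 := by
          rw [div_le_iff₀ (by linarith)]
          calc (D:ℝ) * z ^ 6 = D * z ^ 5 * z := by ring
            _ ≤ D * z ^ 5 * √U := by gcongr
        have g2 : (D:ℝ) * z ^ 3 * U ≤ 2 * (D * z ^ 5) := by
          calc (D:ℝ) * z ^ 3 * U ≤ D * z ^ 3 * (2 * z ^ 2) := by gcongr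
            _ = _ := by ring
        have hU0 : 0 ≤ U := le_trans (by positivity) h1
        have g3 : (D:ℝ) ^ 2 * (t * U) ≤ 2 * ((D:ℝ) ^ 2 * z ^ 3) := by
          calc (D:ℝ) ^ 2 * (t * U) ≤ (D:ℝ) ^ 2 * (z * (2 * z ^ 2)) := by gcongr
            _ = _ := by ring
        have g4 : 0 ≤ (D:ℝ) ^ 2 * z ^ 3 := by positivity
        have g5 : 0 ≤ (D:ℝ) * z ^ 5 := by positivity
        have g6 : 0 ≤ z ^ 6 := by positivity
        linarith
    · refine ⟨⌈z ^ 4 / D⌉₊, Nat.one_le_ceil_iff.mpr (by positivity), ?_, ?_⟩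
      · rw [Nat.ceil_le, ← hzY]
        calc z ^ 4 / D ≤ z ^ 4 := div_le_self (by positivity) hD1
          _ ≤ z ^ 6 := pow_le_pow_right₀ hz (by norm_num)
      · obtain ⟨U, hU⟩ : ∃ U : ℝ, U = ((⌈z ^ 4 / D⌉₊ : ℕ) : ℝ) := ⟨_, rfl⟩
        have h1 : z ^ 4 / D ≤ U := by rw [hU]; exact Nat.le_ceil _
        have h2 : U ≤ z ^ 4 / D + 1 := by
          have := Nat.ceil_lt_add_one (show 0 ≤ z ^ 4 / D by positivity)
          rw [← hU] at this
          linarith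
        rw [← hU, hs, ← hzY, ← ht]
        have h4 : z ≤ t := by
          rw [← ht2] at hc
          exact ((pow_lt_pow_iff_left₀ hz0.le ht0.le (by norm_num)).mp hc).le
        have h3 : z ^ 2 / t ≤ √U := by
          apply Real.le_sqrt_of_sq_le
          rw [div_pow, ht2]
          calc (z ^ 2) ^ 2 / (D:ℝ) = z ^ 4 / D := by ring
            _ ≤ U := h1
        have h5 : t ≤ z ^ 3 := by
          rw [ht, Real.sqrt_le_left (by positivity)]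
          calc (D:ℝ) ≤ z ^ 6 := hDYr
            _ = (z ^ 3) ^ 2 := by ring
        have hU0 : 0 < √U := lt_of_lt_of_le (by positivity) h3
        have g0 : (D:ℝ) * t * z ^ 4 ≤ (D:ℝ) ^ 2 * z ^ 3 := by
          calc (D:ℝ) * t * z ^ 4 = D * z ^ 3 * (t * z) := by ring
            _ ≤ D * z ^ 3 * (t * t) := by gcongr
            _ = D * z ^ 3 * t ^ 2 := by ring
            _ = _ := by rw [ht2]; ring
        have g1 : (D:ℝ) * z ^ 6 / √U ≤ (D:ℝ) ^ 2 * z ^ 3 := by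
          rw [div_le_iff₀ hU0]
          calc (D:ℝ) * z ^ 6 = (D * t * z ^ 4) * (z ^ 2 / t) := by field_simp
            _ ≤ ((D:ℝ) ^ 2 * z ^ 3) * √U := by gcongr
        have g2 : (D:ℝ) * z ^ 3 * U ≤ 2 * ((D:ℝ) ^ 2 * z ^ 3) := by
          have k1 : z ^ 2 * z ^ 2 ≤ (D:ℝ) * D := by gcongr
          calc (D:ℝ) * z ^ 3 * U ≤ D * z ^ 3 * (z ^ 4 / D + 1) := by gcongr
            _ = z ^ 3 * (z ^ 2 * z ^ 2) + D * z ^ 3 := by field_simp
            _ ≤ z ^ 3 * ((D:ℝ) * D) + D * D * z ^ 3 := by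
              have k2 : (D:ℝ) * z ^ 3 ≤ D * D * z ^ 3 := by
                have : (D:ℝ) ≤ D * D := by nlinarith
                gcongr
              have k3 : z ^ 3 * (z ^ 2 * z ^ 2) ≤ z ^ 3 * ((D:ℝ) * D) := by gcongr
              linarith
            _ = _ := by ring
        have g3 : (D:ℝ) ^ 2 * (t * U) ≤ 2 * ((D:ℝ) ^ 2 * z ^ 3) := by
          calc (D:ℝ) ^ 2 * (t * U) ≤ (D:ℝ) ^ 2 * (t * (z ^ 4 / D + 1)) := by gcongr
            _ = D * t * z ^ 4 + (D:ℝ) ^ 2 * t := by field_simp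
            _ ≤ (D:ℝ) ^ 2 * z ^ 3 + (D:ℝ) ^ 2 * z ^ 3 := by
              have : (D:ℝ) ^ 2 * t ≤ (D:ℝ) ^ 2 * z ^ 3 := by gcongr
              linarith
            _ = _ := by ring
        have g5 : 0 ≤ (D:ℝ) * z ^ 5 := by positivity
        have g6 : 0 ≤ z ^ 6 := by positivity
        linarith
  obtain ⟨U, hU1, hUY, hE⟩ := key
  refine (vau hD hU1 hUY hDY h hh).trans ?_
  calc 10000 * (1 + Real.log Y) ^ 5 * ((Y:ℝ) + D * Y / √U + D * √Y * U + (D:ℝ) ^ 2 * √Y + (D:ℝ) ^ 2 * (√D * U))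
      ≤ 10000 * (1 + Real.log Y) ^ 5 * (6 * (z ^ 6 + D * z ^ 5 + (D:ℝ) ^ 2 * z ^ 3)) := by gcongr
    _ = _ := by ring

end Pool.Agent.D0H48.BM
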