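import Pool.Agent.D0H48.BM.Sup
import Pool.Agent.H336R2.V.KeyFixedMain
import Pool.Agent.H398R2.BV1

/-!
The von Mangoldt function twisted by primitive characters, maxima over the heights: Vaughan's identity.
-/

set_option autoImplicit false

open Finset MeasureTheory H336V H343 H343.KF H336V.SepSharp H336V.TTsL H336V.KFV

open Pool.Agent.Helper112 (betaV LamII)
open Pool.Agent.Helper112.TI (mu1 l1 mu1_apply l1_apply vaughan)

namespace Pool.Agent.D0H48.BM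

/-- the real arithmetic of a block -/
lemma blk {k N D Y S a b : ℝ} (hk : 0 ≤ k) (hN : 0 ≤ N) (hD : 0 ≤ D) (hY : 0 ≤ Y) (ha : 0 ≤ a) (hb : 0 ≤ b)
    (h1 : k * N ≤ 2 * Y) (h2 : k + N ≤ S) :
    24 * (√((k + D ^ 2) * (k * a ^ 2)) * √((N + D ^ 2) * (N * b ^ 2))) ≤
      24 * (a * b * (√(2 * Y) * (√(2 * Y) + D * √S + D ^ 2))) := by
  apply mul_le_mul_of_nonneg_left _ (by norm_num)
  have hS : 0 ≤ S := by linarith
  rw [← Real.sqrt_mul (by positivity)]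
  have e1 : (k + D ^ 2) * (k * a ^ 2) * ((N + D ^ 2) * (N * b ^ 2)) = (a * b) ^ 2 * ((k * N) * ((k + D ^ 2) * (N + D ^ 2))) := by ring
  rw [e1, Real.sqrt_mul (by positivity), Real.sqrt_sq (by positivity)]
  apply mul_le_mul_of_nonneg_left _ (by positivity)
  rw [Real.sqrt_mul (by positivity)]
  apply mul_le_mul (Real.sqrt_le_sqrt h1) _ (Real.sqrt_nonneg _) (Real.sqrt_nonneg _)
  rw [Real.sqrt_le_left (by positivity)]
  have h3 : (k + D ^ 2) * (N + D ^ 2) ≤ 2 * Y + D ^ 2 * S + D ^ 4 := by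
    have : D ^ 2 * (k + N) ≤ D ^ 2 * S := mul_le_mul_of_nonneg_left h2 (by positivity)
    nlinarith
  refine h3.trans ?_
  have h4 : √(2 * Y) ^ 2 = 2 * Y := Real.sq_sqrt (by positivity)
  have h5 : √S ^ 2 = S := Real.sq_sqrt hS
  have h6 : 0 ≤ √(2 * Y) := Real.sqrt_nonneg _
  have h7 : 0 ≤ √S := Real.sqrt_nonneg _
  have h8 : (√(2 * Y) + D * √S + D ^ 2) ^ 2 = √(2 * Y) ^ 2 + D ^ 2 * √S ^ 2 + D ^ 4 +
      2 * (√(2 * Y) * (D * √S) + √(2 * Y) * D ^ 2 + D * √S * D ^ 2) := by ring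
  rw [h8, h4, h5]
  have : 0 ≤ √(2 * Y) * (D * √S) + √(2 * Y) * D ^ 2 + D * √S * D ^ 2 := by positivity
  linarith

lemma dy_sq (j : ℕ) (α : ℕ → ℂ) (K : ℕ) : ∑ k ∈ Icc 1 K, ‖dy j α k‖ ^ 2 ≤ ∑ k ∈ Icc 1 K, ‖α k‖ ^ 2 :=
  sum_le_sum fun k _ => pow_le_pow_left₀ (norm_nonneg _) (dy_norm j α k) 2

lemma PP_zero {α : ℕ → ℂ} {K : ℕ} (h : ∀ k ∈ Icc 1 K, α k = 0) (η : ℝ) {q : ℕ} (χ : DirichletCharacter ℂ q) :
    PP α 1 K η χ = 0 := by
  unfold PP
  apply sum_eq_zero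
  intro k hk
  unfold tw
  rw [h k hk]
  simp

/-- the logarithms -/
lemma logs {Y j : ℕ} (hj : 2 ^ j ≤ Y) : Real.log ((2 ^ (j + 1) : ℕ) : ℝ) ≤ 1 + Real.log Y := by
  have hY : (0:ℝ) < Y := by
    have : 1 ≤ 2 ^ j := Nat.one_le_two_pow
    exact_mod_cast (by omega : 0 < Y)
  have h1 : ((2 ^ (j + 1) : ℕ) : ℝ) ≤ 2 * Y := by
    have : ((2 ^ j : ℕ) : ℝ) ≤ Y := by exact_mod_cast hj
    push_cast at this ⊢
    rw [pow_succ]
    linarith
  have h2 := Real.log_le_log (by positivity) h1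
  rw [Real.log_mul (by norm_num) hY.ne'] at h2
  have := Real.log_two_lt_d9
  linarith

/-- type II sums -/
lemma typeII {D Y U J : ℕ} (hU : 1 ≤ U) (hJ : Y < 2 ^ J) (hJ' : ∀ j ∈ range J, 2 ^ j ≤ Y)
    (h : (Σ q : ℕ, DirichletCharacter ℂ q) → ℕ) (hh : ∀ p, h p ≤ Y) :
    ∑ p ∈ PC D, ‖TTs (h p) 1 (fun n => (betaV U n : ℂ)) (LU U) p.2‖ ≤ J * (12 * (1 + Real.log Y) *
      (24 * ((2 * (1 + Real.log Y)) ^ 2 * (1 + Real.log Y) *
        (√(2 * Y) * (√(2 * Y) + D * √(4 * Y / U) + (D : ℝ) ^ 2))))) := by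
  have hlY := Real.log_natCast_nonneg Y
  have hU0 : (0:ℝ) < U := by exact_mod_cast hU
  refine bil hJ _ _ _ ?_ h hh
  intro j hj η
  have hjY := hJ' j hj
  have hRHS : 0 ≤ 24 * ((2 * (1 + Real.log Y)) ^ 2 * (1 + Real.log Y) *
        (√(2 * Y) * (√(2 * Y) + D * √(4 * Y / U) + (D : ℝ) ^ 2))) := by positivity
  by_cases hk : 2 ^ (j + 1) ≤ U
  · refine le_trans (le_of_eq (sum_eq_zero fun p _ => ?_)) hRHS
    rw [PP_zero (fun k hk' => ?_), norm_zero, zero_mul]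
    unfold dy
    split_ifs with h1
    · rw [mem_Ico] at h1
      show ((betaV U k : ℝ) : ℂ) = 0
      rw [Pool.Agent.Helper112.TII.betaV_zero U k (by omega)]
      simp
    · rfl
  by_cases hN : Y / 2 ^ j ≤ U
  · refine le_trans (le_of_eq (sum_eq_zero fun p _ => ?_)) hRHS
    rw [PP_zero (α := LU U) (fun k hk' => ?_), norm_zero, mul_zero]
    rw [mem_Icc] at hk'
    exact LU_zero (by omega)
  rw [not_le] at hk hN
  have hlog := logs hjY
  have hlog0 : 0 ≤ Real.log ((2 ^ (j + 1) : ℕ) : ℝ) := Real.log_natCast_nonneg _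
  have hA : ∑ k ∈ Icc 1 (2 ^ (j + 1)), ‖dy j (fun n => (betaV U n : ℂ)) k‖ ^ 2 ≤
      ((2 ^ (j + 1) : ℕ) : ℝ) * ((2 * (1 + Real.log Y)) ^ 2) ^ 2 := by
    refine (dy_sq j _ _).trans ?_
    have e1 : ∑ k ∈ Icc 1 (2 ^ (j + 1)), ‖((betaV U k : ℝ) : ℂ)‖ ^ 2 = ∑ k ∈ Icc 1 (2 ^ (j + 1)), betaV U k ^ 2 := by
      apply sum_congr rfl
      intro k _
      rw [Complex.norm_real, Real.norm_eq_abs, sq_abs]
    rw [e1]
    refine (Pool.Agent.H398R2.BV.sum_betaV_sq U _).trans ?_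
    apply mul_le_mul_of_nonneg_left _ (by positivity)
    calc (1 + Real.log ((2 ^ (j + 1) : ℕ) : ℝ)) ^ 3 ≤ (2 * (1 + Real.log Y)) ^ 3 :=
          pow_le_pow_left₀ (by linarith) (by linarith) 3
      _ ≤ (2 * (1 + Real.log Y)) ^ 4 := pow_le_pow_right₀ (by linarith) (by norm_num)
      _ = _ := by ring
  have hB : ∑ l ∈ Icc 1 (Y / 2 ^ j), ‖LU U l‖ ^ 2 ≤ ((Y / 2 ^ j : ℕ) : ℝ) * (1 + Real.log Y) ^ 2 := by
    calc ∑ l ∈ Icc 1 (Y / 2 ^ j), ‖LU U l‖ ^ 2 ≤ ∑ l ∈ Icc 1 (Y / 2 ^ j), (1 + Real.log Y) ^ 2 := by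
          apply sum_le_sum
          intro l hl
          rw [mem_Icc] at hl
          apply pow_le_pow_left₀ (norm_nonneg _)
          unfold LU
          rw [Complex.norm_real, Real.norm_eq_abs]
          split_ifs
          · rw [abs_of_nonneg ArithmeticFunction.vonMangoldt_nonneg]
            refine ArithmeticFunction.vonMangoldt_le_log.trans ?_
            have h1 : (l:ℝ) ≤ Y := by exact_mod_cast hl.2.trans (Nat.div_le_self _ _)
            have h2 := Real.log_le_log (by exact_mod_cast hl.1) h1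
            linarith
          · rw [abs_zero]
            linarith
      _ = _ := by rw [sum_const, nsmul_eq_mul, Nat.card_Icc, Nat.add_sub_cancel]
  refine (point D _ _ _ _ _ _ hA hB η).trans ?_
  have hNr : ((Y / 2 ^ j : ℕ) : ℝ) ≤ Y / 2 ^ j := by
    have := Nat.cast_div_le (α := ℝ) (m := Y) (n := 2 ^ j)
    push_cast at this
    exact this
  have h2j : (0:ℝ) < 2 ^ j := by positivity
  have hkr : (U:ℝ) ≤ 2 ^ (j + 1) := by exact_mod_cast hk.le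
  have hNr2 : (U:ℝ) ≤ Y / 2 ^ j := le_trans (by exact_mod_cast hN.le) hNr
  refine blk (by positivity) (by positivity) (by positivity) (by positivity) (by positivity) (by positivity) ?_ ?_
  · push_cast
    calc (2:ℝ) ^ (j + 1) * ((Y / 2 ^ j : ℕ) : ℝ) ≤ 2 ^ (j + 1) * (Y / 2 ^ j) := mul_le_mul_of_nonneg_left hNr (by positivity)
      _ = 2 * Y := by rw [pow_succ]; field_simp
  · push_cast
    have g1 : (2:ℝ) ^ (j + 1) ≤ 2 * Y / U := by
      rw [le_div_iff₀ hU0, pow_succ]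
      rw [le_div_iff₀ h2j] at hNr2
      linarith
    have g2 : ((Y / 2 ^ j : ℕ) : ℝ) ≤ 2 * Y / U := by
      refine hNr.trans ?_
      rw [div_le_div_iff₀ h2j hU0]
      rw [pow_succ] at hkr
      nlinarith [(Nat.cast_nonneg Y : (0:ℝ) ≤ Y)]
    have g3 : 4 * (Y:ℝ) / U = 2 * Y / U + 2 * Y / U := by ring
    rw [g3]
    linarith

/-- type I sums with a long variable -/
lemma typeI {D Y U J : ℕ} (hU : 1 ≤ U) (hJ : Y < 2 ^ J) (hJ' : ∀ j ∈ range J, 2 ^ j ≤ Y)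
    (h : (Σ q : ℕ, DirichletCharacter ℂ q) → ℕ) (hh : ∀ p, h p ≤ Y) :
    ∑ p ∈ PC D, ‖TTs (h p) 1 (gL U) (fun n => (((Real.log n) ^ 0 : ℝ) : ℂ)) p.2‖ ≤ J * (12 * (1 + Real.log Y) *
      (24 * ((1 + Real.log Y) * 1 *
        (√(2 * Y) * (√(2 * Y) + D * √(2 * (U : ℝ) ^ 2 + 2 * Y / U) + (D : ℝ) ^ 2))))) := by
  have hlY := Real.log_natCast_nonneg Y
  have hU0 : (0:ℝ) < U := by exact_mod_cast hU
  refine bil hJ _ _ _ ?_ h hh
  intro j hj η
  have hjY := hJ' j hj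
  have hRHS : 0 ≤ 24 * ((1 + Real.log Y) * 1 *
        (√(2 * Y) * (√(2 * Y) + D * √(2 * (U : ℝ) ^ 2 + 2 * Y / U) + (D : ℝ) ^ 2))) := by positivity
  by_cases hk : 2 ^ (j + 1) ≤ U
  · refine le_trans (le_of_eq (sum_eq_zero fun p _ => ?_)) hRHS
    rw [PP_zero (fun k hk' => ?_), norm_zero, zero_mul]
    unfold dy
    split_ifs with h1
    · rw [mem_Ico] at h1
      exact gL_zero (Or.inl (by omega))
    · rfl
  by_cases hk2 : U * U < 2 ^ j
  · refine le_trans (le_of_eq (sum_eq_zero fun p _ => ?_)) hRHS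
    rw [PP_zero (fun k hk' => ?_), norm_zero, zero_mul]
    unfold dy
    split_ifs with h1
    · rw [mem_Ico] at h1
      exact gL_zero (Or.inr (by omega))
    · rfl
  rw [not_le] at hk
  rw [not_lt] at hk2
  have hlog := logs hjY
  have hA : ∑ k ∈ Icc 1 (2 ^ (j + 1)), ‖dy j (gL U) k‖ ^ 2 ≤ ((2 ^ (j + 1) : ℕ) : ℝ) * (1 + Real.log Y) ^ 2 := by
    refine (dy_sq j _ _).trans ?_
    calc ∑ k ∈ Icc 1 (2 ^ (j + 1)), ‖gL U k‖ ^ 2 ≤ ∑ k ∈ Icc 1 (2 ^ (j + 1)), (1 + Real.log Y) ^ 2 := by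
          apply sum_le_sum
          intro k hk'
          rw [mem_Icc] at hk'
          apply pow_le_pow_left₀ (norm_nonneg _)
          refine (gL_norm U).trans ?_
          refine (Real.log_le_log (by exact_mod_cast hk'.1) ?_).trans hlog
          exact_mod_cast hk'.2
      _ = _ := by rw [sum_const, nsmul_eq_mul, Nat.card_Icc, Nat.add_sub_cancel]
  have hB : ∑ l ∈ Icc 1 (Y / 2 ^ j), ‖(((Real.log l) ^ 0 : ℝ) : ℂ)‖ ^ 2 ≤ ((Y / 2 ^ j : ℕ) : ℝ) * 1 ^ 2 := by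
    simp
  refine (point D _ _ _ _ _ _ hA hB η).trans ?_
  have hNr : ((Y / 2 ^ j : ℕ) : ℝ) ≤ Y / 2 ^ j := by
    have := Nat.cast_div_le (α := ℝ) (m := Y) (n := 2 ^ j)
    push_cast at this
    exact this
  have h2j : (0:ℝ) < 2 ^ j := by positivity
  have hkr : (U:ℝ) ≤ 2 ^ (j + 1) := by exact_mod_cast hk.le
  refine blk (by positivity) (by positivity) (by positivity) (by positivity) (by positivity) (by positivity) ?_ ?_
  · push_cast
    calc (2:ℝ) ^ (j + 1) * ((Y / 2 ^ j : ℕ) : ℝ) ≤ 2 ^ (j + 1) * (Y / 2 ^ j) := mul_le_mul_of_nonneg_left hNr (by positivity)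
      _ = 2 * Y := by rw [pow_succ]; field_simp
  · push_cast
    have g1 : (2:ℝ) ^ (j + 1) ≤ 2 * (U:ℝ) ^ 2 := by
      have : ((2 ^ j : ℕ) : ℝ) ≤ ((U * U : ℕ) : ℝ) := by exact_mod_cast hk2
      push_cast at this
      rw [pow_succ]
      nlinarith
    have g2 : ((Y / 2 ^ j : ℕ) : ℝ) ≤ 2 * Y / U := by
      refine hNr.trans ?_
      rw [div_le_div_iff₀ h2j hU0]
      rw [pow_succ] at hkr
      nlinarith [(Nat.cast_nonneg Y : (0:ℝ) ≤ Y)]
    linarith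

end Pool.Agent.D0H48.BM
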